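import Pool.Agent.FRM.St

/-!
# FRM: the adversary weights of a formula

Theorem `thm_Adv : St_Adv`.
-/

set_option autoImplicit false

namespace Pool.Agent.FRM

variable {V : Type}

/-- formulas without leaves are constant -/
theorem Adv_const (F : BF V) (h : F.size = 0) (z z' : V → Bool) : F.eval z = F.eval z' := by
  induction F with
  | tt => rfl
  | var v => exact absurd h one_ne_zero
  | not F ih =>
    show (!(F.eval z)) = !(F.eval z')
    rw [ih h]
  | and F G ihF ihG =>
    have h' : F.size + G.size = 0 := h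
    show (F.eval z && G.eval z) = (F.eval z' && G.eval z')
    rw [ihF (by omega), ihG (by omega)]

/-- the factor of the first part -/
noncomputable def Adv_al (f g : Bool) (x W : ℝ) : ℝ :=
  if f then (if g then Real.sqrt (x / W) else 0) else Real.sqrt (W / x)

/-- the factor of the second part -/
noncomputable def Adv_be (f g : Bool) (y W : ℝ) : ℝ :=
  if f then (if g then Real.sqrt (y / W) else Real.sqrt (W / y)) else 0

theorem Adv_one {x W : ℝ} (hx : 0 < x) (hW : 0 < W) :
    Real.sqrt (x / W) * Real.sqrt (W / x) = 1 := by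
  rw [← Real.sqrt_mul (by positivity)]
  have e : x / W * (W / x) = 1 := by field_simp
  rw [e, Real.sqrt_one]

theorem Adv_sq {x y W s t : ℝ} (hx : 0 ≤ x) (hy : 0 ≤ y) (hW : 0 ≤ W) (hs0 : 0 ≤ s) (ht0 : 0 ≤ t)
    (hs : s ≤ x) (ht : t ≤ y) (h : x ^ 2 + y ^ 2 = W ^ 2) (f g : Bool) :
    Adv_al f g x W ^ 2 * s + Adv_be f g y W ^ 2 * t ≤ W := by
  have hdiv : ∀ u v : ℝ, 0 ≤ u → 0 ≤ v → v ≤ u → W / u * v ≤ W := by
    intro u v hu hv huv
    rcases hu.eq_or_lt with h0 | h0
    · have : v = 0 := le_antisymm (by rw [h0]; exact huv) hv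
      rw [this, mul_zero]
      exact hW
    · rw [div_mul_eq_mul_div, div_le_iff₀ h0]
      exact mul_le_mul_of_nonneg_left huv hW
  unfold Adv_al Adv_be
  cases f with
  | true =>
    cases g with
    | true =>
      simp only [if_true]
      rw [Real.sq_sqrt (by positivity), Real.sq_sqrt (by positivity)]
      rcases hW.eq_or_lt with h0 | h0
      · rw [← h0]
        simp
      · have e1 : x / W * s + y / W * t = (x * s + y * t) / W := by ring
        rw [e1, div_le_iff₀ h0]
        nlinarith [mul_le_mul_of_nonneg_left hs hx, mul_le_mul_of_nonneg_left ht hy]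
    | false =>
      simp only [if_true, Bool.false_eq_true, if_false]
      rw [Real.sq_sqrt (by positivity)]
      have := hdiv y t hy ht0 ht
      nlinarith
  | false =>
    simp only [Bool.false_eq_true, if_false]
    rw [Real.sq_sqrt (by positivity)]
    have := hdiv x s hx hs0 hs
    nlinarith

/-- the conjunction -/
theorem Adv_and (a b : ℕ) (f g : (V → Bool) → Bool) (hf0 : a = 0 → ∀ z z', f z = f z')
    (hg0 : b = 0 → ∀ z z', g z = g z')
    (labF : Fin a → V) (wF : (V → Bool) → Fin a → ℝ) (hF1 : ∀ z, ∑ i, wF z i ^ 2 ≤ Real.sqrt a)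
    (hF2 : ∀ z z', f z ≠ f z' →
      ∑ i, (if z (labF i) ≠ z' (labF i) then wF z i * wF z' i else 0) = 1)
    (labG : Fin b → V) (wG : (V → Bool) → Fin b → ℝ) (hG1 : ∀ z, ∑ i, wG z i ^ 2 ≤ Real.sqrt b)
    (hG2 : ∀ z z', g z ≠ g z' →
      ∑ i, (if z (labG i) ≠ z' (labG i) then wG z i * wG z' i else 0) = 1) :
    ∃ (lab : Fin (a + b) → V) (w : (V → Bool) → Fin (a + b) → ℝ),
      (∀ z, ∑ i, w z i ^ 2 ≤ Real.sqrt ((a + b : ℕ) : ℝ)) ∧
      ∀ z z', (f z && g z) ≠ (f z' && g z') →
        ∑ i, (if z (lab i) ≠ z' (lab i) then w z i * w z' i else 0) = 1 := by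
  set x := Real.sqrt a with hx
  set y := Real.sqrt b with hy
  set W := Real.sqrt ((a + b : ℕ) : ℝ) with hW
  have hx0 : 0 ≤ x := Real.sqrt_nonneg _
  have hy0 : 0 ≤ y := Real.sqrt_nonneg _
  have hW0 : 0 ≤ W := Real.sqrt_nonneg _
  have hsq : x ^ 2 + y ^ 2 = W ^ 2 := by
    rw [hx, hy, hW, Real.sq_sqrt (Nat.cast_nonneg _), Real.sq_sqrt (Nat.cast_nonneg _),
      Real.sq_sqrt (Nat.cast_nonneg _), Nat.cast_add]
  obtain ⟨lab, hlabl, hlabr⟩ : ∃ lab : Fin (a + b) → V, (∀ i, lab (Fin.castAdd b i) = labF i) ∧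
      ∀ i, lab (Fin.natAdd a i) = labG i :=
    ⟨Fin.append labF labG, Fin.append_left labF labG, Fin.append_right labF labG⟩
  obtain ⟨w, hwl, hwr⟩ : ∃ w : (V → Bool) → Fin (a + b) → ℝ,
      (∀ z i, w z (Fin.castAdd b i) = Adv_al (f z) (g z) x W * wF z i) ∧
      ∀ z i, w z (Fin.natAdd a i) = Adv_be (f z) (g z) y W * wG z i :=
    ⟨fun z => Fin.append (fun i => Adv_al (f z) (g z) x W * wF z i)
      (fun i => Adv_be (f z) (g z) y W * wG z i),
      fun z i => Fin.append_left _ _ i, fun z i => Fin.append_right _ _ i⟩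
  have hsum : ∀ z z', ∑ i, (if z (lab i) ≠ z' (lab i) then w z i * w z' i else 0)
      = Adv_al (f z) (g z) x W * Adv_al (f z') (g z') x W *
          ∑ i, (if z (labF i) ≠ z' (labF i) then wF z i * wF z' i else 0)
        + Adv_be (f z) (g z) y W * Adv_be (f z') (g z') y W *
          ∑ i, (if z (labG i) ≠ z' (labG i) then wG z i * wG z' i else 0) := by
    intro z z'
    rw [Fin.sum_univ_add, Finset.mul_sum, Finset.mul_sum]
    congr 1
    · refine Finset.sum_congr rfl fun i _ => ?_
      rw [hlabl, hwl, hwl, mul_ite, mul_zero]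
      by_cases h : z (labF i) ≠ z' (labF i)
      · rw [if_pos h, if_pos h]
        ring
      · rw [if_neg h, if_neg h]
    · refine Finset.sum_congr rfl fun i _ => ?_
      rw [hlabr, hwr, hwr, mul_ite, mul_zero]
      by_cases h : z (labG i) ≠ z' (labG i)
      · rw [if_pos h, if_pos h]
        ring
      · rw [if_neg h, if_neg h]
  have hmain : ∀ z z', f z = true → g z = true → (f z' && g z') = false →
      ∑ i, (if z (lab i) ≠ z' (lab i) then w z i * w z' i else 0) = 1 := by
    intro z z' h1 h2 h3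
    rw [hsum, h1, h2]
    cases hf' : f z' with
    | false =>
      have hne : f z ≠ f z' := by rw [h1, hf']; exact Bool.true_eq_false_eq_False
      have ha : 0 < a := by
        rcases Nat.eq_zero_or_pos a with h0 | h0
        · exact absurd (hf0 h0 z z') hne
        · exact h0
      have hxp : 0 < x := Real.sqrt_pos.2 (by exact_mod_cast ha)
      have hWp : 0 < W := Real.sqrt_pos.2 (by exact_mod_cast (by omega : 0 < a + b))
      rw [hF2 z z' hne]
      unfold Adv_al Adv_be
      simp only [if_true, Bool.false_eq_true, if_false, mul_zero, zero_mul, add_zero, mul_one]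
      exact Adv_one hxp hWp
    | true =>
      have hg' : g z' = false := by
        rw [hf', Bool.true_and] at h3
        exact h3
      have hne : g z ≠ g z' := by rw [h2, hg']; exact Bool.true_eq_false_eq_False
      have hb : 0 < b := by
        rcases Nat.eq_zero_or_pos b with h0 | h0
        · exact absurd (hg0 h0 z z') hne
        · exact h0
      have hyp : 0 < y := Real.sqrt_pos.2 (by exact_mod_cast hb)
      have hWp : 0 < W := Real.sqrt_pos.2 (by exact_mod_cast (by omega : 0 < a + b))
      rw [hg', hG2 z z' hne]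
      unfold Adv_al Adv_be
      simp only [if_true, Bool.false_eq_true, if_false, mul_zero, zero_mul, zero_add, mul_one]
      exact Adv_one hyp hWp
  refine ⟨lab, w, ?_, ?_⟩
  · intro z
    have e : ∑ i, w z i ^ 2 = Adv_al (f z) (g z) x W ^ 2 * ∑ i, wF z i ^ 2 +
        Adv_be (f z) (g z) y W ^ 2 * ∑ i, wG z i ^ 2 := by
      rw [Fin.sum_univ_add, Finset.mul_sum, Finset.mul_sum]
      congr 1
      · exact Finset.sum_congr rfl fun i _ => by rw [hwl, mul_pow]
      · exact Finset.sum_congr rfl fun i _ => by rw [hwr, mul_pow]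
    rw [e]
    exact Adv_sq hx0 hy0 hW0 (Finset.sum_nonneg fun i _ => sq_nonneg _)
      (Finset.sum_nonneg fun i _ => sq_nonneg _) (hF1 z) (hG1 z) hsq (f z) (g z)
  · intro z z' hne
    have hsymm : ∀ z z', ∑ i, (if z (lab i) ≠ z' (lab i) then w z i * w z' i else 0)
        = ∑ i, (if z' (lab i) ≠ z (lab i) then w z' i * w z i else 0) := by
      intro z z'
      refine Finset.sum_congr rfl fun i _ => ?_
      by_cases h : z (lab i) ≠ z' (lab i)
      · rw [if_pos h, if_pos (Ne.symm h), mul_comm]
      · rw [if_neg h, if_neg (fun h' => h (Ne.symm h'))]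
    cases h1 : (f z && g z) with
    | true =>
      have h2 : (f z' && g z') = false := by
        rw [h1] at hne
        exact (Bool.eq_false_or_eq_true _).resolve_left (fun h => hne h.symm)
      have h3 := (Bool.and_eq_true _ _).mp h1
      exact hmain z z' h3.1 h3.2 h2
    | false =>
      have h2 : (f z' && g z') = true := by
        rw [h1] at hne
        exact (Bool.eq_false_or_eq_true _).resolve_right (fun h => hne h.symm)
      have h3 := (Bool.and_eq_true _ _).mp h2
      rw [hsymm]
      exact hmain z' z h3.1 h3.2 h1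

/-- **ADV.** The adversary weights of a formula. -/
theorem thm_Adv : St_Adv := by
  intro V F
  induction F with
  | tt =>
    refine ⟨fun i => absurd i.2 (Nat.not_lt_zero _), fun _ _ => 0, fun z => ?_, fun z z' h => ?_⟩
    · simp
    · exact absurd rfl h
  | var v =>
    refine ⟨fun _ => v, fun _ _ => 1, fun z => ?_, fun z z' h => ?_⟩
    · show ∑ _i : Fin 1, (1 : ℝ) ^ 2 ≤ Real.sqrt ((1 : ℕ) : ℝ)
      simp
    · show ∑ _i : Fin 1, (if z v ≠ z' v then (1 : ℝ) * 1 else 0) = 1
      have h' : z v ≠ z' v := h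
      rw [if_pos h']
      simp
  | not F ih =>
    obtain ⟨lab, w, h1, h2⟩ := ih
    refine ⟨lab, w, h1, fun z z' h => h2 z z' fun e => h ?_⟩
    show (!(F.eval z)) = !(F.eval z')
    rw [e]
  | and F G ihF ihG =>
    obtain ⟨labF, wF, hF1, hF2⟩ := ihF
    obtain ⟨labG, wG, hG1, hG2⟩ := ihG
    exact Adv_and F.size G.size (fun z => F.eval z) (fun z => G.eval z)
      (fun h z z' => Adv_const F h z z') (fun h z z' => Adv_const G h z z')
      labF wF hF1 hF2 labG wG hG1 hG2

end Pool.Agent.FRM
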