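import Pool.Agent.FRM.St

/-!
# FRM, module Apx: the approximation theorem
-/

set_option autoImplicit false

namespace Pool.Agent.FRM

lemma Apx_ind (b : Bool) : |(0 : ℝ) - ind b| ≤ 1 := by
  cases b <;> simp [ind]

lemma Apx_exp4 : (36 : ℝ) ≤ Real.exp 4 := by
  have h1 : (2.7 : ℝ) ≤ Real.exp 1 := by
    have := Real.exp_one_gt_d9
    linarith
  have h2 : Real.exp 4 = Real.exp 1 ^ 4 := by
    rw [← Real.exp_nat_mul]
    norm_num
  rw [h2]
  calc (36 : ℝ) ≤ 2.7 ^ 4 := by norm_num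
    _ ≤ Real.exp 1 ^ 4 := pow_le_pow_left₀ (by norm_num) h1 4

lemma Apx_exp2 : (3 : ℝ) ≤ Real.exp 2 := by
  have h1 : (2.7 : ℝ) ≤ Real.exp 1 := by
    have := Real.exp_one_gt_d9
    linarith
  have h2 : Real.exp 2 = Real.exp 1 ^ 2 := by
    rw [← Real.exp_nat_mul]
    norm_num
  rw [h2]
  calc (3 : ℝ) ≤ 2.7 ^ 2 := by norm_num
    _ ≤ Real.exp 1 ^ 2 := pow_le_pow_left₀ (by norm_num) h1 2

/-- the approximation of a product of pieces -/
lemma Apx_piece (hA : St_Wta) (hS : St_Sgn) {X V : Type} {S : Submonoid (X → ℝ)}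
    {z : X → V → Bool} {B : ℝ} (hB : 1 ≤ B) {μ M J : ℕ}
    (hK : ∀ P : BF V, P.size ≤ μ → ∃ r : X → ℝ, Wt (S : Set (X → ℝ)) B r ∧
      (∀ x, 0 ≤ r x ∧ r x ≤ 1) ∧ ∀ x, |r x - ind (P.eval (z x))| ≤ 1 / 8)
    {g : (V → Bool) → ℝ} (hg : g ∈ PP V μ M) :
    ∃ q : X → ℝ, Wt (S : Set (X → ℝ)) ((36 * B ^ 2) ^ (M + J)) q ∧
      ∀ x, |q x - g (z x)| ≤ 3 ^ M * (3 / 4) ^ J := by
  obtain ⟨l, hl, hP, hgl⟩ := hg
  choose! r hr1 hr2 hr3 using hK
  have hmem : ∀ i : Fin l.length, (l.get i).size ≤ μ := fun i => hP _ (List.get_mem l i)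
  obtain ⟨q, hq1, hq2⟩ := hS X S l.length (fun i x => (l.get i).eval (z x)) (fun i => r (l.get i)) B hB
    (fun i => hr1 _ (hmem i)) (fun i x => hr2 _ (hmem i) x) (fun i x => hr3 _ (hmem i) x) J
  have h36 : (1 : ℝ) ≤ 36 * B ^ 2 := by nlinarith
  refine ⟨q, (hA X).1 _ _ _ _ (pow_le_pow_right₀ h36 (by omega)) hq1, fun x => ?_⟩
  have h1 : g (z x) = ∏ i : Fin l.length, ind ((l.get i).eval (z x)) := by
    rw [hgl, ← Fin.prod_univ_fun_getElem]
    rfl
  rw [h1]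
  refine (hq2 x).trans ?_
  exact mul_le_mul_of_nonneg_right (pow_le_pow_right₀ (by norm_num) hl) (by positivity)

/-- the numbers -/
lemma Apx_num (C0 N L μ M : ℕ) (hL : 1 ≤ L) (hμ : μ = N / L + 1) (hM : M = 3 * N / μ + 1) :
    (3 : ℝ) ^ M * (36 * (Real.exp (C0 * (Real.sqrt μ + 1) * Real.log (μ + 2))) ^ 2) ^ (M + 100 * L) ≤
      Real.exp ((848 + 832 * C0 : ℕ) * (Real.sqrt (N * L) + L + 1) * Real.log (N + 2)) := by
  have hμ1 : 1 ≤ μ := by rw [hμ]; exact Nat.le_add_left 1 _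
  have hNL : N < μ * L := by
    rw [hμ, Nat.add_mul, one_mul]
    have := Nat.div_add_mod N L
    have h2 := Nat.mod_lt N hL
    nlinarith [Nat.mul_comm L (N / L)]
  have hM1 : M ≤ 4 * L := by
    have h1 : 3 * N / μ ≤ 3 * L := by
      refine Nat.div_le_of_le_mul ?_
      nlinarith
    omega
  have hμN : μ ≤ N + 1 := by
    rw [hμ]
    have := Nat.div_le_self N L
    omega
  set b : ℝ := C0 * (Real.sqrt μ + 1) * Real.log (μ + 2) with hb
  have hlN : 1 / 2 ≤ Real.log (N + 2) := by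
    have h1 : Real.log 2 ≤ Real.log (N + 2) :=
      Real.log_le_log (by norm_num) (by have : (0 : ℝ) ≤ N := Nat.cast_nonneg N; linarith)
    have h2 := Real.log_two_gt_d9
    linarith
  have hN0 : (0 : ℝ) ≤ N := Nat.cast_nonneg N
  have hL1 : (1 : ℝ) ≤ L := by exact_mod_cast hL
  have hμN' : (μ : ℝ) ≤ N + 1 := by exact_mod_cast hμN
  have hlμ : Real.log (μ + 2) ≤ 2 * Real.log (N + 2) := by
    have h1 : Real.log (μ + 2) ≤ Real.log ((N + 2) ^ 2) := by
      refine Real.log_le_log (by positivity) ?_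
      nlinarith
    rw [Real.log_pow] at h1
    exact_mod_cast h1
  have hlμ0 : 0 ≤ Real.log (μ + 2) := Real.log_nonneg (by linarith [(Nat.cast_nonneg μ : (0 : ℝ) ≤ μ)])
  have hsq : (L : ℝ) * Real.sqrt μ ≤ Real.sqrt (N * L) + L := by
    have h1 : (μ : ℝ) ≤ N / L + 1 := by
      rw [hμ]
      push_cast
      have := @Nat.cast_div_le ℝ _ _ _ N L
      linarith
    have h2 : Real.sqrt μ ≤ Real.sqrt (N / L) + 1 := by
      rw [Real.sqrt_le_left (by positivity)]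
      have h3 : Real.sqrt (N / L) ^ 2 = N / L := Real.sq_sqrt (by positivity)
      nlinarith [Real.sqrt_nonneg ((N : ℝ) / L)]
    have h3 : (L : ℝ) * Real.sqrt (N / L) = Real.sqrt (N * L) := by
      rw [← Real.sqrt_sq (by positivity : (0 : ℝ) ≤ L * Real.sqrt (N / L))]
      congr 1
      rw [mul_pow, Real.sq_sqrt (by positivity)]
      field_simp
    calc (L : ℝ) * Real.sqrt μ ≤ L * (Real.sqrt (N / L) + 1) :=
          mul_le_mul_of_nonneg_left h2 (by positivity)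
      _ = Real.sqrt (N * L) + L := by rw [mul_add, h3, mul_one]
  have hb0 : 0 ≤ b := by positivity
  have hLb : (L : ℝ) * b ≤ C0 * (Real.sqrt (N * L) + 2 * L) * (2 * Real.log (N + 2)) := by
    have h1 : (L : ℝ) * b = C0 * (L * Real.sqrt μ + L) * Real.log (μ + 2) := by
      rw [hb]; ring
    rw [h1]
    refine mul_le_mul ?_ hlμ hlμ0 (by positivity)
    refine mul_le_mul_of_nonneg_left ?_ (by positivity)
    linarith
  have h1 : (3 : ℝ) ^ M ≤ Real.exp (8 * L) := by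
    calc (3 : ℝ) ^ M ≤ Real.exp 2 ^ M := pow_le_pow_left₀ (by norm_num) Apx_exp2 M
      _ = Real.exp (M * 2) := (Real.exp_nat_mul 2 M).symm
      _ ≤ Real.exp (8 * L) := by
        refine Real.exp_le_exp.2 ?_
        have : (M : ℝ) ≤ 4 * L := by exact_mod_cast hM1
        linarith
  have h2 : 36 * (Real.exp b) ^ 2 ≤ Real.exp (4 + 2 * b) := by
    rw [Real.exp_add, ← Real.exp_nat_mul]
    push_cast
    exact mul_le_mul_of_nonneg_right Apx_exp4 (Real.exp_pos _).le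
  have h3 : (36 * (Real.exp b) ^ 2) ^ (M + 100 * L) ≤ Real.exp (104 * L * (4 + 2 * b)) := by
    calc (36 * (Real.exp b) ^ 2) ^ (M + 100 * L) ≤ Real.exp (4 + 2 * b) ^ (M + 100 * L) :=
          pow_le_pow_left₀ (by positivity) h2 _
      _ = Real.exp ((M + 100 * L : ℕ) * (4 + 2 * b)) := (Real.exp_nat_mul _ _).symm
      _ ≤ Real.exp (104 * L * (4 + 2 * b)) := by
        refine Real.exp_le_exp.2 (mul_le_mul_of_nonneg_right ?_ (by positivity))
        have : (M : ℝ) ≤ 4 * L := by exact_mod_cast hM1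
        push_cast
        linarith
  calc (3 : ℝ) ^ M * (36 * (Real.exp b) ^ 2) ^ (M + 100 * L) ≤
      Real.exp (8 * L) * Real.exp (104 * L * (4 + 2 * b)) :=
        mul_le_mul h1 h3 (by positivity) (Real.exp_pos _).le
    _ = Real.exp (424 * L + 208 * (L * b)) := by
      rw [← Real.exp_add]
      congr 1
      ring
    _ ≤ _ := by
      refine Real.exp_le_exp.2 ?_
      have h4 : (424 : ℝ) * L ≤ 848 * L * Real.log (N + 2) := by nlinarith
      have h5 : (208 : ℝ) * (L * b) ≤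
          208 * (C0 * (Real.sqrt (N * L) + 2 * L) * (2 * Real.log (N + 2))) :=
        mul_le_mul_of_nonneg_left hLb (by norm_num)
      have hs : 0 ≤ Real.sqrt ((N : ℝ) * L) := Real.sqrt_nonneg _
      have hl0 : 0 ≤ Real.log ((N : ℝ) + 2) := by linarith
      have hC : (0 : ℝ) ≤ C0 := Nat.cast_nonneg C0
      push_cast
      have h6 : 848 * (L : ℝ) + 416 * C0 * (Real.sqrt (N * L) + 2 * L) ≤
          (848 + 832 * C0) * (Real.sqrt (N * L) + L + 1) := by
        nlinarith [mul_nonneg hC hs]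
      calc 424 * (L : ℝ) + 208 * (L * b) ≤ 848 * L * Real.log (N + 2) +
            208 * (C0 * (Real.sqrt (N * L) + 2 * L) * (2 * Real.log (N + 2))) := add_le_add h4 h5
        _ = (848 * (L : ℝ) + 416 * C0 * (Real.sqrt (N * L) + 2 * L)) * Real.log (N + 2) := by ring
        _ ≤ _ := mul_le_mul_of_nonneg_right h6 hl0

lemma Apx_err (N L μ M : ℕ) (hL : 1 ≤ L) (hμ : μ = N / L + 1) (hM : M = 3 * N / μ + 1) :
    (3 : ℝ) ^ M * (3 ^ M * (3 / 4) ^ (100 * L)) ≤ (1 / 2) ^ L := by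
  have hNL : N < μ * L := by
    rw [hμ, Nat.add_mul, one_mul]
    have := Nat.div_add_mod N L
    have h2 := Nat.mod_lt N hL
    nlinarith [Nat.mul_comm L (N / L)]
  have hM1 : M ≤ 4 * L := by
    have h1 : 3 * N / μ ≤ 3 * L := by
      refine Nat.div_le_of_le_mul ?_
      nlinarith
    omega
  have h1 : (3 : ℝ) ^ M ≤ 3 ^ (4 * L) := pow_le_pow_right₀ (by norm_num) hM1
  calc (3 : ℝ) ^ M * (3 ^ M * (3 / 4) ^ (100 * L)) ≤
      3 ^ (4 * L) * (3 ^ (4 * L) * (3 / 4) ^ (100 * L)) := by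
        refine mul_le_mul h1 (mul_le_mul_of_nonneg_right h1 (by positivity)) (by positivity)
          (by positivity)
    _ = (3 ^ 4 * (3 ^ 4 * (3 / 4) ^ 100)) ^ L := by
      rw [mul_pow, mul_pow, ← pow_mul, ← pow_mul]
    _ ≤ (1 / 2) ^ L := by
      refine pow_le_pow_left₀ (by positivity) ?_ L
      norm_num

/-- [Apx] the approximation theorem -/
theorem thm_Apx (hA : St_Wta) (_hB : St_Wtb) (hK : St_Wkb) (hP : St_Pcs) (hS : St_Sgn) :
    St_Apx := by
  obtain ⟨C0, hC0, hK⟩ := hK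
  refine ⟨848 + 832 * C0, by omega, ?_⟩
  intro X V S z hz F L
  rcases Nat.eq_zero_or_pos L with hL | hL
  · subst hL
    refine ⟨fun _ => 0, ⟨0, Fin.elim0, Fin.elim0, fun i => i.elim0, ?_, fun x => by simp⟩,
      fun x => ?_⟩
    · rw [Fin.sum_univ_zero]
      exact (Real.exp_pos _).le
    · rw [pow_zero]
      exact Apx_ind _
  · obtain ⟨μ, hμ⟩ : ∃ μ, μ = F.size / L + 1 := ⟨_, rfl⟩
    obtain ⟨M, hM⟩ : ∃ M, M = 3 * F.size / μ + 1 := ⟨_, rfl⟩
    have hμ1 : 1 ≤ μ := by rw [hμ]; exact Nat.le_add_left 1 _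
    obtain ⟨n, c, s, hs, hc, hsum⟩ := hP V F μ hμ1
    rw [← hM] at hs hc
    obtain ⟨B, hBd⟩ : ∃ B, B = Real.exp (C0 * (Real.sqrt μ + 1) * Real.log (μ + 2)) := ⟨_, rfl⟩
    have hB1 : 1 ≤ B := by
      rw [hBd]
      refine Real.one_le_exp ?_
      have : 0 ≤ Real.log ((μ : ℝ) + 2) :=
        Real.log_nonneg (by linarith [(Nat.cast_nonneg μ : (0 : ℝ) ≤ μ)])
      positivity
    have hKP : ∀ P : BF V, P.size ≤ μ → ∃ r : X → ℝ, Wt (S : Set (X → ℝ)) B r ∧
        (∀ x, 0 ≤ r x ∧ r x ≤ 1) ∧ ∀ x, |r x - ind (P.eval (z x))| ≤ 1 / 8 := by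
      intro P hPμ
      obtain ⟨r, hr1, hr2, hr3⟩ := hK X V S z hz P
      refine ⟨r, (hA X).1 _ _ _ _ ?_ hr1, hr2, hr3⟩
      rw [hBd]
      refine Real.exp_le_exp.2 ?_
      have h1 : (P.size : ℝ) ≤ μ := by exact_mod_cast hPμ
      have h2 : Real.sqrt P.size ≤ Real.sqrt μ := Real.sqrt_le_sqrt h1
      have h3 : Real.log ((P.size : ℝ) + 2) ≤ Real.log ((μ : ℝ) + 2) :=
        Real.log_le_log (by positivity) (by linarith)
      have h4 : 0 ≤ Real.log ((P.size : ℝ) + 2) :=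
        Real.log_nonneg (by linarith [(Nat.cast_nonneg P.size : (0 : ℝ) ≤ P.size)])
      refine mul_le_mul (mul_le_mul_of_nonneg_left (by linarith) (Nat.cast_nonneg C0)) h3 h4
        (by positivity)
    have hpc := fun i => Apx_piece hA hS hB1 (M := M) (J := 100 * L) hKP (hs i)
    choose q hq1 hq2 using hpc
    refine ⟨fun x => ∑ i, c i * q i x, ?_, fun x => ?_⟩
    · have hW0 : (0 : ℝ) ≤ (36 * B ^ 2) ^ (M + 100 * L) := by positivity
      have h1 := (hA X).2.2.2.2.1 (S : Set (X → ℝ)) (Fin n) Finset.univ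
        (fun i => |c i| * (36 * B ^ 2) ^ (M + 100 * L)) (fun i x => c i * q i x)
        (fun i _ => (hA X).2.2.2.1 _ _ _ _ (hq1 i))
      refine (hA X).1 _ _ _ _ ?_ h1
      rw [← Finset.sum_mul]
      refine (mul_le_mul_of_nonneg_right hc hW0).trans ?_
      rw [hBd]
      exact Apx_num C0 F.size L μ M hL hμ hM
    · have h0 : ind (F.eval (z x)) = ∑ i, c i * s i (z x) := hsum (z x)
      show |(∑ i, c i * q i x) - ind (F.eval (z x))| ≤ (1 / 2) ^ L
      rw [h0, ← Finset.sum_sub_distrib]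
      refine (Finset.abs_sum_le_sum_abs _ _).trans ?_
      have h1 : ∀ i ∈ Finset.univ, |c i * q i x - c i * s i (z x)| ≤
          |c i| * (3 ^ M * (3 / 4) ^ (100 * L)) := by
        intro i _
        rw [← mul_sub, abs_mul]
        exact mul_le_mul_of_nonneg_left (hq2 i x) (abs_nonneg _)
      refine (Finset.sum_le_sum h1).trans ?_
      rw [← Finset.sum_mul]
      refine (mul_le_mul_of_nonneg_right hc (by positivity)).trans ?_
      exact Apx_err F.size L μ M hL hμ hM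

end Pool.Agent.FRM
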