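import Pool.Agent.FRM.St

/-!
# FRM, module Maj: the majority polynomial
-/

set_option autoImplicit false

namespace Pool.Agent.FRM

lemma Maj_zero (r : ℝ) : maj 0 r = r := by
  have h : Finset.Ioc 0 (2 * 0 + 1) = {1} := by decide
  unfold maj
  rw [h, Finset.sum_singleton]
  simp

lemma Maj_pow {t : ℝ} (h0 : 0 ≤ t) (h : t ≤ 1 / 8) {k j : ℕ} (hj : k + 1 ≤ j) :
    t ^ j ≤ (1 / 8) ^ (k + 1) :=
  (pow_le_pow_of_le_one h0 (h.trans (by norm_num)) hj).trans (pow_le_pow_left₀ h0 h _)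

lemma Maj_total (k : ℕ) : ∑ j ∈ Finset.range (2 * k + 2), ((2 * k + 1).choose j : ℝ) =
    2 ^ (2 * k + 1) := by
  have h := Nat.sum_range_choose (2 * k + 1)
  rw [show 2 * k + 1 + 1 = 2 * k + 2 by ring] at h
  exact_mod_cast h

lemma Maj_const (k : ℕ) : (2 : ℝ) ^ (2 * k + 1) * (1 / 8) ^ (k + 1) = 1 / 4 * (1 / 2) ^ k := by
  have h : (1 / 2 : ℝ) ^ k = 4 ^ k * (1 / 8) ^ k := by
    rw [← mul_pow]
    norm_num
  rw [h, pow_succ, pow_mul, pow_succ]
  norm_num
  ring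

lemma Maj_split (k : ℕ) (g : ℕ → ℝ) : ∑ j ∈ Finset.range (2 * k + 2), g j =
    ∑ j ∈ Finset.range (k + 1), g j + ∑ j ∈ Finset.Ioc k (2 * k + 1), g j := by
  have h : Finset.range (2 * k + 2) = Finset.range (k + 1) ∪ Finset.Ioc k (2 * k + 1) := by
    ext j
    simp only [Finset.mem_union, Finset.mem_range, Finset.mem_Ioc]
    omega
  rw [h, Finset.sum_union]
  rw [Finset.disjoint_left]
  intro j h1 h2
  simp only [Finset.mem_range, Finset.mem_Ioc] at h1 h2
  omega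

lemma Maj_bin (k : ℕ) (a b : ℝ) : ∑ j ∈ Finset.range (2 * k + 2),
    ((2 * k + 1).choose j : ℝ) * a ^ j * b ^ (2 * k + 1 - j) = (a + b) ^ (2 * k + 1) := by
  rw [add_pow]
  refine Finset.sum_congr (by rw [show 2 * k + 1 + 1 = 2 * k + 2 by ring]) fun j _ => ?_
  ring

/-- an estimate for a part of the sum of the binomial coefficients -/
lemma Maj_part (k : ℕ) (s : Finset ℕ) (hs : s ⊆ Finset.range (2 * k + 2)) (g : ℕ → ℝ)
    (hg : ∀ j ∈ s, g j ≤ (1 / 8) ^ (k + 1)) :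
    ∑ j ∈ s, ((2 * k + 1).choose j : ℝ) * g j ≤ 1 / 4 * (1 / 2) ^ k := by
  calc ∑ j ∈ s, ((2 * k + 1).choose j : ℝ) * g j
      ≤ ∑ j ∈ s, ((2 * k + 1).choose j : ℝ) * (1 / 8) ^ (k + 1) :=
        Finset.sum_le_sum fun j hj => mul_le_mul_of_nonneg_left (hg j hj) (Nat.cast_nonneg _)
    _ ≤ ∑ j ∈ Finset.range (2 * k + 2), ((2 * k + 1).choose j : ℝ) * (1 / 8) ^ (k + 1) :=
        Finset.sum_le_sum_of_subset_of_nonneg hs fun j _ _ => by positivity
    _ = 1 / 4 * (1 / 2) ^ k := by rw [← Finset.sum_mul, Maj_total, Maj_const]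

lemma Maj_low (k : ℕ) {r : ℝ} (h0 : 0 ≤ r) (h : r ≤ 1 / 8) : |maj k r| ≤ 1 / 4 * (1 / 2) ^ k := by
  have h1 : 0 ≤ 1 - r := by linarith
  have hpos : 0 ≤ maj k r := Finset.sum_nonneg fun j _ => by positivity
  rw [abs_of_nonneg hpos]
  unfold maj
  simp only [mul_assoc]
  refine Maj_part k _ (fun j hj => ?_) (fun j => r ^ j * (1 - r) ^ (2 * k + 1 - j)) fun j hj => ?_
  · simp only [Finset.mem_range, Finset.mem_Ioc] at hj ⊢
    omega
  · have hj' : k + 1 ≤ j := by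
      simp only [Finset.mem_Ioc] at hj
      omega
    calc r ^ j * (1 - r) ^ (2 * k + 1 - j) ≤ r ^ j * 1 :=
          mul_le_mul_of_nonneg_left (pow_le_one₀ h1 (by linarith)) (by positivity)
      _ = r ^ j := mul_one _
      _ ≤ (1 / 8) ^ (k + 1) := Maj_pow h0 h hj'

lemma Maj_high (k : ℕ) {r : ℝ} (h0 : r ≤ 1) (h : 1 - r ≤ 1 / 8) :
    |maj k r - 1| ≤ 1 / 4 * (1 / 2) ^ k := by
  have hr : 0 ≤ r := by linarith
  have hr1 : 0 ≤ 1 - r := by linarith
  have h1 := Maj_bin k r (1 - r)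
  rw [Maj_split] at h1
  have h2 : maj k r - 1 = -∑ j ∈ Finset.range (k + 1),
      ((2 * k + 1).choose j : ℝ) * r ^ j * (1 - r) ^ (2 * k + 1 - j) := by
    unfold maj
    rw [show r + (1 - r) = 1 by ring, one_pow] at h1
    linarith
  have hpos : 0 ≤ ∑ j ∈ Finset.range (k + 1),
      ((2 * k + 1).choose j : ℝ) * r ^ j * (1 - r) ^ (2 * k + 1 - j) :=
    Finset.sum_nonneg fun j _ => by positivity
  rw [h2, abs_neg, abs_of_nonneg hpos]
  simp only [mul_assoc]
  refine Maj_part k _ (fun j hj => ?_) (fun j => r ^ j * (1 - r) ^ (2 * k + 1 - j)) fun j hj => ?_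
  · simp only [Finset.mem_range] at hj ⊢
    omega
  · have hj' : k + 1 ≤ 2 * k + 1 - j := by
      simp only [Finset.mem_range] at hj
      omega
    calc r ^ j * (1 - r) ^ (2 * k + 1 - j) ≤ 1 * (1 - r) ^ (2 * k + 1 - j) :=
          mul_le_mul_of_nonneg_right (pow_le_one₀ hr h0) (by positivity)
      _ = (1 - r) ^ (2 * k + 1 - j) := one_mul _
      _ ≤ (1 / 8) ^ (k + 1) := Maj_pow hr1 h hj'

theorem thm_Maj (hA : St_Wta) (hB : St_Wtb) : St_Maj := by
  refine ⟨Maj_zero, fun k r b h0 h1 h => ?_, fun X S B f k hB1 hf => ?_⟩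
  · cases b
    · simp only [ind, Bool.false_eq_true, if_false, sub_zero] at h ⊢
      exact Maj_low k h0 (le_trans (le_abs_self _) h)
    · simp only [ind, if_true] at h ⊢
      refine Maj_high k h1 ?_
      have := neg_abs_le (r - 1)
      linarith
  · obtain ⟨hmono, -, hadd, hsmul, hsum, -⟩ := hA X
    obtain ⟨hc, hmul, hpow⟩ := hB X S
    have hg : Wt (S : Set (X → ℝ)) (1 + B) (fun x => 1 - f x) := by
      have h1 := hadd _ _ _ _ _ (hc 1) (hsmul _ _ (-1) _ hf)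
      rw [abs_one, abs_neg, abs_one, one_mul] at h1
      have h2 : (fun x => (1 : ℝ) + -1 * f x) = fun x => 1 - f x := by
        funext x
        ring
      rw [h2] at h1
      exact h1
    have hterm : ∀ j ∈ Finset.Ioc k (2 * k + 1), Wt (S : Set (X → ℝ))
        (((2 * k + 1).choose j : ℝ) * B ^ j * (1 + B) ^ (2 * k + 1 - j))
        (fun x => ((2 * k + 1).choose j : ℝ) * f x ^ j * (1 - f x) ^ (2 * k + 1 - j)) := by
      intro j _
      have h1 := hmul _ _ _ _ (hpow _ _ j hf) (hpow _ _ (2 * k + 1 - j) hg)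
      have h2 := hsmul _ _ ((2 * k + 1).choose j : ℝ) _ h1
      rw [abs_of_nonneg (Nat.cast_nonneg _), ← mul_assoc] at h2
      have h3 : (fun x => ((2 * k + 1).choose j : ℝ) *
          (f x ^ j * (1 - f x) ^ (2 * k + 1 - j))) =
          fun x => ((2 * k + 1).choose j : ℝ) * f x ^ j * (1 - f x) ^ (2 * k + 1 - j) := by
        funext x
        ring
      rw [h3] at h2
      exact h2
    refine hmono _ _ _ _ ?_ (hsum _ _ _ _ _ hterm)
    have hB0 : 0 ≤ B := by linarith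
    calc ∑ j ∈ Finset.Ioc k (2 * k + 1),
          ((2 * k + 1).choose j : ℝ) * B ^ j * (1 + B) ^ (2 * k + 1 - j)
        ≤ ∑ j ∈ Finset.range (2 * k + 2),
          ((2 * k + 1).choose j : ℝ) * B ^ j * (1 + B) ^ (2 * k + 1 - j) := by
          refine Finset.sum_le_sum_of_subset_of_nonneg (fun j hj => ?_) fun j _ _ => by positivity
          simp only [Finset.mem_range, Finset.mem_Ioc] at hj ⊢
          omega
      _ = (B + (1 + B)) ^ (2 * k + 1) := Maj_bin k B (1 + B)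
      _ ≤ (3 * B) ^ (2 * k + 1) := pow_le_pow_left₀ (by linarith) (by linarith) _

end Pool.Agent.FRM
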