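import Pool.Agent.FRM.St

/-!
# FRM: decomposition of a formula into pieces
-/

set_option autoImplicit false

namespace Pool.Agent.FRM

/-- monotonicity in the set -/
theorem Pcs_mono {X : Type} {S S' : Set (X → ℝ)} (h : S ⊆ S') {B : ℝ} {f : X → ℝ}
    (hf : Wt S B f) : Wt S' B f := by
  obtain ⟨n, c, s, h1, h2, h3⟩ := hf
  exact ⟨n, c, s, fun i => h (h1 i), h2, h3⟩

/-- multiplication with one element -/
theorem Pcs_smul {X : Type} {S S' : Set (X → ℝ)} {t : X → ℝ}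
    (h : ∀ s ∈ S, (fun x => t x * s x) ∈ S') {B : ℝ} {f : X → ℝ}
    (hf : Wt S B f) : Wt S' B (fun x => t x * f x) := by
  obtain ⟨n, c, s, h1, h2, h3⟩ := hf
  refine ⟨n, c, fun i x => t x * s i x, fun i => h _ (h1 i), h2, fun x => ?_⟩
  show t x * f x = ∑ i, c i * (t x * s i x)
  rw [h3 x, Finset.mul_sum]
  exact Finset.sum_congr rfl fun i _ => by ring

/-- multiplication -/
theorem Pcs_mul (hA : St_Wta) {X : Type} {S T S' : Set (X → ℝ)}
    (h : ∀ t ∈ T, ∀ s ∈ S, (fun x => t x * s x) ∈ S') {B B' : ℝ} {f g : X → ℝ} (hB' : 0 ≤ B')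
    (hf : Wt T B f) (hg : Wt S B' g) : Wt S' (B * B') (fun x => f x * g x) := by
  obtain ⟨p1, -, -, p4, p5, -⟩ := hA X
  obtain ⟨n, c, t, h1, h2, h3⟩ := hf
  have h4 : ∀ i ∈ (Finset.univ : Finset (Fin n)),
      Wt S' (|c i| * B') (fun x => c i * (t i x * g x)) := fun i _ =>
    p4 _ _ _ _ (Pcs_smul (h _ (h1 i)) hg)
  have h5 := p5 S' (Fin n) Finset.univ (fun i => |c i| * B') (fun i x => c i * (t i x * g x)) h4
  have h6 : (fun x => f x * g x) = fun x => ∑ i, c i * (t i x * g x) := by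
    funext x
    rw [h3 x, Finset.sum_mul]
    exact Finset.sum_congr rfl fun i _ => by ring
  rw [h6]
  refine p1 _ _ _ _ ?_ h5
  rw [← Finset.sum_mul]
  exact mul_le_mul_of_nonneg_right h2 hB'

theorem Pcs_PP_mono {V : Type} (μ : ℕ) {a b : ℕ} (h : a ≤ b) : PP V μ a ⊆ PP V μ b := by
  rintro g ⟨l, h1, h2, h3⟩
  exact ⟨l, h1.trans h, h2, h3⟩

theorem Pcs_PP_mul {V : Type} (μ a b : ℕ) : ∀ t ∈ PP V μ a, ∀ s ∈ PP V μ b,
    (fun x => t x * s x) ∈ PP V μ (a + b) := by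
  rintro t ⟨l, h1, h2, h3⟩ s ⟨l', h1', h2', h3'⟩
  refine ⟨l ++ l', ?_, ?_, fun z => ?_⟩
  · rw [List.length_append]
    exact Nat.add_le_add h1 h1'
  · intro P hP
    rcases List.mem_append.1 hP with hP | hP
    · exact h2 P hP
    · exact h2' P hP
  · rw [List.map_append, List.prod_append, ← h3 z, ← h3' z]

theorem Pcs_single {V : Type} (μ : ℕ) (F : BF V) (h : F.size ≤ μ) :
    (fun z => ind (F.eval z)) ∈ PP V μ 1 := by
  refine ⟨[F], le_refl _, ?_, fun z => ?_⟩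
  · intro P hP
    rw [List.mem_singleton.1 hP]
    exact h
  · simp

theorem Pcs_main (hA : St_Wta) (hS : St_Sep) (V : Type) (μ : ℕ) (hμ : 1 ≤ μ) :
    ∀ s : ℕ, ∀ F : BF V, F.size = s → μ ≤ 3 * F.size → ∃ m : ℕ, (m + 1) * μ ≤ 3 * F.size ∧
      Wt (PP V μ (m + 1)) (3 ^ m) (fun z => ind (F.eval z)) := by
  intro s
  induction s using Nat.strong_induction_on with
  | _ s ih =>
  intro F hF hμF
  obtain ⟨p1, p2, p3, p4, -, -⟩ := hA (V → Bool)
  by_cases hs : s ≤ μ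
  · refine ⟨0, by omega, ?_⟩
    rw [pow_zero]
    exact p2 _ _ (Pcs_single μ F (by omega))
  · obtain ⟨C, F1, F0, a1, a2, a3, a4, a5⟩ := hS V F (2 * s / 3) (by omega) (by omega)
    obtain ⟨mC, bC, wC⟩ := ih C.size (by omega) C rfl (by omega)
    obtain ⟨m1, b1, w1⟩ := ih F1.size (by omega) F1 rfl (by omega)
    obtain ⟨m0, b0, w0⟩ := ih F0.size (by omega) F0 rfl (by omega)
    refine ⟨mC + max m1 m0 + 1, ?_, ?_⟩
    · have h1 : (max m1 m0 + 1) * μ ≤ 3 * F1.size := by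
        rcases le_total m1 m0 with h | h
        · rw [max_eq_right h]
          omega
        · rw [max_eq_left h]
          exact b1
      have h2 : (mC + max m1 m0 + 1 + 1) * μ = (mC + 1) * μ + (max m1 m0 + 1) * μ := by ring
      rw [h2]
      omega
    · have q1 : Wt (PP V μ (mC + max m1 m0 + 1 + 1)) (3 ^ mC * 3 ^ m1)
          (fun z => ind (C.eval z) * ind (F1.eval z)) := by
        refine Pcs_mono (Pcs_PP_mono μ ?_) (Pcs_mul hA (Pcs_PP_mul μ (mC + 1) (m1 + 1))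
          (by positivity) wC w1)
        have := le_max_left m1 m0
        omega
      have q2 : Wt (PP V μ (mC + max m1 m0 + 1 + 1)) (3 ^ mC * 3 ^ m0)
          (fun z => ind (C.eval z) * ind (F0.eval z)) := by
        refine Pcs_mono (Pcs_PP_mono μ ?_) (Pcs_mul hA (Pcs_PP_mul μ (mC + 1) (m0 + 1))
          (by positivity) wC w0)
        have := le_max_right m1 m0
        omega
      have q3 : Wt (PP V μ (mC + max m1 m0 + 1 + 1)) (3 ^ m0)
          (fun z => ind (F0.eval z)) := by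
        refine Pcs_mono (Pcs_PP_mono μ ?_) w0
        have := le_max_right m1 m0
        omega
      have q4 := p3 _ _ _ _ _ (p3 _ _ _ _ _ q1 q3) (p4 _ _ (-1) _ q2)
      have q5 : (fun z => ind (F.eval z)) = fun z => ind (C.eval z) * ind (F1.eval z) +
          ind (F0.eval z) + (-1) * (ind (C.eval z) * ind (F0.eval z)) := by
        funext z
        rw [a5 z]
        by_cases hC : C.eval z = true
        · rw [if_pos hC, show ind (C.eval z) = 1 by rw [hC]; rfl]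
          ring
        · rw [if_neg hC, show ind (C.eval z) = 0 by rw [Bool.not_eq_true] at hC; rw [hC]; rfl]
          ring
      rw [q5]
      refine p1 _ _ _ _ ?_ q4
      have e1 : (3 : ℝ) ^ m1 ≤ 3 ^ max m1 m0 :=
        pow_le_pow_right₀ (by norm_num) (le_max_left _ _)
      have e0 : (3 : ℝ) ^ m0 ≤ 3 ^ max m1 m0 :=
        pow_le_pow_right₀ (by norm_num) (le_max_right _ _)
      have eC : (1 : ℝ) ≤ 3 ^ mC := one_le_pow₀ (by norm_num)
      have e2 : (3 : ℝ) ^ (mC + max m1 m0 + 1) = 3 * (3 ^ mC * 3 ^ max m1 m0) := by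
        rw [pow_succ, pow_add]; ring
      rw [e2, abs_neg, abs_one, one_mul]
      have e3 : (0 : ℝ) ≤ 3 ^ max m1 m0 := by positivity
      have f1 : (3 : ℝ) ^ mC * 3 ^ m1 ≤ 3 ^ mC * 3 ^ max m1 m0 :=
        mul_le_mul_of_nonneg_left e1 (by positivity)
      have f0 : (3 : ℝ) ^ mC * 3 ^ m0 ≤ 3 ^ mC * 3 ^ max m1 m0 :=
        mul_le_mul_of_nonneg_left e0 (by positivity)
      have f2 : (3 : ℝ) ^ m0 ≤ 3 ^ mC * 3 ^ max m1 m0 :=
        e0.trans (le_mul_of_one_le_left e3 eC)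
      linarith

theorem thm_Pcs (hA : St_Wta) (hS : St_Sep) : St_Pcs := by
  intro V F μ hμ
  obtain ⟨p1, p2, -⟩ := hA (V → Bool)
  by_cases h : μ ≤ 3 * F.size
  · obtain ⟨m, h1, h2⟩ := Pcs_main hA hS V μ hμ F.size F rfl h
    have h3 : m + 1 ≤ 3 * F.size / μ := (Nat.le_div_iff_mul_le (by omega)).2 h1
    refine p1 _ _ _ _ ?_ (Pcs_mono (Pcs_PP_mono μ (by omega)) h2)
    exact pow_le_pow_right₀ (by norm_num) (by omega)
  · refine p1 _ 1 _ _ (one_le_pow₀ (by norm_num)) (p2 _ _ ?_)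
    exact Pcs_PP_mono μ (Nat.le_add_left _ _) (Pcs_single μ F (by omega))

end Pool.Agent.FRM
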