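import Pool.Agent.FRM.St

/-!
# FRM: a separator of a binary formula
-/

set_option autoImplicit false

namespace Pool.Agent.FRM

theorem thm_Sep : St_Sep := by
  intro V F τ h1
  induction F with
  | tt => intro h; simp [BF.size] at h
  | var v =>
    intro h
    have h2 : τ < 1 := h
    omega
  | not F ih =>
    intro h
    have h2 : τ < F.size := h
    obtain ⟨C, F1, F0, a1, a2, a3, a4, a5⟩ := ih h2
    refine ⟨C, .not F1, .not F0, a1, a2, a3, a4, fun z => ?_⟩
    simp only [BF.eval]
    rw [a5 z]
    by_cases hC : C.eval z = true
    · simp [hC]
    · simp [hC]
  | and A B ihA ihB =>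
    intro h
    have h2 : τ < A.size + B.size := h
    by_cases hA : τ < A.size
    · obtain ⟨C, F1, F0, a1, a2, a3, a4, a5⟩ := ihA hA
      refine ⟨C, .and F1 B, .and F0 B, a1, a2, ?_, ?_, fun z => ?_⟩
      · simp only [BF.size]; omega
      · simp only [BF.size]; omega
      · simp only [BF.eval]
        rw [a5 z]
        by_cases hC : C.eval z = true
        · simp [hC]
        · simp [hC]
    · by_cases hB : τ < B.size
      · obtain ⟨C, F1, F0, a1, a2, a3, a4, a5⟩ := ihB hB
        refine ⟨C, .and A F1, .and A F0, a1, a2, ?_, ?_, fun z => ?_⟩
        · simp only [BF.size]; omega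
        · simp only [BF.size]; omega
        · simp only [BF.eval]
          rw [a5 z]
          by_cases hC : C.eval z = true
          · simp [hC]
          · simp [hC]
      · by_cases hAB : B.size ≤ A.size
        · refine ⟨A, B, .and (.not .tt) B, by omega, by omega, ?_, ?_, fun z => ?_⟩
          · simp only [BF.size]; omega
          · simp only [BF.size]; omega
          · simp only [BF.eval]
            by_cases hC : A.eval z = true
            · simp [hC]
            · simp [hC]
        · refine ⟨B, A, .and (.not .tt) A, by omega, by omega, ?_, ?_, fun z => ?_⟩
          · simp only [BF.size]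
          · simp only [BF.size]; omega
          · simp only [BF.eval]
            by_cases hC : B.eval z = true
            · simp [hC]
            · simp [hC]

end Pool.Agent.FRM
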