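import Pool.Agent.FRM.St

/-!
# FRM, SGN: a product of bits known with error `1 / 8`
-/

set_option autoImplicit false

namespace Pool.Agent.FRM

/-- the terms of the telescoping series -/
noncomputable def Sgn_a (r : ℝ) : ℕ → ℝ
  | 0 => r
  | i + 1 => maj (i + 1) r - maj i r

lemma Sgn_tel (hM : St_Maj) (r : ℝ) (J : ℕ) :
    ∑ i ∈ Finset.range (J + 1), Sgn_a r i = maj J r := by
  induction J with
  | zero => simp [Sgn_a, hM.1]
  | succ J ih =>
    rw [Finset.sum_range_succ, ih, Sgn_a]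
    ring

lemma Sgn_abs (hM : St_Maj) (r : ℝ) (b : Bool) (h0 : 0 ≤ r) (h1 : r ≤ 1)
    (h2 : |r - ind b| ≤ 1 / 8) (i : ℕ) : |Sgn_a r i| ≤ (1 / 2) ^ i := by
  cases i with
  | zero =>
    rw [Sgn_a, pow_zero, abs_of_nonneg h0]
    exact h1
  | succ i =>
    rw [Sgn_a]
    have e1 := hM.2.1 (i + 1) r b h0 h1 h2
    have e2 := hM.2.1 i r b h0 h1 h2
    have e3 : |maj (i + 1) r - maj i r| ≤ |maj (i + 1) r - ind b| + |maj i r - ind b| := by
      rw [abs_sub_comm (maj i r)]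
      exact abs_sub_le _ _ _
    have e4 : (0 : ℝ) < (1 / 2) ^ i := by positivity
    rw [pow_succ] at e1 ⊢
    linarith

lemma Sgn_wt (hA : St_Wta) (hM : St_Maj) (X : Type) (S : Submonoid (X → ℝ)) (B : ℝ)
    (f : X → ℝ) (hB : 1 ≤ B) (hf : Wt (S : Set (X → ℝ)) B f) (i : ℕ) :
    Wt (S : Set (X → ℝ)) ((18 * B ^ 2) ^ (i + 1)) (fun x => Sgn_a (f x) i) := by
  obtain ⟨hmono, -, hadd, hsmul, -, -⟩ := hA X
  cases i with
  | zero =>
    refine hmono _ B _ _ ?_ hf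
    rw [zero_add, pow_one]
    nlinarith
  | succ i =>
    have h1 := hM.2.2 X S B f (i + 1) hB hf
    have h2 := hsmul _ _ (-1) _ (hM.2.2 X S B f i hB hf)
    have h3 := hadd _ _ _ _ _ h1 h2
    refine hmono _ _ _ _ ?_ (by
      have e : (fun x => maj (i + 1) (f x) + -1 * maj i (f x)) =
          fun x => Sgn_a (f x) (i + 1) := by
        funext x
        rw [Sgn_a]
        ring
      rwa [e] at h3)
    rw [abs_neg, abs_one, one_mul]
    have e1 : (3 * B) ^ (2 * (i + 1) + 1) + (3 * B) ^ (2 * i + 1) =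
        (9 * B ^ 2) ^ i * (3 * B * (9 * B ^ 2 + 1)) := by
      have : (9 * B ^ 2) ^ i = (3 * B) ^ (2 * i) := by
        rw [pow_mul]
        congr 1
        ring
      rw [this]
      ring
    have e2 : (18 * B ^ 2) ^ (i + 1 + 1) = (18 * B ^ 2) ^ i * (18 * B ^ 2) ^ 2 := by ring
    rw [e1, e2]
    have e3 : (9 * B ^ 2) ^ i ≤ (18 * B ^ 2) ^ i :=
      pow_le_pow_left₀ (by positivity) (by nlinarith) i
    have e4 : 3 * B * (9 * B ^ 2 + 1) ≤ (18 * B ^ 2) ^ 2 := by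
      have h5 : B ^ 2 ≤ B ^ 4 := pow_le_pow_right₀ hB (by norm_num)
      have h6 : B ^ 3 ≤ B ^ 4 := pow_le_pow_right₀ hB (by norm_num)
      have h7 : B ≤ B ^ 2 := by nlinarith
      nlinarith
    exact mul_le_mul e3 e4 (by positivity) (by positivity)

lemma Sgn_geo (J : ℕ) : ∑ i ∈ Finset.range (J + 1), ((1 : ℝ) / 2) ^ i * (3 / 4) ^ (J - i) ≤
    3 * (3 / 4) ^ J := by
  have h1 : ∀ i ∈ Finset.range (J + 1), ((1 : ℝ) / 2) ^ i * (3 / 4) ^ (J - i) =
      (3 / 4) ^ J * (2 / 3) ^ i := by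
    intro i hi
    have hi' : i ≤ J := by
      have := Finset.mem_range.1 hi
      omega
    have h2 : ((3 : ℝ) / 4) ^ J = (3 / 4) ^ (J - i) * (3 / 4) ^ i := by
      rw [← pow_add, Nat.sub_add_cancel hi']
    rw [h2, mul_assoc, ← mul_pow]
    norm_num
    ring
  rw [Finset.sum_congr rfl h1, ← Finset.mul_sum, geom_sum_eq (by norm_num), mul_comm]
  have h3 : (0 : ℝ) ≤ (2 / 3) ^ (J + 1) := by positivity
  have h4 : (((2 : ℝ) / 3) ^ (J + 1) - 1) / (2 / 3 - 1) ≤ 3 := by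
    rw [div_le_iff_of_neg (by norm_num)]
    linarith
  exact mul_le_mul_of_nonneg_right h4 (by positivity)

lemma Sgn_sum2 (U : ℝ) (hU : 0 ≤ U) (m J : ℕ) :
    ∑ i ∈ Finset.range (J + 1), U ^ (i + 1) * (2 * U) ^ (m + (J - i)) ≤ (2 * U) ^ (m + 1 + J) := by
  have h1 : ∀ i ∈ Finset.range (J + 1), U ^ (i + 1) * (2 * U) ^ (m + (J - i)) =
      U ^ (m + 1 + J) * 2 ^ m * 2 ^ (J - i) := by
    intro i hi
    have hi' : i ≤ J := by
      have := Finset.mem_range.1 hi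
      omega
    have h2 : m + 1 + J = (i + 1) + (m + (J - i)) := by omega
    rw [h2, pow_add U, mul_pow 2 U, pow_add 2]
    ring
  have h3 : ∑ i ∈ Finset.range (J + 1), (2 : ℝ) ^ (J - i) ≤ 2 ^ (J + 1) := by
    have := Finset.sum_range_reflect (fun i => (2 : ℝ) ^ i) (J + 1)
    simp only [Nat.add_sub_cancel] at this
    rw [this, geom_sum_eq (by norm_num)]
    norm_num
  rw [Finset.sum_congr rfl h1, ← Finset.mul_sum]
  calc U ^ (m + 1 + J) * 2 ^ m * ∑ i ∈ Finset.range (J + 1), (2 : ℝ) ^ (J - i)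
      ≤ U ^ (m + 1 + J) * 2 ^ m * 2 ^ (J + 1) :=
        mul_le_mul_of_nonneg_left h3 (by positivity)
    _ = (2 * U) ^ (m + 1 + J) := by
        rw [mul_pow]
        ring

lemma Sgn_main (hA : St_Wta) (hB : St_Wtb) (hM : St_Maj) (X : Type) (S : Submonoid (X → ℝ))
    (B : ℝ) (h1 : 1 ≤ B) : ∀ (m : ℕ) (ρ : Fin m → X → Bool) (r : Fin m → X → ℝ),
    (∀ i, Wt (S : Set (X → ℝ)) B (r i)) → (∀ i x, 0 ≤ r i x ∧ r i x ≤ 1) →
    (∀ i x, |r i x - ind (ρ i x)| ≤ 1 / 8) → ∀ J : ℕ,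
    ∃ q : X → ℝ, Wt (S : Set (X → ℝ)) ((2 * (18 * B ^ 2)) ^ (m + J)) q ∧
      ∀ x, |∏ i, ind (ρ i x) - q x| ≤ (3 ^ m - 1) * (3 / 4) ^ J := by
  have hU : (1 : ℝ) ≤ 18 * B ^ 2 := by nlinarith
  intro m
  induction m with
  | zero =>
    intro ρ r _ _ _ J
    refine ⟨fun _ => 1, (hA X).1 _ _ _ _ ?_ ((hB X S).1 1), fun x => ?_⟩
    · rw [abs_one]
      exact one_le_pow₀ (by linarith)
    · simp
  | succ m ih =>
    intro ρ r hr hr1 hr2 J
    choose Q hQ1 hQ2 using ih (fun i => ρ i.castSucc) (fun i => r i.castSucc)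
      (fun i => hr _) (fun i x => hr1 _ x) (fun i x => hr2 _ x)
    refine ⟨fun x => ∑ i ∈ Finset.range (J + 1), Sgn_a (r (Fin.last m) x) i * Q (J - i) x,
      ?_, fun x => ?_⟩
    · refine (hA X).1 _ _ _ _ (Sgn_sum2 (18 * B ^ 2) (by linarith) m J) ?_
      exact (hA X).2.2.2.2.1 _ _ _ _ _ fun i _ => (hB X S).2.1 _ _ _ _
        (Sgn_wt hA hM X S B _ h1 (hr _) i) (hQ1 (J - i))
    · set P := ∏ i : Fin m, ind (ρ i.castSucc x) with hP
      set R := ind (ρ (Fin.last m) x) with hR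
      set a := Sgn_a (r (Fin.last m) x) with ha
      have hPb : |P| ≤ 1 := by
        rw [hP, Finset.abs_prod]
        refine Finset.prod_le_one (fun i _ => abs_nonneg _) fun i _ => ?_
        unfold ind
        split_ifs <;> simp
      have hR1 : |R - ∑ i ∈ Finset.range (J + 1), a i| ≤ 1 / 4 * (1 / 2) ^ J := by
        rw [ha, Sgn_tel hM, abs_sub_comm]
        exact hM.2.1 J _ _ (hr1 _ x).1 (hr1 _ x).2 (hr2 _ x)
      have hab : ∀ i, |a i| ≤ (1 / 2) ^ i := fun i =>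
        Sgn_abs hM _ _ (hr1 _ x).1 (hr1 _ x).2 (hr2 _ x) i
      have e1 : ∏ i : Fin (m + 1), ind (ρ i x) - ∑ i ∈ Finset.range (J + 1), a i * Q (J - i) x =
          ∑ i ∈ Finset.range (J + 1), a i * (P - Q (J - i) x) +
            (R - ∑ i ∈ Finset.range (J + 1), a i) * P := by
        rw [Fin.prod_univ_castSucc, ← hP, ← hR]
        simp only [mul_sub, Finset.sum_sub_distrib, sub_mul, ← Finset.sum_mul]
        ring
      rw [e1]
      have h3m : (1 : ℝ) ≤ 3 ^ m := one_le_pow₀ (by norm_num)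
      have e2 : |∑ i ∈ Finset.range (J + 1), a i * (P - Q (J - i) x)| ≤
          (3 ^ m - 1) * (3 * (3 / 4) ^ J) := by
        calc |∑ i ∈ Finset.range (J + 1), a i * (P - Q (J - i) x)|
            ≤ ∑ i ∈ Finset.range (J + 1), |a i * (P - Q (J - i) x)| :=
              Finset.abs_sum_le_sum_abs _ _
          _ ≤ ∑ i ∈ Finset.range (J + 1), (3 ^ m - 1) * ((1 / 2) ^ i * (3 / 4) ^ (J - i)) := by
              refine Finset.sum_le_sum fun i _ => ?_
              rw [abs_mul]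
              have := hQ2 (J - i) x
              calc |a i| * |P - Q (J - i) x| ≤ (1 / 2) ^ i * ((3 ^ m - 1) * (3 / 4) ^ (J - i)) :=
                    mul_le_mul (hab i) this (abs_nonneg _) (by positivity)
                _ = _ := by ring
          _ = (3 ^ m - 1) * ∑ i ∈ Finset.range (J + 1), (1 / 2) ^ i * (3 / 4) ^ (J - i) := by
              rw [Finset.mul_sum]
          _ ≤ _ := mul_le_mul_of_nonneg_left (Sgn_geo J) (by linarith)
      have e3 : |(R - ∑ i ∈ Finset.range (J + 1), a i) * P| ≤ 1 / 4 * (1 / 2) ^ J := by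
        rw [abs_mul]
        calc |R - ∑ i ∈ Finset.range (J + 1), a i| * |P| ≤ (1 / 4 * (1 / 2) ^ J) * 1 :=
              mul_le_mul hR1 hPb (abs_nonneg _) (by positivity)
          _ = _ := mul_one _
      have e4 : ((1 : ℝ) / 2) ^ J ≤ (3 / 4) ^ J :=
        pow_le_pow_left₀ (by norm_num) (by norm_num) J
      have e5 : (0 : ℝ) < (3 / 4) ^ J := by positivity
      calc |∑ i ∈ Finset.range (J + 1), a i * (P - Q (J - i) x) +
            (R - ∑ i ∈ Finset.range (J + 1), a i) * P|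
          ≤ (3 ^ m - 1) * (3 * (3 / 4) ^ J) + 1 / 4 * (1 / 2) ^ J :=
            (abs_add_le _ _).trans (add_le_add e2 e3)
        _ ≤ (3 ^ (m + 1) - 1) * (3 / 4) ^ J := by
            rw [pow_succ 3 m]
            nlinarith

/-- a product of `m` bits known with error `1 / 8` -/
theorem thm_Sgn (hA : St_Wta) (hB : St_Wtb) (hM : St_Maj) : St_Sgn := by
  intro X S m ρ r B h1 hr hr1 hr2 J
  obtain ⟨q, hq1, hq2⟩ := Sgn_main hA hB hM X S B h1 m ρ r hr hr1 hr2 J
  refine ⟨q, ?_, fun x => ?_⟩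
  · have e : (36 * B ^ 2) = 2 * (18 * B ^ 2) := by ring
    rwa [e]
  · rw [abs_sub_comm]
    refine (hq2 x).trans (mul_le_mul_of_nonneg_right ?_ (by positivity))
    linarith

end Pool.Agent.FRM
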