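import Pool.Agent.FRM.St

/-!
# FRM, WKA: the averaged walk
-/

set_option autoImplicit false

namespace Pool.Agent.FRM

open Finset

theorem Wka_inner {I : Type} [Fintype I] (p q : EuclideanSpace ℝ I) :
    inner ℝ p q = ∑ i, p i * q i := by
  rw [PiLp.inner_apply]
  refine Finset.sum_congr rfl fun i _ => ?_
  rw [Real.inner_apply]

/-- a reflection -/
theorem Wka_refl {I : Type} [Fintype I] [DecidableEq I] {α β : Type} (u : α → I → ℝ)
    (v : β → I → ℝ) (huv : ∀ a b, ∑ i, u a i * v b i = 0) :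
    ∃ A : I → I → ℝ, (∀ i j, |A i j| ≤ 1) ∧
      (∀ p q : I → ℝ, ∑ i, (∑ j, A i j * p j) * (∑ j, A i j * q j) = ∑ i, p i * q i) ∧
      (∀ a i, ∑ j, A i j * u a j = u a i) ∧ ∀ b i, ∑ j, A i j * v b j = - v b i := by
  set U : Submodule ℝ (EuclideanSpace ℝ I) :=
    Submodule.span ℝ (Set.range fun b => (WithLp.toLp 2 (v b) : EuclideanSpace ℝ I)) with hU
  set T : EuclideanSpace ℝ I ≃ₗᵢ[ℝ] EuclideanSpace ℝ I := Submodule.reflection Uᗮ with hT
  set A : I → I → ℝ := fun i j => T (PiLp.single 2 j (1 : ℝ)) i with hA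
  have happ : ∀ (p : I → ℝ) (i : I), ∑ j, A i j * p j =
      T (WithLp.toLp 2 p : EuclideanSpace ℝ I) i := by
    intro p i
    have h1 : (WithLp.toLp 2 p : EuclideanSpace ℝ I) =
        ∑ j, p j • PiLp.single 2 j (1 : ℝ) := by
      ext k
      simp [Finset.sum_apply, Pi.single_apply]
    rw [h1, map_sum]
    simp only [map_smul]
    simp only [hA, WithLp.ofLp_sum, WithLp.ofLp_smul, Finset.sum_apply, Pi.smul_apply, smul_eq_mul]
    exact Finset.sum_congr rfl fun j _ => mul_comm _ _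
  refine ⟨A, fun i j => ?_, fun p q => ?_, fun a i => ?_, fun b i => ?_⟩
  · have h1 : ‖T (PiLp.single 2 j (1 : ℝ))‖ = 1 := by
      rw [LinearIsometryEquiv.norm_map, PiLp.norm_single]
      simp
    have h2 := PiLp.norm_apply_le (T (PiLp.single 2 j (1 : ℝ))) i
    rw [h1, Real.norm_eq_abs] at h2
    exact h2
  · simp only [happ]
    rw [← Wka_inner, LinearIsometryEquiv.inner_map_map, Wka_inner]
  · rw [happ]
    have h1 : (WithLp.toLp 2 (u a) : EuclideanSpace ℝ I) ∈ Uᗮ := by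
      rw [Submodule.mem_orthogonal]
      intro w hw
      induction hw using Submodule.span_induction with
      | mem w hw =>
        obtain ⟨b, rfl⟩ := hw
        rw [Wka_inner]
        simp only
        rw [← huv a b]
        exact Finset.sum_congr rfl fun i _ => mul_comm _ _
      | zero => rw [inner_zero_left]
      | add w w' _ _ h h' => rw [inner_add_left, h, h', add_zero]
      | smul c w _ h => rw [inner_smul_left, h, mul_zero]
    rw [hT, Submodule.reflection_mem_subspace_eq_self h1]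
  · rw [happ]
    have h1 : (WithLp.toLp 2 (v b) : EuclideanSpace ℝ I) ∈ Uᗮᗮ := by
      refine Submodule.le_orthogonal_orthogonal U ?_
      exact Submodule.subset_span ⟨b, rfl⟩
    rw [hT, Submodule.reflection_mem_subspace_orthogonalComplement_eq_neg h1]
    rfl

section walk

variable {I : Type} [Fintype I]

/-- one step of the walk -/
def Wka_R (A : I → I → ℝ) (sg : I → ℝ) (p : I → ℝ) (i : I) : ℝ := sg i * ∑ j, A i j * p j

theorem Wka_R_inner (A : I → I → ℝ) (sg : I → ℝ) (hsg : ∀ i, sg i * sg i = 1)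
    (hA : ∀ p q : I → ℝ, ∑ i, (∑ j, A i j * p j) * (∑ j, A i j * q j) = ∑ i, p i * q i)
    (p q : I → ℝ) : ∑ i, Wka_R A sg p i * Wka_R A sg q i = ∑ i, p i * q i := by
  rw [← hA p q]
  refine Finset.sum_congr rfl fun i _ => ?_
  unfold Wka_R
  calc sg i * (∑ j, A i j * p j) * (sg i * ∑ j, A i j * q j) =
      (sg i * sg i) * ((∑ j, A i j * p j) * ∑ j, A i j * q j) := by ring
    _ = _ := by rw [hsg, one_mul]

theorem Wka_R_lin (A : I → I → ℝ) (sg : I → ℝ) (p q : I → ℝ) (i : I) :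
    Wka_R A sg (fun i => (p i - q i) / 2) i = (Wka_R A sg p i - Wka_R A sg q i) / 2 := by
  unfold Wka_R
  have h1 : ∑ j, A i j * ((p j - q j) / 2) =
      (∑ j, A i j * p j - ∑ j, A i j * q j) / 2 := by
    rw [← Finset.sum_sub_distrib, Finset.sum_div]
    exact Finset.sum_congr rfl fun j _ => by ring
  rw [h1]
  ring

/-- the walk -/
def Wka_Y (A : I → I → ℝ) (sg : I → ℝ) (p : I → ℝ) : ℕ → I → ℝ
  | 0 => p
  | k + 1 => Wka_R A sg (Wka_Y A sg p k)

variable {A : I → I → ℝ} {sg : I → ℝ}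

theorem Wka_Y_sq (hsg : ∀ i, sg i * sg i = 1)
    (hA : ∀ p q : I → ℝ, ∑ i, (∑ j, A i j * p j) * (∑ j, A i j * q j) = ∑ i, p i * q i)
    (p : I → ℝ) (k : ℕ) : ∑ i, Wka_Y A sg p k i ^ 2 = ∑ i, p i ^ 2 := by
  induction k with
  | zero => rfl
  | succ k ih =>
    rw [← ih]
    simp only [sq]
    exact Wka_R_inner A sg hsg hA _ _

theorem Wka_Y_fix (hsg : ∀ i, sg i * sg i = 1)
    (hA : ∀ p q : I → ℝ, ∑ i, (∑ j, A i j * p j) * (∑ j, A i j * q j) = ∑ i, p i * q i)
    (u p : I → ℝ) (hu : ∀ i, Wka_R A sg u i = u i) (k : ℕ) :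
    ∑ i, u i * Wka_Y A sg p k i = ∑ i, u i * p i := by
  induction k with
  | zero => rfl
  | succ k ih =>
    rw [← ih, ← Wka_R_inner A sg hsg hA u (Wka_Y A sg p k)]
    exact Finset.sum_congr rfl fun i _ => by
      rw [hu i]
      rfl

theorem Wka_Y_tel (v p : I → ℝ) (hv : ∀ i, Wka_R A sg v i = v i - 2 * p i) (k : ℕ) (i : I) :
    Wka_Y A sg p k i = (Wka_Y A sg v k i - Wka_Y A sg v (k + 1) i) / 2 := by
  induction k generalizing i with
  | zero =>
    show p i = (v i - Wka_R A sg v i) / 2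
    rw [hv i]
    ring
  | succ k ih =>
    have h1 : Wka_Y A sg p k = fun i => (Wka_Y A sg v k i - Wka_Y A sg v (k + 1) i) / 2 :=
      funext ih
    show Wka_R A sg (Wka_Y A sg p k) i = _
    rw [h1, Wka_R_lin]
    rfl

end walk

theorem Wka_split {N : ℕ} (g : Option (Fin N × Bool) → ℝ) :
    ∑ i, g i = g none + ∑ j, (g (some (j, true)) + g (some (j, false))) := by
  rw [Fintype.sum_option, Fintype.sum_prod_type]
  congr 1
  exact Finset.sum_congr rfl fun j _ => Fintype.sum_bool _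

/-- the positive vectors -/
noncomputable def Wka_u {N : ℕ} (r : ℝ) (z : Fin N → Bool) (w : Fin N → ℝ) :
    Option (Fin N × Bool) → ℝ
  | none => 1
  | some (j, b) => if z j = b then r⁻¹ * w j else 0

/-- the negative vectors -/
noncomputable def Wka_v {N : ℕ} (r : ℝ) (z : Fin N → Bool) (w : Fin N → ℝ) :
    Option (Fin N × Bool) → ℝ
  | none => 1
  | some (j, b) => if z j = b then 0 else -(r * w j)

/-- the signs -/
noncomputable def Wka_sg {N : ℕ} (z : Fin N → Bool) : Option (Fin N × Bool) → ℝ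
  | none => 1
  | some (j, b) => if z j = b then (1 : ℝ) else -1

/-- the first basis vector -/
noncomputable def Wka_e {N : ℕ} (i : Option (Fin N × Bool)) : ℝ := if i = none then 1 else 0

theorem thm_Wka : St_Wka := by
  intro X N z w f W n hW hn hw hf hbig
  set r : ℝ := Real.sqrt (8 * W) with hr
  have hr2 : r ^ 2 = 8 * W := Real.sq_sqrt (by positivity)
  have hr0 : 0 < r := Real.sqrt_pos.2 (by positivity)
  obtain ⟨A, hA1, hA2, hA3, hA4⟩ := Wka_refl (I := Option (Fin N × Bool))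
    (α := {x // f x = true}) (β := {x // f x = false})
    (fun x => Wka_u r (z x.1) (w x.1)) (fun x => Wka_v r (z x.1) (w x.1)) (by
      rintro ⟨x, hx⟩ ⟨y, hy⟩
      have h1 := hf x y (by rw [hx, hy]; simp)
      rw [Wka_split]
      have h2 : ∀ j, Wka_u r (z x) (w x) (some (j, true)) * Wka_v r (z y) (w y) (some (j, true)) +
          Wka_u r (z x) (w x) (some (j, false)) * Wka_v r (z y) (w y) (some (j, false)) =
          -(if z x j ≠ z y j then w x j * w y j else 0) := by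
        intro j
        unfold Wka_u Wka_v
        cases hzx : z x j <;> cases hzy : z y j <;> simp [hzx, hzy] <;> field_simp
      simp only at h2 ⊢
      rw [Finset.sum_congr rfl fun j _ => h2 j, Finset.sum_neg_distrib, h1]
      simp [Wka_u, Wka_v])
  have hsg : ∀ x i, Wka_sg (z x) i * Wka_sg (z x) i = 1 := by
    intro x i
    rcases i with _ | ⟨j, b⟩
    · simp [Wka_sg]
    · unfold Wka_sg
      by_cases h : z x j = b
      · simp [h]
      · simp [h]
  have hu : ∀ x, f x = true → ∀ i, Wka_R A (Wka_sg (z x)) (Wka_u r (z x) (w x)) i =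
      Wka_u r (z x) (w x) i := by
    intro x hx i
    unfold Wka_R
    rw [hA3 ⟨x, hx⟩ i]
    rcases i with _ | ⟨j, b⟩
    · simp [Wka_sg]
    · unfold Wka_sg Wka_u
      by_cases h : z x j = b
      · simp [h]
      · simp [h]
  have hv : ∀ x, f x = false → ∀ i, Wka_R A (Wka_sg (z x)) (Wka_v r (z x) (w x)) i =
      Wka_v r (z x) (w x) i - 2 * Wka_e i := by
    intro x hx i
    unfold Wka_R
    rw [hA4 ⟨x, hx⟩ i]
    rcases i with _ | ⟨j, b⟩
    · simp [Wka_sg, Wka_v, Wka_e]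
      norm_num
    · unfold Wka_sg Wka_v Wka_e
      by_cases h : z x j = b
      · simp [h]
      · simp [h]
  have hun : ∀ x, ∑ i, Wka_u r (z x) (w x) i ^ 2 ≤ 9 / 8 := by
    intro x
    rw [Wka_split]
    have h2 : ∀ j, Wka_u r (z x) (w x) (some (j, true)) ^ 2 +
        Wka_u r (z x) (w x) (some (j, false)) ^ 2 = (8 * W)⁻¹ * w x j ^ 2 := by
      intro j
      unfold Wka_u
      rw [← hr2]
      cases hzx : z x j <;> simp [hzx] <;> field_simp
    rw [Finset.sum_congr rfl fun j _ => h2 j, ← Finset.mul_sum]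
    have h3 := mul_le_mul_of_nonneg_left (hw x) (show (0 : ℝ) ≤ (8 * W)⁻¹ by positivity)
    have h4 : (8 * W)⁻¹ * W = 1 / 8 := by field_simp
    have h5 : Wka_u r (z x) (w x) none ^ 2 = 1 := by simp [Wka_u]
    rw [h5]
    linarith
  have hvn : ∀ x, ∑ i, Wka_v r (z x) (w x) i ^ 2 ≤ 1 + 8 * W ^ 2 := by
    intro x
    rw [Wka_split]
    have h2 : ∀ j, Wka_v r (z x) (w x) (some (j, true)) ^ 2 +
        Wka_v r (z x) (w x) (some (j, false)) ^ 2 = (8 * W) * w x j ^ 2 := by
      intro j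
      unfold Wka_v
      rw [← hr2]
      cases hzx : z x j <;> simp [hzx] <;> ring
    rw [Finset.sum_congr rfl fun j _ => h2 j, ← Finset.mul_sum]
    have h3 := mul_le_mul_of_nonneg_left (hw x) (show (0 : ℝ) ≤ 8 * W by positivity)
    have h5 : Wka_v r (z x) (w x) none ^ 2 = 1 := by simp [Wka_v]
    rw [h5]
    nlinarith
  have hen : ∑ i, (Wka_e (N := N) i) ^ 2 = 1 := by
    rw [Wka_split]
    simp [Wka_e]
  have hn0 : (0 : ℝ) < n := by exact_mod_cast hn
  refine ⟨A, fun k x => Wka_Y A (Wka_sg (z x)) Wka_e k, hA1, fun x i => rfl, fun k x i => ?_,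
    fun x => ?_, fun x hx => ?_, fun x hx => ?_⟩
  · show Wka_sg (z x) i * _ = _
    rcases i with _ | ⟨j, b⟩ <;> rfl
  · have h1 : ∀ i, ((1 / (n : ℝ)) * ∑ k ∈ Finset.range n, Wka_Y A (Wka_sg (z x)) Wka_e k i) ^ 2 ≤
        (1 / (n : ℝ)) * ∑ k ∈ Finset.range n, Wka_Y A (Wka_sg (z x)) Wka_e k i ^ 2 := by
      intro i
      have h2 := sq_sum_le_card_mul_sum_sq (s := Finset.range n)
        (f := fun k => Wka_Y A (Wka_sg (z x)) Wka_e k i)
      rw [Finset.card_range] at h2
      rw [mul_pow]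
      have h3 := mul_le_mul_of_nonneg_left h2 (show (0 : ℝ) ≤ (1 / (n : ℝ)) ^ 2 by positivity)
      refine h3.trans (le_of_eq ?_)
      field_simp
    refine (Finset.sum_le_sum fun i _ => h1 i).trans ?_
    rw [← Finset.mul_sum, Finset.sum_comm,
      Finset.sum_congr rfl fun k _ => (Wka_Y_sq (hsg x) hA2 Wka_e k).trans hen]
    rw [Finset.sum_const, Finset.card_range, nsmul_eq_mul, mul_one, one_div,
      inv_mul_cancel₀ hn0.ne']
  · -- the value is true
    have h1 : ∑ i, Wka_u r (z x) (w x) i *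
        ((1 / (n : ℝ)) * ∑ k ∈ Finset.range n, Wka_Y A (Wka_sg (z x)) Wka_e k i) = 1 := by
      have h2 : ∀ i, Wka_u r (z x) (w x) i *
          ((1 / (n : ℝ)) * ∑ k ∈ Finset.range n, Wka_Y A (Wka_sg (z x)) Wka_e k i) =
          (1 / (n : ℝ)) * ∑ k ∈ Finset.range n,
            Wka_u r (z x) (w x) i * Wka_Y A (Wka_sg (z x)) Wka_e k i := by
        intro i
        rw [← Finset.mul_sum]
        ring
      rw [Finset.sum_congr rfl fun i _ => h2 i, ← Finset.mul_sum, Finset.sum_comm]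
      have h3 : ∀ k ∈ Finset.range n,
          ∑ i, Wka_u r (z x) (w x) i * Wka_Y A (Wka_sg (z x)) Wka_e k i = 1 := by
        intro k _
        rw [Wka_Y_fix (hsg x) hA2 _ _ (hu x hx) k, Wka_split]
        simp [Wka_u, Wka_e]
      rw [Finset.sum_congr rfl h3, Finset.sum_const, Finset.card_range, nsmul_eq_mul, mul_one,
        one_div, inv_mul_cancel₀ hn0.ne']
    have h2 := Finset.sum_mul_sq_le_sq_mul_sq Finset.univ (Wka_u r (z x) (w x))
      (fun i => (1 / (n : ℝ)) * ∑ k ∈ Finset.range n, Wka_Y A (Wka_sg (z x)) Wka_e k i)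
    rw [h1] at h2
    have h3 := hun x
    have h4 : 0 ≤ ∑ i, ((1 / (n : ℝ)) * ∑ k ∈ Finset.range n,
        Wka_Y A (Wka_sg (z x)) Wka_e k i) ^ 2 := Finset.sum_nonneg fun i _ => sq_nonneg _
    nlinarith
  · -- the value is false
    have h1 : ∀ i, ∑ k ∈ Finset.range n, Wka_Y A (Wka_sg (z x)) Wka_e k i =
        (Wka_v r (z x) (w x) i - Wka_Y A (Wka_sg (z x)) (Wka_v r (z x) (w x)) n i) / 2 := by
      intro i
      rw [Finset.sum_congr rfl fun k _ => Wka_Y_tel _ _ (hv x hx) k i, ← Finset.sum_div,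
        Finset.sum_range_sub' (fun k => Wka_Y A (Wka_sg (z x)) (Wka_v r (z x) (w x)) k i)]
      rfl
    have h2 : ∀ i, ((1 / (n : ℝ)) * ∑ k ∈ Finset.range n,
        Wka_Y A (Wka_sg (z x)) Wka_e k i) ^ 2 ≤
        (1 / (n : ℝ)) ^ 2 * (1 / 2) * (Wka_v r (z x) (w x) i ^ 2 +
          Wka_Y A (Wka_sg (z x)) (Wka_v r (z x) (w x)) n i ^ 2) := by
      intro i
      rw [h1 i, mul_pow, mul_assoc]
      refine mul_le_mul_of_nonneg_left ?_ (by positivity)
      nlinarith [sq_nonneg (Wka_v r (z x) (w x) i +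
        Wka_Y A (Wka_sg (z x)) (Wka_v r (z x) (w x)) n i)]
    refine (Finset.sum_le_sum fun i _ => h2 i).trans ?_
    rw [← Finset.mul_sum, Finset.sum_add_distrib, Wka_Y_sq (hsg x) hA2]
    have h3 := hvn x
    have h4 : (1 / (n : ℝ)) ^ 2 * (1 / 2) * (∑ i, Wka_v r (z x) (w x) i ^ 2 +
        ∑ i, Wka_v r (z x) (w x) i ^ 2) = (∑ i, Wka_v r (z x) (w x) i ^ 2) / (n : ℝ) ^ 2 := by
      field_simp
      ring
    rw [h4, div_le_iff₀ (by positivity)]
    linarith

end Pool.Agent.FRM
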