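import Pool.Agent.FRM.St

/-!
# FRM.Wkb: constant error approximation of a formula
-/

set_option autoImplicit false

namespace Pool.Agent.FRM

theorem Wkb_const {V : Type} (F : BF V) (h : F.size = 0) (z z' : V → Bool) :
    F.eval z = F.eval z' := by
  induction F with
  | tt => rfl
  | var v => simp [BF.size] at h
  | not F ih => simp only [BF.eval, ih h]
  | and F G ihF ihG =>
    simp only [BF.size, Nat.add_eq_zero_iff] at h
    simp only [BF.eval, ihF h.1, ihG h.2]

theorem Wkb_ind_le (b : Bool) : 0 ≤ ind b ∧ ind b ≤ 1 := by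
  cases b <;> simp [ind]

/-- the signs have weight at most 3 -/
theorem Wkb_sign (hA : St_Wta) (hB : St_Wtb) {X V : Type} {N : ℕ} (S : Submonoid (X → ℝ))
    (z : X → V → Bool) (hz : ∀ v, (fun x => ind (z x v)) ∈ S) (lab : Fin N → V)
    (i : Option (Fin N × Bool)) :
    Wt (S : Set (X → ℝ)) 3 (fun x => match i with
      | none => 1
      | some (j, b) => if z x (lab j) = b then (1 : ℝ) else -1) := by
  obtain ⟨hmono, hmem, hadd, hsmul, -, -⟩ := hA X
  obtain ⟨hc, -, -⟩ := hB X S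
  match i with
  | none =>
    have h1 := hc 1
    exact hmono _ _ _ _ (by norm_num) h1
  | some (j, b) =>
    have h1 := hmem S _ (hz (lab j))
    cases b with
    | true =>
      have h2 := hadd _ _ _ _ _ (hsmul _ _ 2 _ h1) (hc (-1))
      have h3 : (fun x => 2 * ind (z x (lab j)) + -1) =
          fun x => if z x (lab j) = true then (1 : ℝ) else -1 := by
        funext x
        cases z x (lab j) <;> norm_num [ind]
      rw [h3] at h2
      exact hmono _ _ _ _ (by norm_num) h2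
    | false =>
      have h2 := hadd _ _ _ _ _ (hsmul _ _ (-2) _ h1) (hc 1)
      have h3 : (fun x => -2 * ind (z x (lab j)) + 1) =
          fun x => if z x (lab j) = false then (1 : ℝ) else -1 := by
        funext x
        cases z x (lab j) <;> norm_num [ind]
      rw [h3] at h2
      exact hmono _ _ _ _ (by norm_num) h2

/-- the walk has small weight -/
theorem Wkb_walk (hA : St_Wta) (hB : St_Wtb) {X V : Type} {N : ℕ} (S : Submonoid (X → ℝ))
    (z : X → V → Bool) (hz : ∀ v, (fun x => ind (z x v)) ∈ S) (lab : Fin N → V)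
    (A : Option (Fin N × Bool) → Option (Fin N × Bool) → ℝ)
    (y : ℕ → X → Option (Fin N × Bool) → ℝ) (hA1 : ∀ i j, |A i j| ≤ 1)
    (hy0 : ∀ x i, y 0 x i = if i = none then 1 else 0)
    (hy1 : ∀ k x i, y (k + 1) x i = (match i with
      | none => 1
      | some (j, b) => if z x (lab j) = b then (1 : ℝ) else -1) * ∑ j, A i j * y k x j)
    (k : ℕ) (i : Option (Fin N × Bool)) :
    Wt (S : Set (X → ℝ)) ((3 * (2 * (N : ℝ) + 1)) ^ k) (fun x => y k x i) := by
  obtain ⟨hmono, hmem, hadd, hsmul, hsum, -⟩ := hA X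
  obtain ⟨hc, hmul, -⟩ := hB X S
  induction k generalizing i with
  | zero =>
    have h1 := hc (if i = none then 1 else 0)
    have h2 : (fun x => y 0 x i) = fun _ => if i = none then (1 : ℝ) else 0 := by
      funext x
      exact hy0 x i
    rw [h2, pow_zero]
    refine hmono _ _ _ _ ?_ h1
    split_ifs <;> simp
  | succ k ih =>
    have h1 := hsum S (Option (Fin N × Bool)) Finset.univ _ _ fun j _ =>
      hsmul S _ (A i j) _ (ih j)
    have h2 := hmul _ _ _ _ (Wkb_sign hA hB S z hz lab i) h1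
    rw [show (fun x => y (k + 1) x i) = _ from funext fun x => hy1 k x i]
    refine hmono _ _ _ _ ?_ h2
    have hpos : (0 : ℝ) ≤ (3 * (2 * (N : ℝ) + 1)) ^ k := by positivity
    have h4 : ∑ j, |A i j| * (3 * (2 * (N : ℝ) + 1)) ^ k ≤
        ∑ _j : Option (Fin N × Bool), (3 * (2 * (N : ℝ) + 1)) ^ k :=
      Finset.sum_le_sum fun j _ => by
        calc |A i j| * (3 * (2 * (N : ℝ) + 1)) ^ k ≤ 1 * (3 * (2 * (N : ℝ) + 1)) ^ k :=
              mul_le_mul_of_nonneg_right (hA1 i j) hpos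
          _ = _ := one_mul _
    rw [Finset.sum_const, Finset.card_univ, Fintype.card_option, Fintype.card_prod,
      Fintype.card_fin, Fintype.card_bool, nsmul_eq_mul] at h4
    push_cast at h4
    calc 3 * ∑ j, |A i j| * (3 * (2 * (N : ℝ) + 1)) ^ k
        ≤ 3 * (((N : ℝ) * 2 + 1) * (3 * (2 * (N : ℝ) + 1)) ^ k) :=
          mul_le_mul_of_nonneg_left h4 (by norm_num)
      _ = (3 * (2 * (N : ℝ) + 1)) ^ (k + 1) := by ring

/-- the numbers -/
theorem Wkb_num (N n : ℕ) (hn : (n : ℝ) ≤ 20 * (Real.sqrt N + 1)) :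
    (2 * (N : ℝ) + 1) * ((3 * (2 * (N : ℝ) + 1)) ^ n) ^ 2 ≤
      Real.exp ((122 : ℕ) * (Real.sqrt N + 1) * Real.log (N + 2)) := by
  have hN : (0 : ℝ) ≤ N := Nat.cast_nonneg N
  have h1 : 2 * (N : ℝ) + 1 ≤ ((N : ℝ) + 2) ^ 2 := by nlinarith
  have h2 : 3 * (2 * (N : ℝ) + 1) ≤ ((N : ℝ) + 2) ^ 3 := by
    nlinarith [pow_nonneg hN 3, pow_nonneg hN 2]
  have h3 : (2 * (N : ℝ) + 1) * ((3 * (2 * (N : ℝ) + 1)) ^ n) ^ 2 ≤
      ((N : ℝ) + 2) ^ 2 * ((((N : ℝ) + 2) ^ 3) ^ n) ^ 2 := by
    gcongr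
  have h4 : ((N : ℝ) + 2) ^ 2 * ((((N : ℝ) + 2) ^ 3) ^ n) ^ 2 = ((N : ℝ) + 2) ^ (2 + 6 * n) := by
    rw [← pow_mul, ← pow_mul, ← pow_add]
    congr 1
    ring
  rw [h4] at h3
  refine h3.trans ?_
  have hp : (0 : ℝ) < (N : ℝ) + 2 := by linarith
  rw [← Real.exp_log hp, ← Real.exp_nat_mul, Real.exp_log hp]
  apply Real.exp_le_exp.2
  have hlog : 0 ≤ Real.log ((N : ℝ) + 2) := Real.log_nonneg (by linarith)
  apply mul_le_mul_of_nonneg_right _ hlog
  push_cast
  have := Real.sqrt_nonneg (N : ℝ)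
  linarith

theorem thm_Wkb (hA : St_Wta) (hB : St_Wtb) (hV : St_Adv) (hW : St_Wka) : St_Wkb := by
  refine ⟨122, by norm_num, ?_⟩
  intro X V S z hz F
  obtain ⟨hmono, hmem, hadd, hsmul, hsum, -⟩ := hA X
  obtain ⟨hc, hmul, hpow⟩ := hB X S
  have hlog : 0 ≤ Real.log ((F.size : ℝ) + 2) :=
    Real.log_nonneg (by have : (0 : ℝ) ≤ F.size := Nat.cast_nonneg _; linarith)
  have hexp : 1 ≤ Real.exp ((122 : ℕ) * (Real.sqrt F.size + 1) * Real.log (F.size + 2)) := by
    apply Real.one_le_exp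
    have := Real.sqrt_nonneg (F.size : ℝ)
    positivity
  rcases Nat.eq_zero_or_pos F.size with h0 | hpos
  · refine ⟨fun _ => ind (F.eval fun _ => false), ?_, fun _ => Wkb_ind_le _, fun x => ?_⟩
    · refine hmono _ _ _ _ ?_ (hc _)
      rw [abs_of_nonneg (Wkb_ind_le _).1]
      exact (Wkb_ind_le _).2.trans hexp
    · rw [Wkb_const F h0 (fun _ => false) (z x), sub_self, abs_zero]
      norm_num
  · obtain ⟨lab, w, hw1, hw2⟩ := hV V F
    obtain ⟨N, hN⟩ : ∃ N, N = F.size := ⟨_, rfl⟩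
    have hNr : (1 : ℝ) ≤ F.size := by exact_mod_cast hpos
    have hs0 : 1 ≤ Real.sqrt F.size := Real.one_le_sqrt.2 hNr
    have hss : Real.sqrt F.size ^ 2 = F.size := Real.sq_sqrt (by linarith)
    set n : ℕ := 9 * Nat.sqrt F.size + 20 with hn
    have hq1 : (Nat.sqrt F.size : ℝ) ≤ Real.sqrt F.size := Real.nat_sqrt_le_real_sqrt
    have hq2 : Real.sqrt F.size ≤ (Nat.sqrt F.size : ℝ) + 1 := Real.real_sqrt_le_nat_sqrt_succ
    have hnr : (n : ℝ) = 9 * (Nat.sqrt F.size : ℝ) + 20 := by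
      rw [hn]
      push_cast
      ring
    have hn1 : 1 ≤ n := by omega
    have hn2 : 8 * (1 + 8 * Real.sqrt F.size ^ 2) ≤ (n : ℝ) ^ 2 := by
      have h1 : 9 * Real.sqrt F.size + 11 ≤ n := by
        rw [hnr]
        linarith
      have h2 : (9 * Real.sqrt F.size + 11) ^ 2 ≤ (n : ℝ) ^ 2 :=
        pow_le_pow_left₀ (by positivity) h1 2
      nlinarith
    have hn3 : (n : ℝ) ≤ 20 * (Real.sqrt F.size + 1) := by
      rw [hnr]
      linarith
    obtain ⟨A, y, hA1, hy0, hy1, hr1, hr2, hr3⟩ := hW X F.size (fun x i => z x (lab i))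
      (fun x => w (z x)) (fun x => F.eval (z x)) (Real.sqrt F.size) n (by linarith) hn1
      (fun x => hw1 (z x)) (fun x y hxy => hw2 (z x) (z y) hxy) hn2
    refine ⟨fun x => ∑ i, ((1 / (n : ℝ)) * ∑ k ∈ Finset.range n, y k x i) ^ 2, ?_, ?_, ?_⟩
    · have hnpos : (0 : ℝ) < n := by exact_mod_cast hn1
      have h1 : ∀ i, Wt (S : Set (X → ℝ)) (((3 * (2 * (F.size : ℝ) + 1)) ^ n) ^ 2)
          (fun x => ((1 / (n : ℝ)) * ∑ k ∈ Finset.range n, y k x i) ^ 2) := by
        intro i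
        refine hpow _ _ 2 ?_
        have h2 := hsmul S _ (1 / (n : ℝ)) _ (hsum S ℕ (Finset.range n) _ _ fun k _ =>
          Wkb_walk hA hB S z hz lab A y hA1 hy0 hy1 k i)
        refine hmono _ _ _ _ ?_ h2
        have hB1 : (1 : ℝ) ≤ 3 * (2 * (F.size : ℝ) + 1) := by linarith
        have h3 : ∑ k ∈ Finset.range n, (3 * (2 * (F.size : ℝ) + 1)) ^ k ≤
            ∑ _k ∈ Finset.range n, (3 * (2 * (F.size : ℝ) + 1)) ^ n :=
          Finset.sum_le_sum fun k hk =>
            pow_le_pow_right₀ hB1 (Finset.mem_range.1 hk).le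
        rw [Finset.sum_const, Finset.card_range, nsmul_eq_mul] at h3
        rw [abs_of_pos (by positivity), one_div, inv_mul_le_iff₀ hnpos]
        exact h3
      have h2 := hsum S (Option (Fin F.size × Bool)) Finset.univ _ _ fun i _ => h1 i
      refine hmono _ _ _ _ ?_ h2
      rw [Finset.sum_const, Finset.card_univ, Fintype.card_option, Fintype.card_prod,
        Fintype.card_fin, Fintype.card_bool, nsmul_eq_mul]
      push_cast
      have h3 := Wkb_num F.size n hn3
      push_cast at h3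
      rw [mul_comm (F.size : ℝ) 2]
      exact h3
    · intro x
      exact ⟨Finset.sum_nonneg fun i _ => sq_nonneg _, hr1 x⟩
    · intro x
      rcases hb : F.eval (z x) with _ | _
      · have h1 := hr3 x hb
        have h2 : (0 : ℝ) ≤ ∑ i, ((1 / (n : ℝ)) * ∑ k ∈ Finset.range n, y k x i) ^ 2 :=
          Finset.sum_nonneg fun i _ => sq_nonneg _
        rw [abs_le]
        simp only [ind, Bool.false_eq_true, if_false, sub_zero]
        constructor <;> linarith
      · have h1 := hr2 x hb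
        have h2 := hr1 x
        rw [abs_le]
        simp only [ind, if_true]
        constructor <;> linarith

end Pool.Agent.FRM
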