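import Pool.Agent.FRM.St

/-!
# FRM, WTA: closure properties of combinations with bounded coefficients
-/

set_option autoImplicit false

namespace Pool.Agent.FRM

theorem Wta_mono {X : Type} {S : Set (X → ℝ)} {B B' : ℝ} {f : X → ℝ} (h : B ≤ B')
    (hf : Wt S B f) : Wt S B' f := by
  obtain ⟨n, c, s, h1, h2, h3⟩ := hf
  exact ⟨n, c, s, h1, h2.trans h, h3⟩

theorem Wta_mem {X : Type} {S : Set (X → ℝ)} {f : X → ℝ} (h : f ∈ S) : Wt S 1 f :=
  ⟨1, fun _ => 1, fun _ => f, fun _ => h, by simp, fun x => by simp⟩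

theorem Wta_zero {X : Type} {S : Set (X → ℝ)} : Wt S 0 (fun _ => (0 : ℝ)) :=
  ⟨0, fun _ => 0, fun i => i.elim0, fun i => i.elim0, by simp, fun x => by simp⟩

theorem Wta_add {X : Type} {S : Set (X → ℝ)} {B B' : ℝ} {f g : X → ℝ} (hf : Wt S B f)
    (hg : Wt S B' g) : Wt S (B + B') (fun x => f x + g x) := by
  obtain ⟨n, c, s, h1, h2, h3⟩ := hf
  obtain ⟨n', c', s', h1', h2', h3'⟩ := hg
  refine ⟨n + n', Fin.append c c', Fin.append s s', fun i => ?_, ?_, fun x => ?_⟩
  · refine Fin.addCases (fun i => ?_) (fun i => ?_) i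
    · rw [Fin.append_left]
      exact h1 i
    · rw [Fin.append_right]
      exact h1' i
  · rw [Fin.sum_univ_add]
    simp only [Fin.append_left, Fin.append_right]
    exact add_le_add h2 h2'
  · change f x + g x = _
    rw [Fin.sum_univ_add, h3, h3']
    simp only [Fin.append_left, Fin.append_right]

theorem Wta_smul {X : Type} {S : Set (X → ℝ)} {B : ℝ} (a : ℝ) {f : X → ℝ} (hf : Wt S B f) :
    Wt S (|a| * B) (fun x => a * f x) := by
  obtain ⟨n, c, s, h1, h2, h3⟩ := hf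
  refine ⟨n, fun i => a * c i, s, h1, ?_, fun x => ?_⟩
  · simp only [abs_mul]
    rw [← Finset.mul_sum]
    exact mul_le_mul_of_nonneg_left h2 (abs_nonneg a)
  · change a * f x = ∑ i, a * c i * s i x
    rw [h3, Finset.mul_sum]
    exact Finset.sum_congr rfl fun i _ => by ring

theorem Wta_sum {X : Type} {S : Set (X → ℝ)} {ι : Type} (s : Finset ι) {B : ι → ℝ}
    {f : ι → X → ℝ} (h : ∀ i ∈ s, Wt S (B i) (f i)) :
    Wt S (∑ i ∈ s, B i) (fun x => ∑ i ∈ s, f i x) := by
  classical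
  induction s using Finset.induction_on with
  | empty =>
    simp only [Finset.sum_empty]
    exact Wta_zero
  | insert i s hi ih =>
    simp only [Finset.sum_insert hi]
    exact Wta_add (h i (Finset.mem_insert_self i s))
      (ih fun j hj => h j (Finset.mem_insert_of_mem hj))

theorem Wta_comp {X : Type} {S S' : Set (X → ℝ)} {B B' : ℝ} {f : X → ℝ}
    (h : ∀ g ∈ S, Wt S' B' g) (hB : 0 ≤ B') (hf : Wt S B f) : Wt S' (B * B') f := by
  obtain ⟨n, c, s, h1, h2, h3⟩ := hf
  have h4 : Wt S' (∑ i ∈ (Finset.univ : Finset (Fin n)), |c i| * B')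
      (fun x => ∑ i ∈ (Finset.univ : Finset (Fin n)), c i * s i x) :=
    Wta_sum Finset.univ fun i _ => Wta_smul (c i) (h (s i) (h1 i))
  have h5 : f = fun x => ∑ i ∈ (Finset.univ : Finset (Fin n)), c i * s i x := funext h3
  rw [h5]
  refine Wta_mono ?_ h4
  rw [← Finset.sum_mul]
  exact mul_le_mul_of_nonneg_right h2 hB

theorem thm_Wta : St_Wta := fun _ =>
  ⟨fun _ _ _ _ h hf => Wta_mono h hf, fun _ _ h => Wta_mem h, fun _ _ _ _ _ hf hg => Wta_add hf hg,
    fun _ _ a _ hf => Wta_smul a hf, fun _ _ s _ _ h => Wta_sum s h,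
    fun _ _ _ _ _ h hB hf => Wta_comp h hB hf⟩

end Pool.Agent.FRM
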