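import Pool.Agent.FRM.St

/-!
# FRM, module Wtb: products and powers of combinations
-/

set_option autoImplicit false

namespace Pool.Agent.FRM

lemma Wtb_const {X : Type} (S : Submonoid (X → ℝ)) (a : ℝ) :
    Wt (S : Set (X → ℝ)) |a| (fun _ => a) := by
  refine ⟨1, fun _ => a, fun _ => 1, fun _ => S.one_mem, ?_, fun x => ?_⟩
  · simp
  · simp

lemma Wtb_nonneg {X : Type} {S : Set (X → ℝ)} {B : ℝ} {f : X → ℝ} (h : Wt S B f) : 0 ≤ B := by
  obtain ⟨n, c, s, -, h2, -⟩ := h
  exact (Finset.sum_nonneg fun i _ => abs_nonneg (c i)).trans h2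

/-- the product with an element of `S` -/
lemma Wtb_mem_mul {X : Type} (S : Submonoid (X → ℝ)) {B : ℝ} {g t : X → ℝ} (ht : t ∈ S)
    (h : Wt (S : Set (X → ℝ)) B g) : Wt (S : Set (X → ℝ)) B (fun x => t x * g x) := by
  obtain ⟨n, c, s, h1, h2, h3⟩ := h
  refine ⟨n, c, fun i => t * s i, fun i => S.mul_mem ht (h1 i), h2, fun x => ?_⟩
  show t x * g x = ∑ i, c i * (t * s i) x
  rw [h3, Finset.mul_sum]
  refine Finset.sum_congr rfl fun i _ => ?_
  rw [Pi.mul_apply]
  ring

theorem thm_Wtb (hA : St_Wta) : St_Wtb := by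
  intro X S
  obtain ⟨hmono, -, -, hsmul, hsum, -⟩ := hA X
  have hmul : ∀ (B B' : ℝ) (f g : X → ℝ), Wt (S : Set (X → ℝ)) B f →
      Wt (S : Set (X → ℝ)) B' g → Wt (S : Set (X → ℝ)) (B * B') (fun x => f x * g x) := by
    intro B B' f g hf hg
    have hB' := Wtb_nonneg hg
    obtain ⟨n, c, s, h1, h2, h3⟩ := hf
    have h4 := hsum (S : Set (X → ℝ)) (Fin n) Finset.univ (fun i => |c i| * B')
      (fun i x => c i * (s i x * g x)) fun i _ => hsmul _ _ (c i) _ (Wtb_mem_mul S (h1 i) hg)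
    have h5 : (fun x => ∑ i, c i * (s i x * g x)) = fun x => f x * g x := by
      funext x
      rw [h3, Finset.sum_mul]
      exact Finset.sum_congr rfl fun i _ => by ring
    rw [h5, ← Finset.sum_mul] at h4
    exact hmono _ _ _ _ (mul_le_mul_of_nonneg_right h2 hB') h4
  refine ⟨Wtb_const S, hmul, fun B f k hf => ?_⟩
  induction k with
  | zero =>
    have h := Wtb_const S 1
    rw [abs_one] at h
    simpa using h
  | succ k ih =>
    have h := hmul _ _ _ _ ih hf
    simpa only [pow_succ] using h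

end Pool.Agent.FRM
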