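import Pool.Agent.FRM.Adv
import Pool.Agent.FRM.Apx
import Pool.Agent.FRM.Maj
import Pool.Agent.FRM.Pcs
import Pool.Agent.FRM.Sep
import Pool.Agent.FRM.Sgn
import Pool.Agent.FRM.Wka
import Pool.Agent.FRM.Wkb
import Pool.Agent.FRM.Wta
import Pool.Agent.FRM.Wtb

/-!
# FRM: polynomial approximation of formulas, without hypotheses
-/

set_option autoImplicit false

namespace Pool.Agent.FRM

theorem all_Wtb : St_Wtb := thm_Wtb thm_Wta

theorem all_Wkb : St_Wkb := thm_Wkb thm_Wta all_Wtb thm_Adv thm_Wka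

theorem all_Sgn : St_Sgn := thm_Sgn thm_Wta all_Wtb (thm_Maj thm_Wta all_Wtb)

/-- every formula of size `N` is approximated with error `2 ^ (-L)` by a combination of weight
`exp (C (sqrt (N L) + L + 1) log (N + 2))` -/
theorem all_Apx : St_Apx :=
  thm_Apx thm_Wta all_Wtb all_Wkb (thm_Pcs thm_Wta thm_Sep) all_Sgn

end Pool.Agent.FRM
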