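import Pool.Agent.FRM.StV

/-!
# FRM: resampling of the chosen cells
-/

set_option autoImplicit false

namespace Pool.Agent.FRM

open Finset

theorem AvI_involutive {V J : Type} {q : ℕ} (own : V → Option (Fin q × J))
    (cell : Fin q × J → V) (h1 : ∀ u, own (cell u) = some u)
    (h2 : ∀ v u, own v = some u → cell u = v) :
    Function.Involutive (fun p : (V → Bool) × (Fin q → J → Bool) =>
      (em own p.1 p.2, fun i k => p.1 (cell (i, k)))) := by
  rintro ⟨x, y⟩
  apply Prod.ext
  · funext v
    show em own (em own x y) (fun i k => x (cell (i, k))) v = x v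
    rcases h : own v with _ | u
    · simp only [em, h]
    · simp only [em, h]
      rw [← h2 v u h]
  · funext i k
    show em own x y (cell (i, k)) = y i k
    simp only [em, h1]

theorem AvI_resample {V : Type} [Fintype V] [DecidableEq V] {q n : ℕ}
    (own : V → Option (Fin q × Fin n))
    (cell : Fin q × Fin n → V) (h1 : ∀ u, own (cell u) = some u)
    (h2 : ∀ v u, own v = some u → cell u = v) (Ψ : (V → Bool) → ℝ) :
    (2 : ℝ) ^ (q * n) * ∑ x, Ψ x = ∑ x, ∑ y : Fin q → Fin n → Bool, Ψ (em own x y) := by
  have e1 : ∑ x, ∑ y : Fin q → Fin n → Bool, Ψ (em own x y) =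
      ∑ p : (V → Bool) × (Fin q → Fin n → Bool), Ψ (em own p.1 p.2) := by
    rw [Fintype.sum_prod_type]
  have e2 : ∑ p : (V → Bool) × (Fin q → Fin n → Bool), Ψ (em own p.1 p.2) =
      ∑ p : (V → Bool) × (Fin q → Fin n → Bool), Ψ p.1 :=
    Equiv.sum_comp (AvI_involutive own cell h1 h2).toPerm
      (fun p : (V → Bool) × (Fin q → Fin n → Bool) => Ψ p.1)
  rw [e1, e2, Fintype.sum_prod_type, Finset.mul_sum]
  refine Finset.sum_congr rfl fun x _ => ?_
  show (2 : ℝ) ^ (q * n) * Ψ x = ∑ _y : Fin q → Fin n → Bool, Ψ x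
  rw [Finset.sum_const, Finset.card_univ, nsmul_eq_mul]
  congr 1
  rw [Fintype.card_fun, Fintype.card_fun, Fintype.card_fin, Fintype.card_fin, Fintype.card_bool,
    ← pow_mul, mul_comm n q]
  push_cast
  rfl

/-- the sign of the number of the rows with majority -/
theorem AvI_sign {a b : ℕ} (x : Fin a × Fin b → Bool) :
    (-1 : ℝ) ^ rws x = ∏ j : Fin a,
      if b ≤ 2 * (univ.filter fun c : Fin b => x (j, c) = true).card then (-1 : ℝ) else 1 := by
  rw [Finset.prod_ite, Finset.prod_const, Finset.prod_const_one, mul_one]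
  rfl

open Classical in
/-- the number of ones in a row -/
theorem AvI_count {b q : ℕ} (Ql : Fin q → Fin b) (hQ : Function.Injective Ql) (x : Fin b → Bool) :
    (univ.filter fun c => x c = true).card =
      (univ.filter fun c => (∀ i, Ql i ≠ c) ∧ x c = true).card +
        (univ.filter fun i => x (Ql i) = true).card := by
  have h1 : (univ.filter fun i => x (Ql i) = true).card =
      (univ.filter fun c => ¬ (∀ i, Ql i ≠ c) ∧ x c = true).card := by
    rw [← Finset.card_image_of_injective _ hQ]
    congr 1
    ext c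
    simp only [mem_image, mem_filter, mem_univ, true_and]
    constructor
    · rintro ⟨i, hi, rfl⟩
      exact ⟨fun h => h i rfl, hi⟩
    · rintro ⟨h, hc⟩
      push Not at h
      obtain ⟨i, rfl⟩ := h
      exact ⟨i, hc, rfl⟩
  rw [h1, ← Finset.card_union_of_disjoint]
  · congr 1
    ext c
    simp only [mem_union, mem_filter, mem_univ, true_and]
    tauto
  · rw [Finset.disjoint_left]
    intro c h2 h3
    exact (mem_filter.mp h3).2.1 (mem_filter.mp h2).2.1

open Classical in
/-- the majority of a row with chosen cells -/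
theorem AvI_maj {b q : ℕ} (Ql : Fin q → Fin b) (hQ : Function.Injective Ql) (x : Fin b → Bool)
    (h : (univ.filter fun c => (∀ i, Ql i ≠ c) ∧ x c = true).card + q = (b + 1) / 2) :
    b ≤ 2 * (univ.filter fun c => x c = true).card ↔ ∀ i, x (Ql i) = true := by
  rw [AvI_count Ql hQ x]
  have h1 : (univ.filter fun i : Fin q => x (Ql i) = true).card ≤ q := by
    have := Finset.card_filter_le (univ : Finset (Fin q)) (fun i => x (Ql i) = true)
    rwa [Finset.card_univ, Fintype.card_fin] at this
  constructor
  · intro h2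
    have h3 : (univ.filter fun i : Fin q => x (Ql i) = true).card = q := by omega
    have h4 : (univ.filter fun i : Fin q => x (Ql i) = true) = univ := by
      apply Finset.eq_univ_of_card
      rw [Fintype.card_fin]
      exact h3
    intro i
    have h5 : i ∈ (univ.filter fun i : Fin q => x (Ql i) = true) := by
      rw [h4]
      exact mem_univ i
    exact (mem_filter.mp h5).2
  · intro h2
    have h3 : (univ.filter fun i : Fin q => x (Ql i) = true) = univ := by
      rw [Finset.filter_eq_self]
      exact fun i _ => h2 i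
    rw [h3, Finset.card_univ, Fintype.card_fin]
    omega

open Classical in
/-- the set of the rows in `J` -/
noncomputable def AvI_J {a b : ℕ} (q : ℕ) (L : Fin a × Fin b → Bool)
    (Q : (Fin b → Bool) → Fin q → Fin b) (x : Fin a × Fin b → Bool) : Finset (Fin a) :=
  univ.filter fun j : Fin a => RowJ q Q (fun c => L (j, c)) (fun c => x (j, c))

open Classical in
/-- the sum over the inputs with a fixed set `J` -/
theorem AvI_fix {a b q n : ℕ} (L : Fin a × Fin b → Bool)
    (Q : (Fin b → Bool) → Fin q → Fin b) (F : (Fin a × Fin b → Bool) → ℝ)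
    (A : (Fin a × Fin b → Bool) → Prop) (β : ℝ) (hβ : 0 ≤ β)
    (hQ : ∀ l : Fin b → Bool, q ≤ (univ.filter fun c => l c = true).card →
      Function.Injective (Q l) ∧ ∀ i, l (Q l i) = true)
    (hA : ∀ x x' : Fin a × Fin b → Bool, (∀ v, L v = false → x v = x' v) → A x → A x')
    (hF : ∀ x, A x → ∀ own : Fin a × Fin b → Option (Fin q × Fin n),
      (∀ v, own v ≠ none → L v = true) →
      |∑ y : Fin q → Fin n → Bool,
        F (em own x y) * ∏ k, (if ∀ i, y i k = true then (-1 : ℝ) else 1)| ≤ β * 2 ^ (q * n))
    (J : Finset (Fin a)) (hJ : n ≤ J.card) :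
    |∑ x : Fin a × Fin b → Bool, if (A x ∧ AvI_J q L Q x = J) then F x * (-1) ^ rws x else 0| ≤
      β * (univ.filter fun x : Fin a × Fin b → Bool => AvI_J q L Q x = J).card := by
  by_cases hex : ∃ x0, AvI_J q L Q x0 = J
  swap
  · have h1 : ∑ x : Fin a × Fin b → Bool,
        (if (A x ∧ AvI_J q L Q x = J) then F x * (-1) ^ rws x else 0) = 0 := by
      refine Finset.sum_eq_zero fun x _ => ?_
      rw [if_neg]
      exact fun h => hex ⟨x, h.2⟩
    rw [h1, abs_zero]
    positivity
  obtain ⟨x0, hx0⟩ := hex
  have hrow : ∀ j ∈ J, q ≤ (univ.filter fun c => L (j, c) = true).card := by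
    intro j hj
    rw [← hx0] at hj
    exact (mem_filter.mp hj).2.1
  -- the chosen rows
  obtain ⟨ψ, hψ, hψJ⟩ : ∃ ψ : Fin n → Fin a, Function.Injective ψ ∧ ∀ k, ψ k ∈ J :=
    ⟨J.orderEmbOfCardLe hJ, (J.orderEmbOfCardLe hJ).injective, fun k =>
      J.orderEmbOfCardLe_mem hJ k⟩
  let Qr : Fin a → Fin q → Fin b := fun j => Q (fun c => L (j, c))
  have hQr : ∀ k, Function.Injective (Qr (ψ k)) ∧ ∀ i, L (ψ k, Qr (ψ k) i) = true :=
    fun k => hQ _ (hrow _ (hψJ k))
  let cell : Fin q × Fin n → Fin a × Fin b := fun u => (ψ u.2, Qr (ψ u.2) u.1)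
  have hcell : Function.Injective cell := by
    rintro ⟨i, k⟩ ⟨i', k'⟩ h
    have e1 : ψ k = ψ k' := congrArg Prod.fst h
    have e2 : k = k' := hψ e1
    subst e2
    have e3 : Qr (ψ k) i = Qr (ψ k) i' := congrArg Prod.snd h
    rw [(hQr k).1 e3]
  let own : Fin a × Fin b → Option (Fin q × Fin n) := fun v =>
    if h : ∃ u, cell u = v then some h.choose else none
  have h1 : ∀ u, own (cell u) = some u := by
    intro u
    have h : ∃ u', cell u' = cell u := ⟨u, rfl⟩
    show (if h : ∃ u', cell u' = cell u then some h.choose else none) = some u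
    rw [dif_pos h, hcell h.choose_spec]
  have h2 : ∀ v u, own v = some u → cell u = v := by
    intro v u hv
    by_cases h : ∃ u', cell u' = v
    · have hv' : (if h : ∃ u', cell u' = v then some h.choose else none) = some u := hv
      rw [dif_pos h, Option.some.injEq] at hv'
      rw [← hv']
      exact h.choose_spec
    · have hv' : (if h : ∃ u', cell u' = v then some h.choose else none) = some u := hv
      rw [dif_neg h] at hv'
      exact absurd hv' (by simp)
  have hown : ∀ v, own v ≠ none → L v = true := by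
    intro v hv
    obtain ⟨u, hu⟩ := Option.ne_none_iff_exists'.mp hv
    rw [← h2 v u hu]
    exact (hQr u.2).2 u.1
  have hem : ∀ x y v, own v = none → em own x y v = x v := by
    intro x y v hv
    simp only [em, hv]
  have hemc : ∀ x (y : Fin q → Fin n → Bool) i k, em own x y (ψ k, Qr (ψ k) i) = y i k := by
    intro x y i k
    have h3 : own (ψ k, Qr (ψ k) i) = some (i, k) := h1 (i, k)
    simp only [em, h3]
  -- cells which are not chosen
  have hnone : ∀ j c, (∀ i, Qr j i ≠ c) → own (j, c) = none := by
    intro j c hc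
    by_contra h
    obtain ⟨u, hu⟩ := Option.ne_none_iff_exists'.mp h
    have h3 := h2 _ _ hu
    have e1 : ψ u.2 = j := congrArg Prod.fst h3
    have e2 : Qr (ψ u.2) u.1 = c := congrArg Prod.snd h3
    rw [e1] at e2
    exact hc u.1 e2
  have hnone' : ∀ j c, (∀ k, ψ k ≠ j) → own (j, c) = none := by
    intro j c hc
    by_contra h
    obtain ⟨u, hu⟩ := Option.ne_none_iff_exists'.mp h
    exact hc u.2 (congrArg Prod.fst (h2 _ _ hu))
  -- the set of rows does not change
  have hRow : ∀ x y j, (univ.filter fun c => (∀ i, Qr j i ≠ c) ∧ em own x y (j, c) = true) =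
      (univ.filter fun c => (∀ i, Qr j i ≠ c) ∧ x (j, c) = true) := by
    intro x y j
    ext c
    simp only [mem_filter, mem_univ, true_and]
    constructor
    · rintro ⟨h3, h4⟩
      rw [hem x y _ (hnone j c h3)] at h4
      exact ⟨h3, h4⟩
    · rintro ⟨h3, h4⟩
      refine ⟨h3, ?_⟩
      rw [hem x y _ (hnone j c h3)]
      exact h4
  have hJem : ∀ x y, AvI_J q L Q (em own x y) = AvI_J q L Q x := by
    intro x y
    unfold AvI_J
    ext j
    simp only [mem_filter, mem_univ, true_and, RowJ]
    have h3 := hRow x y j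
    rw [h3]
  have hAem : ∀ x y, A (em own x y) ↔ A x := by
    intro x y
    have h3 : ∀ v, L v = false → em own x y v = x v := by
      intro v hv
      apply hem
      by_contra h
      rw [hown v h] at hv
      exact absurd hv (by simp)
    exact ⟨hA _ _ h3, hA _ _ fun v hv => (h3 v hv).symm⟩
  -- the sign
  have hsign : ∀ x, AvI_J q L Q x = J → ∃ s : ℝ, |s| = 1 ∧ ∀ y : Fin q → Fin n → Bool,
      (-1 : ℝ) ^ rws (em own x y) = s * ∏ k, (if ∀ i, y i k = true then (-1 : ℝ) else 1) := by
    intro x hx
    refine ⟨∏ j ∈ (univ.image ψ)ᶜ,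
      if b ≤ 2 * (univ.filter fun c : Fin b => x (j, c) = true).card then (-1 : ℝ) else 1, ?_, ?_⟩
    · rw [Finset.abs_prod]
      refine Finset.prod_eq_one fun j _ => ?_
      split_ifs
      · rw [abs_neg, abs_one]
      · exact abs_one
    · intro y
      rw [AvI_sign, ← Finset.prod_compl_mul_prod (univ.image ψ),
        Finset.prod_image (fun k _ k' _ h => hψ h)]
      congr 1
      · refine Finset.prod_congr rfl fun j hj => ?_
        have h3 : ∀ k, ψ k ≠ j := by
          intro k hk
          rw [Finset.mem_compl] at hj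
          exact hj (Finset.mem_image.mpr ⟨k, mem_univ k, hk⟩)
        have h4 : (univ.filter fun c : Fin b => em own x y (j, c) = true) =
            (univ.filter fun c : Fin b => x (j, c) = true) := by
          refine Finset.filter_congr fun c _ => ?_
          rw [hem x y _ (hnone' j c h3)]
        rw [h4]
      · refine Finset.prod_congr rfl fun k _ => ?_
        have h3 : (univ.filter fun c => (∀ i, Qr (ψ k) i ≠ c) ∧
            em own x y (ψ k, c) = true).card + q = (b + 1) / 2 := by
          rw [hRow x y (ψ k)]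
          have h4 : ψ k ∈ AvI_J q L Q x := by
            rw [hx]
            exact hψJ k
          exact (mem_filter.mp h4).2.2
        have h5 := AvI_maj (Qr (ψ k)) (hQr k).1 (fun c => em own x y (ψ k, c)) h3
        have h6 : (∀ i, em own x y (ψ k, Qr (ψ k) i) = true) ↔ ∀ i, y i k = true :=
          forall_congr' fun i => by rw [hemc x y i k]
        rw [h6] at h5
        exact if_congr h5 rfl rfl
  -- the resampling
  have h3 := AvI_resample own cell h1 h2
    (fun x => if (A x ∧ AvI_J q L Q x = J) then F x * (-1) ^ rws x else 0)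
  have h4 : ∀ x, |∑ y : Fin q → Fin n → Bool,
      (if (A (em own x y) ∧ AvI_J q L Q (em own x y) = J) then
        F (em own x y) * (-1) ^ rws (em own x y) else 0)| ≤
      if AvI_J q L Q x = J then β * 2 ^ (q * n) else 0 := by
    intro x
    by_cases hx : A x ∧ AvI_J q L Q x = J
    · rw [if_pos hx.2]
      obtain ⟨s, hs, hsx⟩ := hsign x hx.2
      have h5 : ∀ y : Fin q → Fin n → Bool,
          (if (A (em own x y) ∧ AvI_J q L Q (em own x y) = J) then
            F (em own x y) * (-1) ^ rws (em own x y) else 0) =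
          s * (F (em own x y) * ∏ k, (if ∀ i, y i k = true then (-1 : ℝ) else 1)) := by
        intro y
        rw [if_pos ⟨(hAem x y).mpr hx.1, (hJem x y).trans hx.2⟩, hsx y]
        ring
      rw [Finset.sum_congr rfl fun y _ => h5 y, ← Finset.mul_sum, abs_mul, hs, one_mul]
      exact hF x hx.1 own hown
    · have h5 : ∑ y : Fin q → Fin n → Bool,
          (if (A (em own x y) ∧ AvI_J q L Q (em own x y) = J) then
            F (em own x y) * (-1) ^ rws (em own x y) else 0) = 0 := by
        refine Finset.sum_eq_zero fun y _ => ?_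
        rw [if_neg]
        rw [hAem x y, hJem x y]
        exact hx
      rw [h5, abs_zero]
      split_ifs
      · positivity
      · exact le_rfl
  have h5 : (2 : ℝ) ^ (q * n) * |∑ x : Fin a × Fin b → Bool,
      if (A x ∧ AvI_J q L Q x = J) then F x * (-1) ^ rws x else 0| ≤
      2 ^ (q * n) *
        (β * (univ.filter fun x : Fin a × Fin b → Bool => AvI_J q L Q x = J).card) := by
    have h6 : (2 : ℝ) ^ (q * n) * |∑ x : Fin a × Fin b → Bool,
        if (A x ∧ AvI_J q L Q x = J) then F x * (-1) ^ rws x else 0| =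
        |(2 : ℝ) ^ (q * n) * ∑ x : Fin a × Fin b → Bool,
        if (A x ∧ AvI_J q L Q x = J) then F x * (-1) ^ rws x else 0| := by
      rw [abs_mul, abs_of_pos (by positivity : (0 : ℝ) < 2 ^ (q * n))]
    rw [h6, h3]
    refine (Finset.abs_sum_le_sum_abs _ _).trans ?_
    refine (Finset.sum_le_sum fun x _ => h4 x).trans (le_of_eq ?_)
    rw [← Finset.sum_filter, Finset.sum_const, nsmul_eq_mul]
    ring
  exact le_of_mul_le_mul_left h5 (by positivity)

/-- **AVI.** Resampling -/
theorem thm_AvI : St_AvI := by
  classical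
  intro a b q n L Q F A β hβ _ hQ hA hF
  have key := AvI_fix L Q F A β hβ hQ hA hF
  have h1 : ∀ x : Fin a × Fin b → Bool, (if (A x ∧ n ≤ (univ.filter fun j : Fin a =>
      RowJ q Q (fun c => L (j, c)) (fun c => x (j, c))).card) then F x * (-1) ^ rws x else 0) =
      ∑ J ∈ univ.filter (fun J : Finset (Fin a) => n ≤ J.card),
        if (A x ∧ AvI_J q L Q x = J) then F x * (-1) ^ rws x else 0 := by
    intro x
    have e : (univ.filter fun j : Fin a =>
      RowJ q Q (fun c => L (j, c)) (fun c => x (j, c))) = AvI_J q L Q x := by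
      unfold AvI_J
      ext j
      simp only [mem_filter]
    rw [e]
    by_cases hA' : A x
    · by_cases hn : n ≤ (AvI_J q L Q x).card
      · rw [if_pos ⟨hA', hn⟩, Finset.sum_eq_single (AvI_J q L Q x)]
        · rw [if_pos ⟨hA', rfl⟩]
        · intro J _ hJ
          rw [if_neg fun h => hJ h.2.symm]
        · intro h
          exact (h (mem_filter.mpr ⟨mem_univ _, hn⟩)).elim
      · rw [if_neg fun h => hn h.2]
        symm
        refine Finset.sum_eq_zero fun J hJ => ?_
        rw [if_neg]
        rintro ⟨-, h⟩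
        rw [h] at hn
        exact hn (mem_filter.mp hJ).2
    · rw [if_neg fun h => hA' h.1]
      symm
      refine Finset.sum_eq_zero fun J _ => ?_
      rw [if_neg fun h => hA' h.1]
  have h2 : ∑ x : Fin a × Fin b → Bool, (if (A x ∧ n ≤ (univ.filter fun j : Fin a =>
      RowJ q Q (fun c => L (j, c)) (fun c => x (j, c))).card) then F x * (-1) ^ rws x else 0) =
      ∑ J ∈ univ.filter (fun J : Finset (Fin a) => n ≤ J.card), ∑ x : Fin a × Fin b → Bool,
        if (A x ∧ AvI_J q L Q x = J) then F x * (-1) ^ rws x else 0 := by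
    rw [Finset.sum_congr rfl fun x _ => h1 x, Finset.sum_comm]
  have h3 : (∑ J ∈ univ.filter (fun J : Finset (Fin a) => n ≤ J.card),
      (univ.filter fun x : Fin a × Fin b → Bool => AvI_J q L Q x = J).card) ≤ 2 ^ (a * b) := by
    have h4 : (∑ J : Finset (Fin a),
        (univ.filter fun x : Fin a × Fin b → Bool => AvI_J q L Q x = J).card) = 2 ^ (a * b) := by
      rw [← Finset.card_eq_sum_card_fiberwise (f := AvI_J q L Q) (fun x _ => mem_univ _),
        Finset.card_univ, Fintype.card_fun, Fintype.card_bool, Fintype.card_prod,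
        Fintype.card_fin, Fintype.card_fin]
    rw [← h4]
    exact Finset.sum_le_sum_of_subset (Finset.filter_subset _ _)
  have h5 : |∑ x : Fin a × Fin b → Bool, (if (A x ∧ n ≤ (univ.filter fun j : Fin a =>
      RowJ q Q (fun c => L (j, c)) (fun c => x (j, c))).card) then F x * (-1) ^ rws x else 0)| ≤
      β * 2 ^ (a * b) := by
    rw [h2]
    refine (Finset.abs_sum_le_sum_abs _ _).trans ?_
    refine (Finset.sum_le_sum fun J hJ => key J (mem_filter.mp hJ).2).trans ?_
    rw [← Finset.mul_sum]
    refine mul_le_mul_of_nonneg_left ?_ hβ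
    exact_mod_cast h3
  exact h5

end Pool.Agent.FRM
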