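import Pool.Agent.FRM.StV

/-!
# FRM: independent rows (AvP)
-/

set_option autoImplicit false

namespace Pool.Agent.FRM

open Finset

private lemma AvP_pw_nonneg {ι : Type} [Fintype ι] {p : ℝ} (h0 : 0 ≤ p) (h1 : p ≤ 1)
    (l : ι → Bool) : 0 ≤ pw p l := by
  refine Finset.prod_nonneg fun i _ => ?_
  split_ifs
  · exact h0
  · linarith

private lemma AvP_pw_sum (b : ℕ) (p : ℝ) : ∑ l : Fin b → Bool, pw p l = 1 := by
  have h := Fintype.sum_pow (fun c : Bool => if c = true then p else 1 - p) b
  have h1 : (∑ c : Bool, if c = true then p else 1 - p) = 1 := by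
    rw [Fintype.sum_bool]; simp
  rw [h1, one_pow] at h
  exact h.symm

private lemma AvP_pw_prod {a b : ℕ} (p : ℝ) (L : Fin a × Fin b → Bool) :
    pw p L = ∏ j : Fin a, pw p (fun c => L (j, c)) := by
  simp only [pw]
  rw [Fintype.prod_prod_type]

/-- pairs of matrices and sequences of pairs of rows -/
private def AvP_e (a b : ℕ) : (Fin a × Fin b → Bool) × (Fin a × Fin b → Bool) ≃
    (Fin a → (Fin b → Bool) × (Fin b → Bool)) where
  toFun LX := fun j => (fun c => LX.1 (j, c), fun c => LX.2 (j, c))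
  invFun f := (fun v => (f v.1).1 v.2, fun v => (f v.1).2 v.2)
  left_inv _ := rfl
  right_inv _ := rfl

open Classical in
/-- **AVP.** Independent rows. -/
theorem thm_AvP : St_AvP := by
  intro a b n p P R h0 h1 hP
  let w : (Fin b → Bool) → (Fin b → Bool) → ℝ := fun l x => pw p l * (if R l x then 1 / 2 else 1)
  have hw0 : ∀ l x, 0 ≤ w l x := fun l x => by
    refine mul_nonneg (AvP_pw_nonneg h0 h1 l) ?_
    split_ifs <;> norm_num
  -- the product formula
  have hprod : ∑ L : Fin a × Fin b → Bool, ∑ x : Fin a × Fin b → Bool,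
      ∏ j : Fin a, w (fun c => L (j, c)) (fun c => x (j, c)) = (∑ l, ∑ x, w l x) ^ a := by
    have e1 : ∑ l, ∑ x, w l x = ∑ lx : (Fin b → Bool) × (Fin b → Bool), w lx.1 lx.2 :=
      (Fintype.sum_prod_type' w).symm
    rw [e1, Fintype.sum_pow, ← (AvP_e a b).sum_comp]
    exact (Fintype.sum_prod_type' (fun L x : Fin a × Fin b → Bool =>
      ∏ j : Fin a, w (fun c => L (j, c)) (fun c => x (j, c)))).symm
  -- one row
  have hone : ∑ l, ∑ x, w l x ≤ 2 ^ b * Real.exp (-(P / 2)) := by
    have e1 : ∀ l x, w l x = pw p l - 1 / 2 * (if R l x then pw p l else 0) := by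
      intro l x
      simp only [w]
      split_ifs <;> ring
    have e2 : ∑ l : Fin b → Bool, ∑ x : Fin b → Bool, w l x =
        2 ^ b - 1 / 2 * ∑ l : Fin b → Bool, ∑ x : Fin b → Bool, if R l x then pw p l else 0 := by
      simp only [e1, Finset.sum_sub_distrib, ← Finset.mul_sum]
      congr 1
      simp only [Finset.sum_const, Finset.card_univ, Fintype.card_fun, Fintype.card_bool,
        Fintype.card_fin, nsmul_eq_mul, ← Finset.mul_sum]
      rw [AvP_pw_sum]
      simp
    have e3 := Real.add_one_le_exp (-(P / 2))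
    have e4 : (0 : ℝ) < 2 ^ b := by positivity
    rw [e2]
    calc (2 : ℝ) ^ b - 1 / 2 * ∑ l : Fin b → Bool, ∑ x : Fin b → Bool,
          (if R l x then pw p l else 0) ≤ 2 ^ b - 1 / 2 * (P * 2 ^ b) := by linarith
      _ = 2 ^ b * (-(P / 2) + 1) := by ring
      _ ≤ _ := mul_le_mul_of_nonneg_left e3 e4.le
  -- one pair
  have hpt : ∀ L x : Fin a × Fin b → Bool,
      (if (univ.filter fun j : Fin a => R (fun c => L (j, c)) (fun c => x (j, c))).card < n
        then pw p L else 0) ≤
      2 ^ n * ∏ j : Fin a, w (fun c => L (j, c)) (fun c => x (j, c)) := by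
    intro L x
    have hnn : 0 ≤ ∏ j : Fin a, w (fun c => L (j, c)) (fun c => x (j, c)) :=
      Finset.prod_nonneg fun j _ => hw0 _ _
    split_ifs with hc
    · have e1 : ∏ j : Fin a, w (fun c => L (j, c)) (fun c => x (j, c)) = pw p L *
          (1 / 2) ^ (univ.filter fun j : Fin a =>
            R (fun c => L (j, c)) (fun c => x (j, c))).card := by
        simp only [w]
        rw [Finset.prod_mul_distrib, ← AvP_pw_prod, Finset.prod_ite, Finset.prod_const,
          Finset.prod_const_one, mul_one]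
      rw [e1]
      have e2 : (1 : ℝ) ≤ 2 ^ n * (1 / 2) ^ (univ.filter fun j : Fin a =>
            R (fun c => L (j, c)) (fun c => x (j, c))).card := by
        set t := (univ.filter fun j : Fin a => R (fun c => L (j, c)) (fun c => x (j, c))).card
        have e3 : (2 : ℝ) ^ t ≤ 2 ^ n := pow_le_pow_right₀ (by norm_num) hc.le
        have e4 : (2 : ℝ) ^ t * (1 / 2) ^ t = 1 := by
          rw [← mul_pow]; norm_num
        calc (1 : ℝ) = 2 ^ t * (1 / 2) ^ t := e4.symm
          _ ≤ 2 ^ n * (1 / 2) ^ t := mul_le_mul_of_nonneg_right e3 (by positivity)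
      have e5 := AvP_pw_nonneg h0 h1 L
      calc pw p L = pw p L * 1 := (mul_one _).symm
        _ ≤ pw p L * (2 ^ n * (1 / 2) ^ (univ.filter fun j : Fin a =>
            R (fun c => L (j, c)) (fun c => x (j, c))).card) :=
          mul_le_mul_of_nonneg_left e2 e5
        _ = _ := by ring
    · positivity
  calc (∑ L : Fin a × Fin b → Bool, ∑ x : Fin a × Fin b → Bool,
      if (univ.filter fun j : Fin a => R (fun c => L (j, c)) (fun c => x (j, c))).card < n
        then pw p L else 0) ≤
      ∑ L : Fin a × Fin b → Bool, ∑ x : Fin a × Fin b → Bool,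
        2 ^ n * ∏ j : Fin a, w (fun c => L (j, c)) (fun c => x (j, c)) :=
        Finset.sum_le_sum fun L _ => Finset.sum_le_sum fun x _ => hpt L x
    _ = 2 ^ n * (∑ l, ∑ x, w l x) ^ a := by
        simp only [← Finset.mul_sum]
        rw [hprod]
    _ ≤ 2 ^ n * (2 ^ b * Real.exp (-(P / 2))) ^ a := by
        refine mul_le_mul_of_nonneg_left (pow_le_pow_left₀ ?_ hone a) (by positivity)
        exact Finset.sum_nonneg fun l _ => Finset.sum_nonneg fun x _ => hw0 l x
    _ = 2 ^ n * Real.exp (-(a * P / 2)) * 2 ^ (a * b) := by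
        rw [mul_pow, ← pow_mul, ← Real.exp_nat_mul, mul_comm b a]
        have : (a : ℝ) * -(P / 2) = -(a * P / 2) := by ring
        rw [this]; ring

end Pool.Agent.FRM
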