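import Mathlib

/-!
# FRM: uniform inputs and majorities of rows (statements of the averaging part)

A pair of a random set `L` of cells (every cell with probability `p`) and of a uniform input `x` of
`Fin a × Fin b`. In a row with at least `q` cells of `L` we choose `q` of them, `Q l : Fin q → Fin b`, where
`l : Fin b → Bool` is the set of the cells of the row in `L`. The row is in `J` if `x` has exactly
`(b + 1) / 2 - q` ones at the other cells; then the majority of the row is the conjunction of the
`q` chosen cells.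

Modules `Pool/Agent/FRM/AvR.lean`, `AvP.lean`, `AvI.lean` import this file only and prove `thm_AvR : St_AvR` etc.,
namespace `Pool.Agent.FRM`, own lemmas with names starting with the name of the module.
-/

set_option autoImplicit false

namespace Pool.Agent.FRM

open Finset

/-- the weight of a random set -/
def pw {ι : Type} [Fintype ι] (p : ℝ) (l : ι → Bool) : ℝ :=
  ∏ i, if l i = true then p else 1 - p

open Classical in
/-- the row is in `J`: there are `q` chosen cells, and `x` has exactly `(b + 1) / 2 - q` ones at the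
other cells -/
def RowJ (q : ℕ) {b : ℕ} (Q : (Fin b → Bool) → Fin q → Fin b) (l x : Fin b → Bool) : Prop :=
  q ≤ (univ.filter fun c => l c = true).card ∧
    (univ.filter fun c => (∀ i, Q l i ≠ c) ∧ x c = true).card + q = (b + 1) / 2

/-- the number of rows in which at least half of the entries are true -/
def rws {a b : ℕ} (x : Fin a × Fin b → Bool) : ℕ :=
  (univ.filter fun j : Fin a => b ≤ 2 * (univ.filter fun c : Fin b => x (j, c) = true).card).card

/-- cells given by `y`, and constant cells -/
def em {V J : Type} {q : ℕ} (own : V → Option (Fin q × J)) (cst : V → Bool) (y : Fin q → J → Bool) :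
    V → Bool :=
  fun v => match own v with
  | some p => y p.1 p.2
  | none => cst v

open Classical in
/-- **AVR.** A row is in `J` with probability at least `1 / (2 ^ (q + 1) * (b + 1))`.  PROOF.  With `m = (b + 1) / 2`:
(1) for a fixed `l` with at least `q` cells the number of `x` with `RowJ` is at least
`2 ^ q * (b - q).choose (m - q)` (the pairs `s₁ ∈ powersetCard (m - q) T`, `s₂ ⊆ Tᶜ`, `T` the complement of the
range of `Q l`, of cardinality `b - q`; `q ≤ m` because `8 * (q + 1) ≤ b`). (2)
`(b - q).choose (m - q) * ∏_{i<q} (b - i) = b.choose m * ∏_{i<q} (m - i)`, `4 * (m - i) ≥ b - i` for `i < q` (`2 m ≥ b`,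
`b ≥ 3 i`), so `(b - q).choose (m - q) * 4 ^ q ≥ b.choose m ≥ 2 ^ b / (b + 1)` (induction on `q`:
`(b - q).choose (m - q) * (b - q) = ... `, `Nat.succ_mul_choose_eq`; `m = b / 2` or `b - b / 2`,
`Nat.choose_le_middle`, `Nat.sum_range_choose`). (3) `∑ l, pw p l = 1`, and the `l` with less than `q` cells have total
weight at most `2 ^ q * ∑ l, pw p l * (1 / 2) ^ card l = 2 ^ q * (1 - p / 2) ^ b ≤ 2 ^ q * exp (- p * b / 2) ≤
2 ^ q * exp (- 4 * (q + 1)) ≤ 1 / 2`. Hence the sum is at least `(1 / 2) * 2 ^ q * 2 ^ b / (4 ^ q * (b + 1))`. -/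
def St_AvR : Prop := ∀ (b q : ℕ) (p : ℝ) (Q : (Fin b → Bool) → Fin q → Fin b), 0 < p → p ≤ 1 →
  8 * ((q : ℝ) + 1) ≤ p * b →
  (∀ l : Fin b → Bool, q ≤ (univ.filter fun c => l c = true).card → Function.Injective (Q l)) →
  (1 : ℝ) / (2 ^ (q + 1) * (b + 1)) * 2 ^ b ≤
    ∑ l : Fin b → Bool, ∑ x : Fin b → Bool, if RowJ q Q l x then pw p l else 0

open Classical in
/-- **AVP.** Independent rows.  PROOF.  If the number `t` of the rows with `R` is smaller than `n` then
`1 ≤ 2 ^ n * (1 / 2) ^ t`. So the left hand side is at most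
`2 ^ n * ∑ L, ∑ x, ∏ j, (pw p (L j) * (if R (L j) (x j) then 1 / 2 else 1))`, by currying
`2 ^ n * (∑ l, ∑ x, pw p l * (if R l x then 1 / 2 else 1)) ^ a`, and the sum in the bracket is
`2 ^ b - (1 / 2) * (∑ l, ∑ x, if R l x then pw p l else 0) ≤ 2 ^ b * (1 - P / 2) ≤ 2 ^ b * exp (- P / 2)`. -/
def St_AvP : Prop := ∀ (a b n : ℕ) (p P : ℝ) (R : (Fin b → Bool) → (Fin b → Bool) → Prop), 0 ≤ p →
  p ≤ 1 → P * 2 ^ b ≤ (∑ l : Fin b → Bool, ∑ x : Fin b → Bool, if R l x then pw p l else 0) →
  (∑ L : Fin a × Fin b → Bool, ∑ x : Fin a × Fin b → Bool,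
    if (univ.filter fun j : Fin a => R (fun c => L (j, c)) (fun c => x (j, c))).card < n
      then pw p L else 0) ≤ 2 ^ n * Real.exp (-(a * P / 2)) * 2 ^ (a * b)

open Classical in
/-- **AVI.** Resampling.  PROOF.  Write `J x` for the set of the rows with `RowJ`. For every finite set `J` of rows with
at least `n` elements choose an injection `ψ_J : Fin n → Fin a` with values in `J`, and for `x` with
`n ≤ card (J x)` put `cell (i, k) = (ψ k, Q (L (ψ k)) i)`, an injection `Fin q × Fin n → Fin a × Fin b` with
values in `L`, and `own v = some u` if `cell u = v`, `none` if there is no such `u`. If `x' = em own x y` then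
`x'` and `x` differ only at chosen cells, so `J x' = J x` and the `own` of `x'` is the `own` of `x`; and `A x'`. Hence
`(x, y) ↦ (em own x y, fun i k => x (cell (i, k)))` is an involution of the set of the pairs `(x, y)` with
`A x`, `n ≤ card (J x)` (`Finset.sum_nbij'`), so with `Φ x = F x * (-1) ^ rws x`
`2 ^ (q * n) * ∑_x Φ x = ∑_x ∑_y Φ (em own x y)` (sums over these `x`). In the row `ψ k` the input `em own x y` has
`(b + 1) / 2 - q + card {i | y i k}` ones, so at least half of the entries are true iff all `y i k` are true; the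
other rows do not depend on `y`. So `(-1) ^ rws (em own x y) = s * ∏ k, (if ∀ i, y i k = true then -1 else 1)`
with `s = 1` or `s = -1`, and `|∑_y Φ (em own x y)| ≤ β * 2 ^ (q * n)`. -/
def St_AvI : Prop := ∀ (a b q n : ℕ) (L : Fin a × Fin b → Bool)
  (Q : (Fin b → Bool) → Fin q → Fin b) (F : (Fin a × Fin b → Bool) → ℝ)
  (A : (Fin a × Fin b → Bool) → Prop) (β : ℝ), 0 ≤ β → 1 ≤ q →
  (∀ l : Fin b → Bool, q ≤ (univ.filter fun c => l c = true).card →
    Function.Injective (Q l) ∧ ∀ i, l (Q l i) = true) →
  (∀ x x' : Fin a × Fin b → Bool, (∀ v, L v = false → x v = x' v) → A x → A x') →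
  (∀ x, A x → ∀ own : Fin a × Fin b → Option (Fin q × Fin n), (∀ v, own v ≠ none → L v = true) →
    |∑ y : Fin q → Fin n → Bool,
      F (em own x y) * ∏ k, (if ∀ i, y i k = true then (-1 : ℝ) else 1)| ≤ β * 2 ^ (q * n)) →
  |∑ x : Fin a × Fin b → Bool, if (A x ∧ n ≤ (univ.filter fun j : Fin a =>
      RowJ q Q (fun c => L (j, c)) (fun c => x (j, c))).card) then F x * (-1) ^ rws x else 0| ≤
    β * 2 ^ (a * b)

end Pool.Agent.FRM
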