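import Mathlib
import Pool.Agent.FRM.StV

/-!
# FRM: a row is good with large probability
-/

set_option autoImplicit false

namespace Pool.Agent.FRM

open Finset

theorem AvR_choose (b m : ℕ) (hm : b ≤ 2 * m) (hmb : m ≤ b) :
    ∀ q : ℕ, 3 * q ≤ b → q ≤ m → b.choose m ≤ 4 ^ q * (b - q).choose (m - q) := by
  intro q
  induction q with
  | zero => intro _ _; simp
  | succ q ih =>
    intro h3 hq
    have h1 := ih (by omega) (by omega)
    obtain ⟨n, hn⟩ : ∃ n, b - q = n + 1 := ⟨b - q - 1, by omega⟩
    obtain ⟨k, hk⟩ : ∃ k, m - q = k + 1 := ⟨m - q - 1, by omega⟩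
    have hn' : b - (q + 1) = n := by omega
    have hk' : m - (q + 1) = k := by omega
    rw [hn', hk']
    rw [hn, hk] at h1
    have h2 := Nat.add_one_mul_choose_eq n k
    have h4 : n + 1 ≤ 4 * (k + 1) := by omega
    have h5 : (n + 1).choose (k + 1) ≤ 4 * n.choose k := by
      have h6 : (n + 1) * (n + 1).choose (k + 1) ≤ (n + 1) * (4 * n.choose k) := by
        calc (n + 1) * (n + 1).choose (k + 1) ≤ (4 * (k + 1)) * (n + 1).choose (k + 1) :=
              Nat.mul_le_mul_right _ h4
          _ = 4 * ((n + 1).choose (k + 1) * (k + 1)) := by ring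
          _ = 4 * ((n + 1) * n.choose k) := by rw [← h2]
          _ = (n + 1) * (4 * n.choose k) := by ring
      exact Nat.le_of_mul_le_mul_left h6 (Nat.succ_pos n)
    calc b.choose m ≤ 4 ^ q * (n + 1).choose (k + 1) := h1
      _ ≤ 4 ^ q * (4 * n.choose k) := Nat.mul_le_mul_left _ h5
      _ = 4 ^ (q + 1) * n.choose k := by ring

theorem AvR_central (b : ℕ) : 2 ^ b ≤ (b + 1) * b.choose ((b + 1) / 2) := by
  have h1 : b.choose ((b + 1) / 2) = b.choose (b / 2) := by
    have h2 : (b + 1) / 2 = b - b / 2 := by omega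
    rw [h2]
    exact Nat.choose_symm (by omega)
  rw [h1, ← Nat.sum_range_choose b]
  calc ∑ m ∈ range (b + 1), b.choose m ≤ ∑ m ∈ range (b + 1), b.choose (b / 2) :=
        Finset.sum_le_sum fun r _ => Nat.choose_le_middle r b
    _ = (b + 1) * b.choose (b / 2) := by rw [Finset.sum_const, Finset.card_range, smul_eq_mul]

open Classical in
theorem AvR_count (b q m : ℕ) (Q : Fin q → Fin b) (hQ : Function.Injective Q) (hqm : q ≤ m) :
    2 ^ q * (b - q).choose (m - q) ≤ (univ.filter fun x : Fin b → Bool =>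
      (univ.filter fun c => (∀ i, Q i ≠ c) ∧ x c = true).card + q = m).card := by
  set R : Finset (Fin b) := univ.image Q with hR
  have hRc : R.card = q := by
    rw [hR, Finset.card_image_of_injective _ hQ, Finset.card_univ, Fintype.card_fin]
  have hTc : (Rᶜ).card = b - q := by
    rw [Finset.card_compl, Fintype.card_fin, hRc]
  have h1 : ((powersetCard (m - q) Rᶜ) ×ˢ R.powerset).card = 2 ^ q * (b - q).choose (m - q) := by
    rw [Finset.card_product, Finset.card_powersetCard, Finset.card_powerset, hTc, hRc, mul_comm]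
  rw [← h1]
  have hmemR : ∀ c, c ∈ R ↔ ∃ i, Q i = c := by
    intro c
    simp [hR]
  apply Finset.card_le_card_of_injOn (fun s c => decide (c ∈ s.1 ∪ s.2))
  · rintro ⟨s1, s2⟩ hs
    rw [Finset.mem_coe, Finset.mem_product, Finset.mem_powersetCard, Finset.mem_powerset] at hs
    obtain ⟨⟨hs1, hs1c⟩, hs2⟩ := hs
    rw [Finset.mem_coe, Finset.mem_filter]
    refine ⟨Finset.mem_univ _, ?_⟩
    have h2 : (univ.filter fun c => (∀ i, Q i ≠ c) ∧ decide (c ∈ s1 ∪ s2) = true) = s1 := by
      ext c
      rw [Finset.mem_filter, decide_eq_true_eq, Finset.mem_union]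
      constructor
      · rintro ⟨-, hc, h3 | h3⟩
        · exact h3
        · obtain ⟨i, hi⟩ := (hmemR c).mp (hs2 h3)
          exact absurd hi (hc i)
      · intro hc
        refine ⟨Finset.mem_univ _, ?_, Or.inl hc⟩
        intro i hi
        have h3 := Finset.mem_compl.mp (hs1 hc)
        exact h3 ((hmemR c).mpr ⟨i, hi⟩)
    show (univ.filter fun c => (∀ i, Q i ≠ c) ∧ decide (c ∈ s1 ∪ s2) = true).card + q = m
    rw [h2, hs1c]
    omega
  · rintro ⟨s1, s2⟩ hs ⟨t1, t2⟩ ht hst
    rw [Finset.mem_coe, Finset.mem_product, Finset.mem_powersetCard, Finset.mem_powerset] at hs ht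
    obtain ⟨⟨hs1, -⟩, hs2⟩ := hs
    obtain ⟨⟨ht1, -⟩, ht2⟩ := ht
    have h3 : ∀ c, c ∈ s1 ∪ s2 ↔ c ∈ t1 ∪ t2 := by
      intro c
      have h4 := congrFun hst c
      exact decide_eq_decide.mp h4
    have h5 : s1 = t1 := by
      ext c
      have h6 := h3 c
      rw [Finset.mem_union, Finset.mem_union] at h6
      constructor
      · intro hc
        rcases h6.mp (Or.inl hc) with h7 | h7
        · exact h7
        · exact absurd (ht2 h7) (Finset.mem_compl.mp (hs1 hc))
      · intro hc
        rcases h6.mpr (Or.inl hc) with h7 | h7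
        · exact h7
        · exact absurd (hs2 h7) (Finset.mem_compl.mp (ht1 hc))
    have h6 : s2 = t2 := by
      ext c
      have h6 := h3 c
      rw [Finset.mem_union, Finset.mem_union] at h6
      constructor
      · intro hc
        rcases h6.mp (Or.inr hc) with h7 | h7
        · exact absurd (hs2 hc) (Finset.mem_compl.mp (ht1 h7))
        · exact h7
      · intro hc
        rcases h6.mpr (Or.inr hc) with h7 | h7
        · exact absurd (ht2 hc) (Finset.mem_compl.mp (hs1 h7))
        · exact h7
    rw [h5, h6]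

theorem AvR_pw_nonneg {b : ℕ} {p : ℝ} (h0 : 0 < p) (h1 : p ≤ 1) (l : Fin b → Bool) : 0 ≤ pw p l := by
  unfold pw
  refine Finset.prod_nonneg fun i _ => ?_
  split_ifs <;> linarith

theorem AvR_pw_sum (b : ℕ) (p : ℝ) : ∑ l : Fin b → Bool, pw p l = 1 := by
  have h1 := Fintype.sum_pow (fun v : Bool => if v = true then p else 1 - p) b
  unfold pw
  rw [← h1]
  simp

theorem AvR_pw_half (b : ℕ) (p : ℝ) : ∑ l : Fin b → Bool,
    pw p l * (1 / 2 : ℝ) ^ (univ.filter fun c => l c = true).card = (1 - p / 2) ^ b := by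
  have h1 := Fintype.sum_pow (fun v : Bool => if v = true then p / 2 else 1 - p) b
  have h2 : ∀ l : Fin b → Bool, pw p l * (1 / 2 : ℝ) ^ (univ.filter fun c => l c = true).card =
      ∏ i, (if l i = true then p / 2 else 1 - p) := by
    intro l
    have h3 : (1 / 2 : ℝ) ^ (univ.filter fun c => l c = true).card =
        ∏ i, (if l i = true then (1 / 2 : ℝ) else 1) := by
      rw [← Finset.prod_const, Finset.prod_filter]
    rw [h3]
    unfold pw
    rw [← Finset.prod_mul_distrib]
    refine Finset.prod_congr rfl fun i _ => ?_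
    split_ifs <;> ring
  rw [Finset.sum_congr rfl fun l _ => h2 l, ← h1]
  congr 1
  simp
  ring

open Classical in
theorem AvR_tail (b q : ℕ) (p : ℝ) (h0 : 0 < p) (h1 : p ≤ 1) (h8 : 8 * ((q : ℝ) + 1) ≤ p * b) :
    (1 / 2 : ℝ) ≤ ∑ l ∈ univ.filter (fun l : Fin b → Bool =>
      q ≤ (univ.filter fun c => l c = true).card), pw p l := by
  have hs := Finset.sum_filter_add_sum_filter_not univ (fun l : Fin b → Bool =>
      q ≤ (univ.filter fun c => l c = true).card) (fun l => pw p l)
  rw [AvR_pw_sum] at hs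
  have hbad : ∑ l ∈ univ.filter (fun l : Fin b → Bool =>
      ¬ q ≤ (univ.filter fun c => l c = true).card), pw p l ≤ 1 / 2 := by
    calc ∑ l ∈ univ.filter (fun l : Fin b → Bool =>
          ¬ q ≤ (univ.filter fun c => l c = true).card), pw p l
        ≤ ∑ l ∈ univ.filter (fun l : Fin b → Bool =>
          ¬ q ≤ (univ.filter fun c => l c = true).card),
          2 ^ q * (pw p l * (1 / 2 : ℝ) ^ (univ.filter fun c => l c = true).card) := by
          refine Finset.sum_le_sum fun l hl => ?_
          have hl2 := (Finset.mem_filter.mp hl).2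
          have h2 : (1 / 2 : ℝ) ^ q ≤ (1 / 2 : ℝ) ^ (univ.filter fun c => l c = true).card :=
            pow_le_pow_of_le_one (by norm_num) (by norm_num) (by omega)
          have h3 : (1 : ℝ) ≤ 2 ^ q * (1 / 2 : ℝ) ^ (univ.filter fun c => l c = true).card := by
            calc (1 : ℝ) = 2 ^ q * (1 / 2 : ℝ) ^ q := by
                  rw [← mul_pow]; norm_num
              _ ≤ _ := mul_le_mul_of_nonneg_left h2 (by positivity)
          have h4 := AvR_pw_nonneg h0 h1 l
          calc pw p l = pw p l * 1 := (mul_one _).symm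
            _ ≤ pw p l * (2 ^ q * (1 / 2 : ℝ) ^ (univ.filter fun c => l c = true).card) :=
              mul_le_mul_of_nonneg_left h3 h4
            _ = _ := by ring
      _ ≤ ∑ l : Fin b → Bool,
          2 ^ q * (pw p l * (1 / 2 : ℝ) ^ (univ.filter fun c => l c = true).card) := by
          refine Finset.sum_le_sum_of_subset_of_nonneg (Finset.filter_subset _ _) ?_
          intro l _ _
          have h4 := AvR_pw_nonneg h0 h1 l
          positivity
      _ = 2 ^ q * (1 - p / 2) ^ b := by
          rw [← Finset.mul_sum, AvR_pw_half]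
      _ ≤ 2 ^ q * Real.exp (-((q : ℝ) + 1)) := by
          refine mul_le_mul_of_nonneg_left ?_ (by positivity)
          have h2 : (1 - p / 2) ≤ Real.exp (-(p / 2)) := Real.one_sub_le_exp_neg _
          calc (1 - p / 2) ^ b ≤ (Real.exp (-(p / 2))) ^ b :=
                pow_le_pow_left₀ (by linarith) h2 b
            _ = Real.exp (b * (-(p / 2))) := (Real.exp_nat_mul _ _).symm
            _ ≤ Real.exp (-((q : ℝ) + 1)) := by
                apply Real.exp_le_exp.mpr
                have hq : (0 : ℝ) ≤ q := Nat.cast_nonneg q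
                nlinarith
      _ ≤ 1 / 2 := by
          have h2 : Real.exp (-((q : ℝ) + 1)) = (Real.exp (-1)) ^ (q + 1) := by
            rw [← Real.exp_nat_mul]
            congr 1
            push_cast
            ring
          have h3 : Real.exp (-1) ≤ 1 / 2 := by
            rw [Real.exp_neg, one_div]
            apply inv_anti₀ (by norm_num)
            have := Real.add_one_le_exp (1 : ℝ)
            linarith
          have h4 : (Real.exp (-1)) ^ (q + 1) ≤ (1 / 2 : ℝ) ^ (q + 1) :=
            pow_le_pow_left₀ (Real.exp_pos _).le h3 _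
          rw [h2]
          calc (2 : ℝ) ^ q * (Real.exp (-1)) ^ (q + 1) ≤ 2 ^ q * (1 / 2 : ℝ) ^ (q + 1) :=
                mul_le_mul_of_nonneg_left h4 (by positivity)
            _ = (2 * (1 / 2 : ℝ)) ^ q * (1 / 2) := by rw [mul_pow, pow_succ]; ring
            _ = 1 / 2 := by norm_num
  linarith

open Classical in
theorem thm_AvR : St_AvR := by
  intro b q p Q h0 h1 h8 hQ
  have hqb : 8 * (q + 1) ≤ b := by
    have h2 : p * b ≤ b := by
      have hb : (0 : ℝ) ≤ b := Nat.cast_nonneg b
      nlinarith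
    have h3 : ((8 * (q + 1) : ℕ) : ℝ) ≤ b := by
      push_cast
      linarith
    exact_mod_cast h3
  obtain ⟨m, hm⟩ : ∃ m, m = (b + 1) / 2 := ⟨_, rfl⟩
  have hc1 : b.choose m ≤ 4 ^ q * (b - q).choose (m - q) :=
    AvR_choose b m (by omega) (by omega) q (by omega) (by omega)
  have hc2 : 2 ^ b ≤ (b + 1) * b.choose m := by
    rw [hm]
    exact AvR_central b
  have hc : (2 : ℝ) ^ b ≤ (b + 1) * (4 ^ q * ((b - q).choose (m - q) : ℝ)) := by
    have h2 : 2 ^ b ≤ (b + 1) * (4 ^ q * (b - q).choose (m - q)) :=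
      hc2.trans (Nat.mul_le_mul_left _ hc1)
    exact_mod_cast h2
  set G := univ.filter (fun l : Fin b → Bool => q ≤ (univ.filter fun c => l c = true).card) with hG
  have hrow : ∀ l ∈ G, pw p l * (2 ^ q * ((b - q).choose (m - q) : ℝ)) ≤
      ∑ x : Fin b → Bool, if RowJ q Q l x then pw p l else 0 := by
    intro l hl
    have hl2 : q ≤ (univ.filter fun c => l c = true).card := (Finset.mem_filter.mp hl).2
    rw [← Finset.sum_filter, Finset.sum_const, nsmul_eq_mul, mul_comm]
    refine mul_le_mul_of_nonneg_right ?_ (AvR_pw_nonneg h0 h1 l)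
    have h2 := AvR_count b q m (Q l) (hQ l hl2) (by omega)
    have h3 : (univ.filter fun x : Fin b → Bool =>
      (univ.filter fun c => (∀ i, Q l i ≠ c) ∧ x c = true).card + q = m) ⊆
        univ.filter fun x : Fin b → Bool => RowJ q Q l x := by
      intro x hx
      rw [Finset.mem_filter] at hx ⊢
      refine ⟨hx.1, hl2, ?_⟩
      rw [← hm]
      exact hx.2
    have h4 := h2.trans (Finset.card_le_card h3)
    exact_mod_cast h4
  calc (1 : ℝ) / (2 ^ (q + 1) * (b + 1)) * 2 ^ b
      ≤ 1 / 2 * (2 ^ q * ((b - q).choose (m - q) : ℝ)) := by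
        rw [div_mul_eq_mul_div, one_mul, div_le_iff₀ (by positivity)]
        calc (2 : ℝ) ^ b ≤ (b + 1) * (4 ^ q * ((b - q).choose (m - q) : ℝ)) := hc
          _ = 1 / 2 * (2 ^ q * ((b - q).choose (m - q) : ℝ)) * (2 ^ (q + 1) * (b + 1)) := by
            have h5 : (4 : ℝ) ^ q = 2 ^ q * 2 ^ q := by
              rw [← mul_pow]; norm_num
            rw [h5, pow_succ]
            ring
    _ ≤ (∑ l ∈ G, pw p l) * (2 ^ q * ((b - q).choose (m - q) : ℝ)) :=
        mul_le_mul_of_nonneg_right (AvR_tail b q p h0 h1 h8) (by positivity)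
    _ = ∑ l ∈ G, pw p l * (2 ^ q * ((b - q).choose (m - q) : ℝ)) := by rw [Finset.sum_mul]
    _ ≤ ∑ l ∈ G, ∑ x : Fin b → Bool, (if RowJ q Q l x then pw p l else 0) :=
        Finset.sum_le_sum hrow
    _ ≤ ∑ l : Fin b → Bool, ∑ x : Fin b → Bool, (if RowJ q Q l x then pw p l else 0) := by
        refine Finset.sum_le_sum_of_subset_of_nonneg (Finset.filter_subset _ _) ?_
        intro l _ _
        refine Finset.sum_nonneg fun x _ => ?_
        split_ifs
        · exact AvR_pw_nonneg h0 h1 l
        · exact le_refl _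

end Pool.Agent.FRM
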