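import Pool.Agent.FRM.Avg
import Pool.Agent.FRM.AvR
import Pool.Agent.FRM.AvP
import Pool.Agent.FRM.AvI

/-!
# FRM: the averaging part, without hypotheses
-/

set_option autoImplicit false

namespace Pool.Agent.FRM

theorem all_Avg : St_Avg := thm_Avg thm_AvR thm_AvP thm_AvI

end Pool.Agent.FRM
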