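import Pool.Agent.FRM.All

/-!
# FRM: the approximation theorem for leaves which are combinations of weight `Mu`
-/

set_option autoImplicit false

namespace Pool.Agent.FRM

/-- constant error, leaves of weight `Mu` -/
def St_WkbM : Prop := ∃ C : ℕ, 1 ≤ C ∧ ∀ (X V : Type) (S : Submonoid (X → ℝ))
  (z : X → V → Bool) (Mu : ℝ), 1 ≤ Mu →
  (∀ v, Wt (S : Set (X → ℝ)) Mu (fun x => ind (z x v))) → ∀ F : BF V, ∃ r : X → ℝ,
    Wt (S : Set (X → ℝ)) (Real.exp (C * (Real.sqrt F.size + 1) * Real.log (F.size + Mu + 2))) r ∧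
    (∀ x, 0 ≤ r x ∧ r x ≤ 1) ∧ ∀ x, |r x - ind (F.eval (z x))| ≤ 1 / 8

/-- the approximation theorem, leaves of weight `Mu` -/
def St_ApxM : Prop := ∃ C : ℕ, 1 ≤ C ∧ ∀ (X V : Type) (S : Submonoid (X → ℝ))
  (z : X → V → Bool) (Mu : ℝ), 1 ≤ Mu →
  (∀ v, Wt (S : Set (X → ℝ)) Mu (fun x => ind (z x v))) → ∀ (F : BF V) (L : ℕ), ∃ q : X → ℝ,
    Wt (S : Set (X → ℝ))
      (Real.exp (C * (Real.sqrt (F.size * L) + L + 1) * Real.log (F.size + Mu + 2))) q ∧
    ∀ x, |q x - ind (F.eval (z x))| ≤ (1 / 2) ^ L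

/-- the signs have weight at most `2 * Mu + 1` -/
theorem ApxM_sign (hA : St_Wta) (hB : St_Wtb) {X V : Type} {N : ℕ} (S : Submonoid (X → ℝ))
    (z : X → V → Bool) {Mu : ℝ} (hMu : 1 ≤ Mu)
    (hz : ∀ v, Wt (S : Set (X → ℝ)) Mu (fun x => ind (z x v))) (lab : Fin N → V)
    (i : Option (Fin N × Bool)) :
    Wt (S : Set (X → ℝ)) (2 * Mu + 1) (fun x => match i with
      | none => 1
      | some (j, b) => if z x (lab j) = b then (1 : ℝ) else -1) := by
  obtain ⟨hmono, hmem, hadd, hsmul, -, -⟩ := hA X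
  obtain ⟨hc, -, -⟩ := hB X S
  match i with
  | none =>
    have h1 := hc 1
    exact hmono _ _ _ _ (by rw [abs_one]; linarith) h1
  | some (j, b) =>
    have h1 := hz (lab j)
    cases b with
    | true =>
      have h2 := hadd _ _ _ _ _ (hsmul _ _ 2 _ h1) (hc (-1))
      have h3 : (fun x => 2 * ind (z x (lab j)) + -1) =
          fun x => if z x (lab j) = true then (1 : ℝ) else -1 := by
        funext x
        cases z x (lab j) <;> norm_num [ind]
      rw [h3] at h2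
      refine hmono _ _ _ _ ?_ h2
      norm_num
    | false =>
      have h2 := hadd _ _ _ _ _ (hsmul _ _ (-2) _ h1) (hc 1)
      have h3 : (fun x => -2 * ind (z x (lab j)) + 1) =
          fun x => if z x (lab j) = false then (1 : ℝ) else -1 := by
        funext x
        cases z x (lab j) <;> norm_num [ind]
      rw [h3] at h2
      refine hmono _ _ _ _ ?_ h2
      norm_num

/-- the walk has small weight -/
theorem ApxM_walk (hA : St_Wta) (hB : St_Wtb) {X V : Type} {N : ℕ} (S : Submonoid (X → ℝ))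
    (z : X → V → Bool) {Mu : ℝ} (hMu : 1 ≤ Mu)
    (hz : ∀ v, Wt (S : Set (X → ℝ)) Mu (fun x => ind (z x v))) (lab : Fin N → V)
    (A : Option (Fin N × Bool) → Option (Fin N × Bool) → ℝ)
    (y : ℕ → X → Option (Fin N × Bool) → ℝ) (hA1 : ∀ i j, |A i j| ≤ 1)
    (hy0 : ∀ x i, y 0 x i = if i = none then 1 else 0)
    (hy1 : ∀ k x i, y (k + 1) x i = (match i with
      | none => 1
      | some (j, b) => if z x (lab j) = b then (1 : ℝ) else -1) * ∑ j, A i j * y k x j)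
    (k : ℕ) (i : Option (Fin N × Bool)) :
    Wt (S : Set (X → ℝ)) (((2 * Mu + 1) * (2 * (N : ℝ) + 1)) ^ k) (fun x => y k x i) := by
  obtain ⟨hmono, hmem, hadd, hsmul, hsum, -⟩ := hA X
  obtain ⟨hc, hmul, -⟩ := hB X S
  induction k generalizing i with
  | zero =>
    have h1 := hc (if i = none then 1 else 0)
    have h2 : (fun x => y 0 x i) = fun _ => if i = none then (1 : ℝ) else 0 := by
      funext x
      exact hy0 x i
    rw [h2, pow_zero]
    refine hmono _ _ _ _ ?_ h1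
    split_ifs <;> simp
  | succ k ih =>
    have h1 := hsum S (Option (Fin N × Bool)) Finset.univ _ _ fun j _ =>
      hsmul S _ (A i j) _ (ih j)
    have h2 := hmul _ _ _ _ (ApxM_sign hA hB S z hMu hz lab i) h1
    rw [show (fun x => y (k + 1) x i) = _ from funext fun x => hy1 k x i]
    refine hmono _ _ _ _ ?_ h2
    have hpos : (0 : ℝ) ≤ ((2 * Mu + 1) * (2 * (N : ℝ) + 1)) ^ k := by positivity
    have h4 : ∑ j, |A i j| * ((2 * Mu + 1) * (2 * (N : ℝ) + 1)) ^ k ≤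
        ∑ _j : Option (Fin N × Bool), ((2 * Mu + 1) * (2 * (N : ℝ) + 1)) ^ k :=
      Finset.sum_le_sum fun j _ => by
        calc |A i j| * ((2 * Mu + 1) * (2 * (N : ℝ) + 1)) ^ k ≤ 1 * ((2 * Mu + 1) * (2 * (N : ℝ) + 1)) ^ k :=
              mul_le_mul_of_nonneg_right (hA1 i j) hpos
          _ = _ := one_mul _
    rw [Finset.sum_const, Finset.card_univ, Fintype.card_option, Fintype.card_prod,
      Fintype.card_fin, Fintype.card_bool, nsmul_eq_mul] at h4
    push_cast at h4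
    calc (2 * Mu + 1) * ∑ j, |A i j| * ((2 * Mu + 1) * (2 * (N : ℝ) + 1)) ^ k
        ≤ (2 * Mu + 1) * (((N : ℝ) * 2 + 1) * ((2 * Mu + 1) * (2 * (N : ℝ) + 1)) ^ k) :=
          mul_le_mul_of_nonneg_left h4 (by linarith)
      _ = ((2 * Mu + 1) * (2 * (N : ℝ) + 1)) ^ (k + 1) := by ring

/-- the numbers -/
theorem ApxM_num (N n : ℕ) {Mu : ℝ} (hMu : 1 ≤ Mu) (hn : (n : ℝ) ≤ 20 * (Real.sqrt N + 1)) :
    (2 * (N : ℝ) + 1) * (((2 * Mu + 1) * (2 * (N : ℝ) + 1)) ^ n) ^ 2 ≤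
      Real.exp ((162 : ℕ) * (Real.sqrt N + 1) * Real.log (N + Mu + 2)) := by
  have hN : (0 : ℝ) ≤ N := Nat.cast_nonneg N
  have h1 : 2 * (N : ℝ) + 1 ≤ ((N : ℝ) + Mu + 2) ^ 2 := by nlinarith
  have h1' : 2 * Mu + 1 ≤ ((N : ℝ) + Mu + 2) ^ 2 := by nlinarith
  have h2 : (2 * Mu + 1) * (2 * (N : ℝ) + 1) ≤ ((N : ℝ) + Mu + 2) ^ 4 := by
    calc (2 * Mu + 1) * (2 * (N : ℝ) + 1) ≤ ((N : ℝ) + Mu + 2) ^ 2 * ((N : ℝ) + Mu + 2) ^ 2 :=
          mul_le_mul h1' h1 (by linarith) (by positivity)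
      _ = ((N : ℝ) + Mu + 2) ^ 4 := by ring
  have h3 : (2 * (N : ℝ) + 1) * (((2 * Mu + 1) * (2 * (N : ℝ) + 1)) ^ n) ^ 2 ≤
      ((N : ℝ) + Mu + 2) ^ 2 * ((((N : ℝ) + Mu + 2) ^ 4) ^ n) ^ 2 := by
    have h5 : 0 ≤ (2 * Mu + 1) * (2 * (N : ℝ) + 1) := by positivity
    gcongr
  have h4 : ((N : ℝ) + Mu + 2) ^ 2 * ((((N : ℝ) + Mu + 2) ^ 4) ^ n) ^ 2 =
      ((N : ℝ) + Mu + 2) ^ (2 + 8 * n) := by
    rw [← pow_mul, ← pow_mul, ← pow_add]
    congr 1
    ring
  rw [h4] at h3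
  refine h3.trans ?_
  have hp : (0 : ℝ) < (N : ℝ) + Mu + 2 := by linarith
  rw [← Real.exp_log hp, ← Real.exp_nat_mul, Real.exp_log hp]
  apply Real.exp_le_exp.2
  have hlog : 0 ≤ Real.log ((N : ℝ) + Mu + 2) := Real.log_nonneg (by linarith)
  apply mul_le_mul_of_nonneg_right _ hlog
  push_cast
  have := Real.sqrt_nonneg (N : ℝ)
  linarith

theorem ApxM_wkb (hA : St_Wta) (hB : St_Wtb) (hV : St_Adv) (hW : St_Wka) : St_WkbM := by
  refine ⟨162, by norm_num, ?_⟩
  intro X V S z Mu hMu hz F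
  obtain ⟨hmono, hmem, hadd, hsmul, hsum, -⟩ := hA X
  obtain ⟨hc, hmul, hpow⟩ := hB X S
  have hlog : 0 ≤ Real.log ((F.size : ℝ) + Mu + 2) :=
    Real.log_nonneg (by have : (0 : ℝ) ≤ F.size := Nat.cast_nonneg _; linarith)
  have hexp : 1 ≤ Real.exp ((162 : ℕ) * (Real.sqrt F.size + 1) * Real.log (F.size + Mu + 2)) := by
    apply Real.one_le_exp
    have := Real.sqrt_nonneg (F.size : ℝ)
    positivity
  rcases Nat.eq_zero_or_pos F.size with h0 | hpos
  · refine ⟨fun _ => ind (F.eval fun _ => false), ?_, fun _ => Wkb_ind_le _, fun x => ?_⟩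
    · refine hmono _ _ _ _ ?_ (hc _)
      rw [abs_of_nonneg (Wkb_ind_le _).1]
      exact (Wkb_ind_le _).2.trans hexp
    · rw [Wkb_const F h0 (fun _ => false) (z x), sub_self, abs_zero]
      norm_num
  · obtain ⟨lab, w, hw1, hw2⟩ := hV V F
    obtain ⟨N, hN⟩ : ∃ N, N = F.size := ⟨_, rfl⟩
    have hNr : (1 : ℝ) ≤ F.size := by exact_mod_cast hpos
    have hs0 : 1 ≤ Real.sqrt F.size := Real.one_le_sqrt.2 hNr
    have hss : Real.sqrt F.size ^ 2 = F.size := Real.sq_sqrt (by linarith)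
    set n : ℕ := 9 * Nat.sqrt F.size + 20 with hn
    have hq1 : (Nat.sqrt F.size : ℝ) ≤ Real.sqrt F.size := Real.nat_sqrt_le_real_sqrt
    have hq2 : Real.sqrt F.size ≤ (Nat.sqrt F.size : ℝ) + 1 := Real.real_sqrt_le_nat_sqrt_succ
    have hnr : (n : ℝ) = 9 * (Nat.sqrt F.size : ℝ) + 20 := by
      rw [hn]
      push_cast
      ring
    have hn1 : 1 ≤ n := by omega
    have hn2 : 8 * (1 + 8 * Real.sqrt F.size ^ 2) ≤ (n : ℝ) ^ 2 := by
      have h1 : 9 * Real.sqrt F.size + 11 ≤ n := by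
        rw [hnr]
        linarith
      have h2 : (9 * Real.sqrt F.size + 11) ^ 2 ≤ (n : ℝ) ^ 2 :=
        pow_le_pow_left₀ (by positivity) h1 2
      nlinarith
    have hn3 : (n : ℝ) ≤ 20 * (Real.sqrt F.size + 1) := by
      rw [hnr]
      linarith
    obtain ⟨A, y, hA1, hy0, hy1, hr1, hr2, hr3⟩ := hW X F.size (fun x i => z x (lab i))
      (fun x => w (z x)) (fun x => F.eval (z x)) (Real.sqrt F.size) n (by linarith) hn1
      (fun x => hw1 (z x)) (fun x y hxy => hw2 (z x) (z y) hxy) hn2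
    refine ⟨fun x => ∑ i, ((1 / (n : ℝ)) * ∑ k ∈ Finset.range n, y k x i) ^ 2, ?_, ?_, ?_⟩
    · have hnpos : (0 : ℝ) < n := by exact_mod_cast hn1
      have h1 : ∀ i, Wt (S : Set (X → ℝ)) ((((2 * Mu + 1) * (2 * (F.size : ℝ) + 1)) ^ n) ^ 2)
          (fun x => ((1 / (n : ℝ)) * ∑ k ∈ Finset.range n, y k x i) ^ 2) := by
        intro i
        refine hpow _ _ 2 ?_
        have h2 := hsmul S _ (1 / (n : ℝ)) _ (hsum S ℕ (Finset.range n) _ _ fun k _ =>
          ApxM_walk hA hB S z hMu hz lab A y hA1 hy0 hy1 k i)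
        refine hmono _ _ _ _ ?_ h2
        have hB1 : (1 : ℝ) ≤ (2 * Mu + 1) * (2 * (F.size : ℝ) + 1) := by nlinarith
        have h3 : ∑ k ∈ Finset.range n, ((2 * Mu + 1) * (2 * (F.size : ℝ) + 1)) ^ k ≤
            ∑ _k ∈ Finset.range n, ((2 * Mu + 1) * (2 * (F.size : ℝ) + 1)) ^ n :=
          Finset.sum_le_sum fun k hk =>
            pow_le_pow_right₀ hB1 (Finset.mem_range.1 hk).le
        rw [Finset.sum_const, Finset.card_range, nsmul_eq_mul] at h3
        rw [abs_of_pos (by positivity), one_div, inv_mul_le_iff₀ hnpos]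
        exact h3
      have h2 := hsum S (Option (Fin F.size × Bool)) Finset.univ _ _ fun i _ => h1 i
      refine hmono _ _ _ _ ?_ h2
      rw [Finset.sum_const, Finset.card_univ, Fintype.card_option, Fintype.card_prod,
        Fintype.card_fin, Fintype.card_bool, nsmul_eq_mul]
      push_cast
      have h3 := ApxM_num F.size n hMu hn3
      push_cast at h3
      rw [mul_comm (F.size : ℝ) 2]
      exact h3
    · intro x
      exact ⟨Finset.sum_nonneg fun i _ => sq_nonneg _, hr1 x⟩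
    · intro x
      rcases hb : F.eval (z x) with _ | _
      · have h1 := hr3 x hb
        have h2 : (0 : ℝ) ≤ ∑ i, ((1 / (n : ℝ)) * ∑ k ∈ Finset.range n, y k x i) ^ 2 :=
          Finset.sum_nonneg fun i _ => sq_nonneg _
        rw [abs_le]
        simp only [ind, Bool.false_eq_true, if_false, sub_zero]
        constructor <;> linarith
      · have h1 := hr2 x hb
        have h2 := hr1 x
        rw [abs_le]
        simp only [ind, if_true]
        constructor <;> linarith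

/-- the numbers -/
lemma ApxM_num2 {Mu : ℝ} (hMu : 1 ≤ Mu) (C0 N L μ M : ℕ) (hL : 1 ≤ L) (hμ : μ = N / L + 1) (hM : M = 3 * N / μ + 1) :
    (3 : ℝ) ^ M * (36 * (Real.exp (C0 * (Real.sqrt μ + 1) * Real.log (μ + Mu + 2))) ^ 2) ^ (M + 100 * L) ≤
      Real.exp ((848 + 832 * C0 : ℕ) * (Real.sqrt (N * L) + L + 1) * Real.log (N + Mu + 2)) := by
  have hμ1 : 1 ≤ μ := by rw [hμ]; exact Nat.le_add_left 1 _
  have hNL : N < μ * L := by
    rw [hμ, Nat.add_mul, one_mul]
    have := Nat.div_add_mod N L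
    have h2 := Nat.mod_lt N hL
    nlinarith [Nat.mul_comm L (N / L)]
  have hM1 : M ≤ 4 * L := by
    have h1 : 3 * N / μ ≤ 3 * L := by
      refine Nat.div_le_of_le_mul ?_
      nlinarith
    omega
  have hμN : μ ≤ N + 1 := by
    rw [hμ]
    have := Nat.div_le_self N L
    omega
  set b : ℝ := C0 * (Real.sqrt μ + 1) * Real.log (μ + Mu + 2) with hb
  have hlN : 1 / 2 ≤ Real.log (N + Mu + 2) := by
    have h1 : Real.log 2 ≤ Real.log (N + Mu + 2) :=
      Real.log_le_log (by norm_num) (by have : (0 : ℝ) ≤ N := Nat.cast_nonneg N; linarith)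
    have h2 := Real.log_two_gt_d9
    linarith
  have hN0 : (0 : ℝ) ≤ N := Nat.cast_nonneg N
  have hL1 : (1 : ℝ) ≤ L := by exact_mod_cast hL
  have hμN' : (μ : ℝ) ≤ N + 1 := by exact_mod_cast hμN
  have hlμ : Real.log (μ + Mu + 2) ≤ 2 * Real.log (N + Mu + 2) := by
    have h1 : Real.log (μ + Mu + 2) ≤ Real.log ((N + Mu + 2) ^ 2) := by
      refine Real.log_le_log (by positivity) ?_
      nlinarith
    rw [Real.log_pow] at h1
    exact_mod_cast h1
  have hlμ0 : 0 ≤ Real.log (μ + Mu + 2) := Real.log_nonneg (by linarith [(Nat.cast_nonneg μ : (0 : ℝ) ≤ μ)])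
  have hsq : (L : ℝ) * Real.sqrt μ ≤ Real.sqrt (N * L) + L := by
    have h1 : (μ : ℝ) ≤ N / L + 1 := by
      rw [hμ]
      push_cast
      have := @Nat.cast_div_le ℝ _ _ _ N L
      linarith
    have h2 : Real.sqrt μ ≤ Real.sqrt (N / L) + 1 := by
      rw [Real.sqrt_le_left (by positivity)]
      have h3 : Real.sqrt (N / L) ^ 2 = N / L := Real.sq_sqrt (by positivity)
      nlinarith [Real.sqrt_nonneg ((N : ℝ) / L)]
    have h3 : (L : ℝ) * Real.sqrt (N / L) = Real.sqrt (N * L) := by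
      rw [← Real.sqrt_sq (by positivity : (0 : ℝ) ≤ L * Real.sqrt (N / L))]
      congr 1
      rw [mul_pow, Real.sq_sqrt (by positivity)]
      field_simp
    calc (L : ℝ) * Real.sqrt μ ≤ L * (Real.sqrt (N / L) + 1) :=
          mul_le_mul_of_nonneg_left h2 (by positivity)
      _ = Real.sqrt (N * L) + L := by rw [mul_add, h3, mul_one]
  have hb0 : 0 ≤ b := by positivity
  have hLb : (L : ℝ) * b ≤ C0 * (Real.sqrt (N * L) + 2 * L) * (2 * Real.log (N + Mu + 2)) := by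
    have h1 : (L : ℝ) * b = C0 * (L * Real.sqrt μ + L) * Real.log (μ + Mu + 2) := by
      rw [hb]; ring
    rw [h1]
    refine mul_le_mul ?_ hlμ hlμ0 (by positivity)
    refine mul_le_mul_of_nonneg_left ?_ (by positivity)
    linarith
  have h1 : (3 : ℝ) ^ M ≤ Real.exp (8 * L) := by
    calc (3 : ℝ) ^ M ≤ Real.exp 2 ^ M := pow_le_pow_left₀ (by norm_num) Apx_exp2 M
      _ = Real.exp (M * 2) := (Real.exp_nat_mul 2 M).symm
      _ ≤ Real.exp (8 * L) := by
        refine Real.exp_le_exp.2 ?_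
        have : (M : ℝ) ≤ 4 * L := by exact_mod_cast hM1
        linarith
  have h2 : 36 * (Real.exp b) ^ 2 ≤ Real.exp (4 + 2 * b) := by
    rw [Real.exp_add, ← Real.exp_nat_mul]
    push_cast
    exact mul_le_mul_of_nonneg_right Apx_exp4 (Real.exp_pos _).le
  have h3 : (36 * (Real.exp b) ^ 2) ^ (M + 100 * L) ≤ Real.exp (104 * L * (4 + 2 * b)) := by
    calc (36 * (Real.exp b) ^ 2) ^ (M + 100 * L) ≤ Real.exp (4 + 2 * b) ^ (M + 100 * L) :=
          pow_le_pow_left₀ (by positivity) h2 _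
      _ = Real.exp ((M + 100 * L : ℕ) * (4 + 2 * b)) := (Real.exp_nat_mul _ _).symm
      _ ≤ Real.exp (104 * L * (4 + 2 * b)) := by
        refine Real.exp_le_exp.2 (mul_le_mul_of_nonneg_right ?_ (by positivity))
        have : (M : ℝ) ≤ 4 * L := by exact_mod_cast hM1
        push_cast
        linarith
  calc (3 : ℝ) ^ M * (36 * (Real.exp b) ^ 2) ^ (M + 100 * L) ≤
      Real.exp (8 * L) * Real.exp (104 * L * (4 + 2 * b)) :=
        mul_le_mul h1 h3 (by positivity) (Real.exp_pos _).le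
    _ = Real.exp (424 * L + 208 * (L * b)) := by
      rw [← Real.exp_add]
      congr 1
      ring
    _ ≤ _ := by
      refine Real.exp_le_exp.2 ?_
      have h4 : (424 : ℝ) * L ≤ 848 * L * Real.log (N + Mu + 2) := by nlinarith
      have h5 : (208 : ℝ) * (L * b) ≤
          208 * (C0 * (Real.sqrt (N * L) + 2 * L) * (2 * Real.log (N + Mu + 2))) :=
        mul_le_mul_of_nonneg_left hLb (by norm_num)
      have hs : 0 ≤ Real.sqrt ((N : ℝ) * L) := Real.sqrt_nonneg _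
      have hl0 : 0 ≤ Real.log ((N : ℝ) + Mu + 2) := by linarith
      have hC : (0 : ℝ) ≤ C0 := Nat.cast_nonneg C0
      push_cast
      have h6 : 848 * (L : ℝ) + 416 * C0 * (Real.sqrt (N * L) + 2 * L) ≤
          (848 + 832 * C0) * (Real.sqrt (N * L) + L + 1) := by
        nlinarith [mul_nonneg hC hs]
      calc 424 * (L : ℝ) + 208 * (L * b) ≤ 848 * L * Real.log (N + Mu + 2) +
            208 * (C0 * (Real.sqrt (N * L) + 2 * L) * (2 * Real.log (N + Mu + 2))) := add_le_add h4 h5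
        _ = (848 * (L : ℝ) + 416 * C0 * (Real.sqrt (N * L) + 2 * L)) * Real.log (N + Mu + 2) := by ring
        _ ≤ _ := mul_le_mul_of_nonneg_right h6 hl0

/-- [Apx] the approximation theorem -/
theorem ApxM_main (hA : St_Wta) (hK : St_WkbM) (hP : St_Pcs) (hS : St_Sgn) :
    St_ApxM := by
  obtain ⟨C0, hC0, hK⟩ := hK
  refine ⟨848 + 832 * C0, by omega, ?_⟩
  intro X V S z Mu hMu hz F L
  rcases Nat.eq_zero_or_pos L with hL | hL
  · subst hL
    refine ⟨fun _ => 0, ⟨0, Fin.elim0, Fin.elim0, fun i => i.elim0, ?_, fun x => by simp⟩,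
      fun x => ?_⟩
    · rw [Fin.sum_univ_zero]
      exact (Real.exp_pos _).le
    · rw [pow_zero]
      exact Apx_ind _
  · obtain ⟨μ, hμ⟩ : ∃ μ, μ = F.size / L + 1 := ⟨_, rfl⟩
    obtain ⟨M, hM⟩ : ∃ M, M = 3 * F.size / μ + 1 := ⟨_, rfl⟩
    have hμ1 : 1 ≤ μ := by rw [hμ]; exact Nat.le_add_left 1 _
    obtain ⟨n, c, s, hs, hc, hsum⟩ := hP V F μ hμ1
    rw [← hM] at hs hc
    obtain ⟨B, hBd⟩ : ∃ B, B = Real.exp (C0 * (Real.sqrt μ + 1) * Real.log (μ + Mu + 2)) := ⟨_, rfl⟩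
    have hB1 : 1 ≤ B := by
      rw [hBd]
      refine Real.one_le_exp ?_
      have : 0 ≤ Real.log ((μ : ℝ) + Mu + 2) :=
        Real.log_nonneg (by linarith [(Nat.cast_nonneg μ : (0 : ℝ) ≤ μ)])
      positivity
    have hKP : ∀ P : BF V, P.size ≤ μ → ∃ r : X → ℝ, Wt (S : Set (X → ℝ)) B r ∧
        (∀ x, 0 ≤ r x ∧ r x ≤ 1) ∧ ∀ x, |r x - ind (P.eval (z x))| ≤ 1 / 8 := by
      intro P hPμ
      obtain ⟨r, hr1, hr2, hr3⟩ := hK X V S z Mu hMu hz P
      refine ⟨r, (hA X).1 _ _ _ _ ?_ hr1, hr2, hr3⟩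
      rw [hBd]
      refine Real.exp_le_exp.2 ?_
      have h1 : (P.size : ℝ) ≤ μ := by exact_mod_cast hPμ
      have h2 : Real.sqrt P.size ≤ Real.sqrt μ := Real.sqrt_le_sqrt h1
      have h3 : Real.log ((P.size : ℝ) + Mu + 2) ≤ Real.log ((μ : ℝ) + Mu + 2) :=
        Real.log_le_log (by positivity) (by linarith)
      have h4 : 0 ≤ Real.log ((P.size : ℝ) + Mu + 2) :=
        Real.log_nonneg (by linarith [(Nat.cast_nonneg P.size : (0 : ℝ) ≤ P.size)])
      refine mul_le_mul (mul_le_mul_of_nonneg_left (by linarith) (Nat.cast_nonneg C0)) h3 h4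
        (by positivity)
    have hpc := fun i => Apx_piece hA hS hB1 (M := M) (J := 100 * L) hKP (hs i)
    choose q hq1 hq2 using hpc
    refine ⟨fun x => ∑ i, c i * q i x, ?_, fun x => ?_⟩
    · have hW0 : (0 : ℝ) ≤ (36 * B ^ 2) ^ (M + 100 * L) := by positivity
      have h1 := (hA X).2.2.2.2.1 (S : Set (X → ℝ)) (Fin n) Finset.univ
        (fun i => |c i| * (36 * B ^ 2) ^ (M + 100 * L)) (fun i x => c i * q i x)
        (fun i _ => (hA X).2.2.2.1 _ _ _ _ (hq1 i))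
      refine (hA X).1 _ _ _ _ ?_ h1
      rw [← Finset.sum_mul]
      refine (mul_le_mul_of_nonneg_right hc hW0).trans ?_
      rw [hBd]
      exact ApxM_num2 hMu C0 F.size L μ M hL hμ hM
    · have h0 : ind (F.eval (z x)) = ∑ i, c i * s i (z x) := hsum (z x)
      show |(∑ i, c i * q i x) - ind (F.eval (z x))| ≤ (1 / 2) ^ L
      rw [h0, ← Finset.sum_sub_distrib]
      refine (Finset.abs_sum_le_sum_abs _ _).trans ?_
      have h1 : ∀ i ∈ Finset.univ, |c i * q i x - c i * s i (z x)| ≤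
          |c i| * (3 ^ M * (3 / 4) ^ (100 * L)) := by
        intro i _
        rw [← mul_sub, abs_mul]
        exact mul_le_mul_of_nonneg_left (hq2 i x) (abs_nonneg _)
      refine (Finset.sum_le_sum h1).trans ?_
      rw [← Finset.sum_mul]
      refine (mul_le_mul_of_nonneg_right hc (by positivity)).trans ?_
      exact Apx_err F.size L μ M hL hμ hM

theorem all_WkbM : St_WkbM := ApxM_wkb thm_Wta all_Wtb thm_Adv thm_Wka

/-- every formula of size `N` with leaves of weight `Mu` is approximated with error `2 ^ (-L)` by a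
combination of weight `exp (C (sqrt (N L) + L + 1) log (N + Mu + 2))` -/
theorem all_ApxM : St_ApxM :=
  ApxM_main thm_Wta all_WkbM (thm_Pcs thm_Wta thm_Sep) all_Sgn

end Pool.Agent.FRM
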