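import Pool.Agent.FRM.StV
import Pool.Agent.KCL.PoolR
import Pool.Agent.KCL.Tests
import Pool.Agent.KCL.Gip

/-!
# FRM: from boxes to uniform inputs
-/

set_option autoImplicit false

namespace Pool.Agent.FRM

open Finset Pool.Agent.SW Pool.Agent.KCL

/-- if a function has a small correlation with the generalised inner product after all good
restrictions, then it has a small correlation with the parity of the majorities of the rows -/
def St_Avg : Prop := ∀ (a b q n : ℕ) (p ε β : ℝ) (Good : (Fin a × Fin b → Option Bool) → Prop)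
  (F : (Fin a × Fin b → Bool) → ℝ), 0 < p → p ≤ 1 → 1 ≤ q → 8 * ((q : ℝ) + 1) ≤ p * b → 0 ≤ β →
  W p (fun ρ => ¬ Good ρ) ≤ ε → (∀ x, |F x| ≤ 1) →
  (∀ ρ, Good ρ → ∀ (own : Fin a × Fin b → Option (Fin q × Fin n)) (cst : Fin a × Fin b → Bool),
    (∀ y, app ρ (emb own cst y) = emb own cst y) →
    |∑ y : Fin q → Fin n → Bool, F (emb own cst y) * gip y| ≤
      β * Fintype.card (Fin q → Fin n → Bool)) →
  |∑ x, F x * (-1) ^ rws x| ≤
    (β + ε + 2 ^ n * Real.exp (-(a / (2 ^ (q + 3) * (b + 1))))) * 2 ^ (a * b)

section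

variable {ι : Type} [Fintype ι] [DecidableEq ι]

/-- the restriction -/
def Avg_rho (L x : ι → Bool) : ι → Option Bool := fun v => if L v = true then none else some (x v)

theorem Avg_sumprod (g : ι → Bool → ℝ) :
    ∑ L : ι → Bool, ∏ v, g v (L v) = ∏ v, ∑ c, g v c := by
  rw [Finset.prod_univ_sum, Fintype.piFinset_univ]

theorem Avg_pw (p : ℝ) : ∑ L : ι → Bool, pw p L = 1 := by
  unfold pw
  rw [Avg_sumprod fun _ c => if c = true then p else 1 - p]
  refine Finset.prod_eq_one fun v _ => ?_
  rw [Fintype.sum_bool]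
  simp

theorem Avg_one (p : ℝ) (ρ : ι → Option Bool) : ∑ L : ι → Bool, ∑ x : ι → Bool,
    (if Avg_rho L x = ρ then pw p L else 0) = 2 ^ Fintype.card ι * wt p ρ := by
  have h1 : ∀ L x : ι → Bool, (if Avg_rho L x = ρ then pw p L else 0) =
      ∏ v, if (if L v = true then none else some (x v)) = ρ v then
        (if L v = true then p else 1 - p) else 0 := by
    intro L x
    by_cases h : Avg_rho L x = ρ
    · rw [if_pos h]
      unfold pw
      refine Finset.prod_congr rfl fun v _ => ?_
      rw [if_pos (show (if L v = true then none else some (x v)) = ρ v from congrFun h v)]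
    · rw [if_neg h]
      obtain ⟨v, hv⟩ := Function.ne_iff.1 h
      exact (Finset.prod_eq_zero (mem_univ v) (if_neg hv)).symm
  simp only [h1]
  have h2 : ∀ L : ι → Bool, ∑ x : ι → Bool, ∏ v,
      (if (if L v = true then none else some (x v)) = ρ v then
        (if L v = true then p else 1 - p) else 0) =
      ∏ v, ∑ c : Bool, if (if L v = true then none else some c) = ρ v then
        (if L v = true then p else 1 - p) else 0 := fun L =>
    Avg_sumprod fun v c => if (if L v = true then none else some c) = ρ v then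
        (if L v = true then p else 1 - p) else 0
  simp only [h2]
  rw [Avg_sumprod fun v d => ∑ c : Bool, if (if d = true then none else some c) = ρ v then
        (if d = true then p else 1 - p) else 0]
  unfold wt
  rw [← Finset.card_univ, ← Finset.prod_const, ← Finset.prod_mul_distrib]
  refine Finset.prod_congr rfl fun v _ => ?_
  rw [Fintype.sum_bool, Fintype.sum_bool, Fintype.sum_bool]
  rcases ρ v with _ | c
  · simp [w1]
    ring
  · cases c
    · simp [w1]
      ring
    · simp [w1]
      ring

open Classical in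
theorem Avg_push (p : ℝ) (G : (ι → Option Bool) → Prop) : ∑ L : ι → Bool, ∑ x : ι → Bool,
    (if G (Avg_rho L x) then pw p L else 0) = 2 ^ Fintype.card ι * W p G := by
  unfold W
  rw [Finset.mul_sum]
  have h1 : ∀ ρ : ι → Option Bool, 2 ^ Fintype.card ι * (if G ρ then wt p ρ else 0) =
      ∑ L : ι → Bool, ∑ x : ι → Bool, if Avg_rho L x = ρ then (if G ρ then pw p L else 0) else 0 := by
    intro ρ
    by_cases hG : G ρ
    · simp only [if_pos hG]
      exact (Avg_one p ρ).symm
    · simp only [if_neg hG, ite_self, Finset.sum_const_zero, mul_zero]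
  rw [Finset.sum_congr rfl fun ρ _ => h1 ρ]
  symm
  rw [Finset.sum_comm]
  refine Finset.sum_congr rfl fun L _ => ?_
  rw [Finset.sum_comm]
  refine Finset.sum_congr rfl fun x _ => ?_
  rw [Finset.sum_ite_eq, if_pos (mem_univ _)]

end

theorem thm_Avg (hR : St_AvR) (hP : St_AvP) (hI : St_AvI) : St_Avg := by
  classical
  intro a b q n p ε β Good F hp0 hp1 hq hb hβ hW hF hG
  have hb0 : 0 < b := by
    rcases Nat.eq_zero_or_pos b with h | h
    · rw [h] at hb
      simp only [Nat.cast_zero, mul_zero] at hb
      have : (0 : ℝ) ≤ q := Nat.cast_nonneg q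
      linarith
    · exact h
  have hQ : ∀ l : Fin b → Bool, ∃ φ : Fin q → Fin b,
      q ≤ (univ.filter fun c => l c = true).card →
        Function.Injective φ ∧ ∀ i, l (φ i) = true := by
    intro l
    by_cases h : q ≤ (univ.filter fun c => l c = true).card
    · obtain ⟨s, hs, hcard⟩ := Finset.exists_subset_card_eq h
      refine ⟨fun i => (s.orderIsoOfFin hcard i : Fin b), fun _ => ⟨?_, fun i => ?_⟩⟩
      · intro i j hij
        exact (s.orderIsoOfFin hcard).injective (Subtype.ext hij)
      · have h1 := hs (s.orderIsoOfFin hcard i).2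
        rw [Finset.mem_filter] at h1
        exact h1.2
    · exact ⟨fun _ => ⟨0, hb0⟩, fun h' => absurd h' h⟩
  choose Q hQ using hQ
  have hpw : ∀ L : Fin a × Fin b → Bool, 0 ≤ pw p L := by
    intro L
    unfold pw
    refine Finset.prod_nonneg fun v _ => ?_
    split_ifs <;> linarith
  set J : (Fin a × Fin b → Bool) → (Fin a × Fin b → Bool) → ℕ := fun L x =>
    (univ.filter fun j : Fin a => RowJ q Q (fun c => L (j, c)) (fun c => x (j, c))).card with hJ
  set Φ : (Fin a × Fin b → Bool) → ℝ := fun x => F x * (-1) ^ rws x with hΦ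
  have hΦ1 : ∀ x, |Φ x| ≤ 1 := by
    intro x
    rw [hΦ]
    simp only [abs_mul, abs_pow, abs_neg, abs_one, one_pow, mul_one]
    exact hF x
  -- the good part
  have hA : ∀ L : Fin a × Fin b → Bool,
      |∑ x, if Good (Avg_rho L x) ∧ n ≤ J L x then Φ x else 0| ≤ β * 2 ^ (a * b) := by
    intro L
    refine hI a b q n L Q F (fun x => Good (Avg_rho L x)) β hβ hq hQ ?_ ?_
    · intro x x' hx h
      have h1 : Avg_rho L x' = Avg_rho L x := by
        funext v
        unfold Avg_rho
        by_cases hv : L v = true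
        · rw [if_pos hv, if_pos hv]
        · rw [if_neg hv, if_neg hv, hx v (Bool.eq_false_iff.2 hv)]
      show Good (Avg_rho L x')
      rw [h1]
      exact h
    · intro x hx own hown
      have h1 : ∀ y : Fin q → Fin n → Bool, em own x y = emb own x y := by
        intro y
        funext v
        unfold em emb
        cases own v <;> rfl
      have h2 := hG _ hx own x (by
        intro y
        funext v
        unfold app Avg_rho
        by_cases hv : L v = true
        · rw [if_pos hv]
          rfl
        · rw [if_neg hv]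
          have h3 : own v = none := by
            by_contra h4
            exact hv (hown v h4)
          unfold emb
          rw [h3]
          rfl)
      have h3 : (Fintype.card (Fin q → Fin n → Bool) : ℝ) = 2 ^ (q * n) := by
        simp only [Fintype.card_pi, Fintype.card_bool, Finset.prod_const, Finset.card_univ,
          Fintype.card_fin]
        push_cast
        rw [← pow_mul, mul_comm]
      rw [h3] at h2
      refine le_trans (le_of_eq ?_) h2
      congr 1
      refine Finset.sum_congr rfl fun y _ => ?_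
      rw [h1]
      refine congrArg _ (Finset.prod_congr rfl fun k _ => ?_)
      by_cases h : ∀ i, y i k = true
      · rw [if_pos h, if_pos h]
      · rw [if_neg h, if_neg h]
  -- the other part
  have hB : ∀ L : Fin a × Fin b → Bool, |∑ x, Φ x| ≤ β * 2 ^ (a * b) +
      ((∑ x, if ¬ Good (Avg_rho L x) then (1 : ℝ) else 0) +
        ∑ x, if J L x < n then (1 : ℝ) else 0) := by
    intro L
    have h1 : ∑ x, Φ x = (∑ x, if Good (Avg_rho L x) ∧ n ≤ J L x then Φ x else 0) +
        ∑ x, if Good (Avg_rho L x) ∧ n ≤ J L x then 0 else Φ x := by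
      rw [← Finset.sum_add_distrib]
      refine Finset.sum_congr rfl fun x _ => ?_
      split_ifs <;> ring
    rw [h1]
    refine (abs_add_le _ _).trans (add_le_add (hA L) ?_)
    rw [← Finset.sum_add_distrib]
    refine (Finset.abs_sum_le_sum_abs _ _).trans (Finset.sum_le_sum fun x _ => ?_)
    by_cases h2 : Good (Avg_rho L x)
    · by_cases h3 : n ≤ J L x
      · rw [if_pos ⟨h2, h3⟩, if_neg (not_not.2 h2), if_neg (not_lt.2 h3), abs_zero, add_zero]
      · rw [if_neg fun h => h3 h.2, if_neg (not_not.2 h2), if_pos (not_le.1 h3), zero_add]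
        exact hΦ1 x
    · rw [if_neg fun h => h2 h.1, if_pos h2]
      have h3 := hΦ1 x
      have h4 : (0 : ℝ) ≤ if J L x < n then (1 : ℝ) else 0 := by split_ifs <;> norm_num
      linarith
  -- averaging
  have hC : |∑ x, Φ x| ≤ β * 2 ^ (a * b) +
      ((∑ L : Fin a × Fin b → Bool, ∑ x : Fin a × Fin b → Bool,
        if ¬ Good (Avg_rho L x) then pw p L else 0) +
        ∑ L : Fin a × Fin b → Bool, ∑ x : Fin a × Fin b → Bool,
          if J L x < n then pw p L else 0) := by
    have h1 : |∑ x, Φ x| = ∑ L : Fin a × Fin b → Bool, pw p L * |∑ x, Φ x| := by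
      rw [← Finset.sum_mul, Avg_pw, one_mul]
    rw [h1]
    refine (Finset.sum_le_sum fun L _ => mul_le_mul_of_nonneg_left (hB L) (hpw L)).trans
      (le_of_eq ?_)
    simp only [mul_add, Finset.sum_add_distrib, Finset.mul_sum]
    rw [← Finset.sum_mul, Avg_pw, one_mul]
    congr 1
    congr 1
    · refine Finset.sum_congr rfl fun L _ => Finset.sum_congr rfl fun x _ => ?_
      split_ifs <;> ring
    · refine Finset.sum_congr rfl fun L _ => Finset.sum_congr rfl fun x _ => ?_
      split_ifs <;> ring
  have hcard : (2 : ℝ) ^ Fintype.card (Fin a × Fin b) = 2 ^ (a * b) := by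
    rw [Fintype.card_prod, Fintype.card_fin, Fintype.card_fin]
  have hD : (∑ L : Fin a × Fin b → Bool, ∑ x : Fin a × Fin b → Bool,
      if ¬ Good (Avg_rho L x) then pw p L else 0) ≤ ε * 2 ^ (a * b) := by
    have h1 := Avg_push p fun ρ : Fin a × Fin b → Option Bool => ¬ Good ρ
    rw [hcard] at h1
    have h2 : (∑ L : Fin a × Fin b → Bool, ∑ x : Fin a × Fin b → Bool,
        if ¬ Good (Avg_rho L x) then pw p L else 0) = 2 ^ (a * b) * W p fun ρ => ¬ Good ρ := by
      rw [← h1]
      refine Finset.sum_congr rfl fun L _ => Finset.sum_congr rfl fun x _ => ?_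
      by_cases h : ¬ Good (Avg_rho L x)
      · rw [if_pos h, if_pos h]
      · rw [if_neg h, if_neg h]
    rw [h2, mul_comm]
    exact mul_le_mul_of_nonneg_right hW (by positivity)
  have hE : (∑ L : Fin a × Fin b → Bool, ∑ x : Fin a × Fin b → Bool,
      if J L x < n then pw p L else 0) ≤
      2 ^ n * Real.exp (-(a / (2 ^ (q + 3) * (b + 1)))) * 2 ^ (a * b) := by
    have h1 := hP a b n p (1 / (2 ^ (q + 1) * (b + 1))) (RowJ q Q) hp0.le hp1
      (hR b q p Q hp0 hp1 hb fun l hl => (hQ l hl).1)
    refine h1.trans ?_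
    refine mul_le_mul_of_nonneg_right (mul_le_mul_of_nonneg_left ?_ (by positivity)) (by positivity)
    refine Real.exp_le_exp.2 (neg_le_neg ?_)
    have h2 : (a : ℝ) * (1 / (2 ^ (q + 1) * (b + 1))) / 2 =
        2 * (a / (2 ^ (q + 3) * (b + 1))) := by
      have : (2 : ℝ) ^ (q + 3) = 2 ^ (q + 1) * 4 := by rw [pow_add, pow_add]; ring
      rw [this]
      field_simp
      ring
    rw [h2]
    have h3 : (0 : ℝ) ≤ a / (2 ^ (q + 3) * (b + 1)) := by positivity
    linarith
  calc |∑ x, Φ x| ≤ _ := hC
    _ ≤ β * 2 ^ (a * b) + (ε * 2 ^ (a * b) +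
        2 ^ n * Real.exp (-(a / (2 ^ (q + 3) * (b + 1)))) * 2 ^ (a * b)) := by
      linarith
    _ = _ := by ring

end Pool.Agent.FRM
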