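import Mathlib

/-!
# FRM: formulas as combinations of products of leaves

Every function computed by a formula with `N` leaves is, up to an error `2 ^ (-L)`, a real
combination of products of the indicators of the leaves with sum of absolute values of the
coefficients at most `exp (C * (sqrt (N * L) + L + 1) * log (N + 2))`.

Every module `Pool/Agent/FRM/<X>.lean` imports this file and proves `theorem thm_<X> : St_<X>` (with the
hypotheses named in the docstring), namespace `Pool.Agent.FRM`, own lemmas with names starting with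
the name of the module. The docstrings contain the proofs.
-/

set_option autoImplicit false

namespace Pool.Agent.FRM

/-- Binary formulas with leaves in `V`. -/
inductive BF (V : Type) : Type where
  | tt : BF V
  | var : V → BF V
  | not : BF V → BF V
  | and : BF V → BF V → BF V

namespace BF

variable {V : Type}

/-- the value of a formula -/
def eval (z : V → Bool) : BF V → Bool
  | tt => true
  | var v => z v
  | not F => !(eval z F)
  | and F G => eval z F && eval z G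

/-- the number of leaves -/
def size : BF V → ℕ
  | tt => 0
  | var _ => 1
  | not F => F.size
  | and F G => F.size + G.size

end BF

/-- the indicator of a truth value -/
def ind (b : Bool) : ℝ := if b then 1 else 0

/-- `f` is a combination of functions in `S`, the sum of the absolute values of the coefficients is
at most `B` -/
def Wt {X : Type} (S : Set (X → ℝ)) (B : ℝ) (f : X → ℝ) : Prop :=
  ∃ (n : ℕ) (c : Fin n → ℝ) (s : Fin n → X → ℝ), (∀ i, s i ∈ S) ∧ (∑ i, |c i|) ≤ B ∧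
    ∀ x, f x = ∑ i, c i * s i x

/-- **WTA.** closure properties. Routine (`Fin.append`, `finProdFinEquiv`; for the sums
induction). -/
def St_Wta : Prop := ∀ (X : Type),
  (∀ (S : Set (X → ℝ)) (B B' : ℝ) (f : X → ℝ), B ≤ B' → Wt S B f → Wt S B' f) ∧
  (∀ (S : Set (X → ℝ)) (f : X → ℝ), f ∈ S → Wt S 1 f) ∧
  (∀ (S : Set (X → ℝ)) (B B' : ℝ) (f g : X → ℝ), Wt S B f → Wt S B' g →
    Wt S (B + B') (fun x => f x + g x)) ∧
  (∀ (S : Set (X → ℝ)) (B a : ℝ) (f : X → ℝ), Wt S B f → Wt S (|a| * B) (fun x => a * f x)) ∧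
  (∀ (S : Set (X → ℝ)) (ι : Type) (s : Finset ι) (B : ι → ℝ) (f : ι → X → ℝ),
    (∀ i ∈ s, Wt S (B i) (f i)) → Wt S (∑ i ∈ s, B i) (fun x => ∑ i ∈ s, f i x)) ∧
  (∀ (S S' : Set (X → ℝ)) (B B' : ℝ) (f : X → ℝ), (∀ g ∈ S, Wt S' B' g) → 0 ≤ B' → Wt S B f →
    Wt S' (B * B') f)

/-- **WTB** (from `St_Wta`, if you like).  closure under products, `S` a submonoid. Routine. -/
def St_Wtb : Prop := ∀ (X : Type) (S : Submonoid (X → ℝ)),
  (∀ a : ℝ, Wt (S : Set (X → ℝ)) |a| (fun _ => a)) ∧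
  (∀ (B B' : ℝ) (f g : X → ℝ), Wt (S : Set (X → ℝ)) B f → Wt (S : Set (X → ℝ)) B' g →
    Wt (S : Set (X → ℝ)) (B * B') (fun x => f x * g x)) ∧
  (∀ (B : ℝ) (f : X → ℝ) (k : ℕ), Wt (S : Set (X → ℝ)) B f →
    Wt (S : Set (X → ℝ)) (B ^ k) (fun x => f x ^ k))

/-- **ADV.**  The adversary weights of a formula.  PROOF.  Induction on `F`, `Fin (a + b)` for `and`.
`tt`: nothing. `var v`: `lab = v`, `w = 1`. `not F`: the same. `and F G`: if one of the sizes is 0, the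
value of this part is constant (easy induction), and if it is true, take the weights of the other
part (and anything, e.g. 0, if it is false). Otherwise let `a, b > 0` be the sizes,
`W_F = sqrt a`, `W_G = sqrt b`, `W = sqrt (a + b)`. If both parts are true at `z`: on the leaves of `F`
`w z = sqrt (W_F / W) * w_F z`, on the leaves of `G` `sqrt (W_G / W) * w_G z`: the sum of squares is
at most `(W_F ^ 2 + W_G ^ 2) / W = W`. If `F` is false at `z`: `w z = sqrt (W / W_F) * w_F z` on the leaves of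
`F`, 0 on `G`: the sum of squares is `≤ W`. If `F` is true and `G` is false: `sqrt (W / W_G) * w_G z` on the
leaves of `G`, 0 on `F`. For `z, z'` with different values, one of them makes both parts true and the
other one makes `F` (say) false: the sum over the leaves of `G` is 0 and over those of `F` it is
`sqrt (W_F / W) * sqrt (W / W_F) * 1 = 1`. -/
def St_Adv : Prop := ∀ (V : Type) (F : BF V), ∃ (lab : Fin F.size → V)
  (w : (V → Bool) → Fin F.size → ℝ), (∀ z, ∑ i, w z i ^ 2 ≤ Real.sqrt F.size) ∧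
    ∀ z z', F.eval z ≠ F.eval z' →
      ∑ i, (if z (lab i) ≠ z' (lab i) then w z i * w z' i else 0) = 1

/-- **WKA.**  The averaged walk.  PROOF.  `E = EuclideanSpace ℝ (Option (Fin N × Bool))`, basis
`e_0 = single none 1`, `e_(i,b) = single (some (i, b)) 1`; `ε ^ 2 = 1 / 8`. For `f x = true` put
`u_x = e_0 + (ε / sqrt W) ∑ i, w x i • e_(i, z x i)`, and for `f y = false`
`v_y = e_0 - (sqrt W / ε) ∑ i, w y i • e_(i, !z y i)`. The inner product is
`1 - ∑ i, [z x i ≠ z y i] w x i * w y i = 0`. `U` = the span of all `v_y`, `T` = the reflection in the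
orthogonal complement of `U` (`Submodule.reflection Uᗮ`, a linear isometry; `T v_y = -v_y`, `T u_x = u_x`),
`D x` = the diagonal operator with the signs `sg x none = 1`, `sg x (some (i, b)) = if z x i = b then 1
else -1` (an isometry), `R_x = D x ∘ T`.
`f x = true`: `R_x u_x = u_x`, so `⟪u_x, R_x v⟫ = ⟪R_x u_x, R_x v⟫ = ⟪u_x, v⟫`, `⟪u_x, R_x^k e_0⟫ = ⟪u_x, e_0⟫ = 1`,
and with `a = (1/n) ∑_{k<n} R_x^k e_0` Cauchy-Schwarz gives `1 ≤ |u_x| |a|`, `|u_x|^2 ≤ 1 + ε^2 = 9/8`.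
`f x = false`: `D x (v_x) = 2 e_0 - v_x`, so `R_x v_x = -D x v_x = v_x - 2 e_0`,
`R_x^k e_0 = (R_x^k v_x - R_x^(k+1) v_x) / 2`, `a = (v_x - R_x^n v_x) / (2n)`, `|a| ≤ |v_x| / n`,
`|v_x|^2 ≤ 1 + W^2 / ε^2 = 1 + 8 W^2`. Always `|a| ≤ 1`. The matrix `A` of `T` has entries of absolute value
at most 1 and `y k x` is the vector `R_x^k e_0`. -/
def St_Wka : Prop := ∀ (X : Type) (N : ℕ) (z : X → Fin N → Bool) (w : X → Fin N → ℝ)
  (f : X → Bool) (W : ℝ) (n : ℕ), 0 < W → 1 ≤ n → (∀ x, ∑ i, w x i ^ 2 ≤ W) →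
  (∀ x y, f x ≠ f y → ∑ i, (if z x i ≠ z y i then w x i * w y i else 0) = 1) →
  8 * (1 + 8 * W ^ 2) ≤ (n : ℝ) ^ 2 →
  ∃ (A : Option (Fin N × Bool) → Option (Fin N × Bool) → ℝ)
    (y : ℕ → X → Option (Fin N × Bool) → ℝ), (∀ i j, |A i j| ≤ 1) ∧
    (∀ x i, y 0 x i = if i = none then 1 else 0) ∧
    (∀ k x i, y (k + 1) x i = (match i with
      | none => 1
      | some (j, b) => if z x j = b then (1 : ℝ) else -1) * ∑ j, A i j * y k x j) ∧
    (∀ x, ∑ i, ((1 / (n : ℝ)) * ∑ k ∈ Finset.range n, y k x i) ^ 2 ≤ 1) ∧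
    (∀ x, f x = true → 8 / 9 ≤ ∑ i, ((1 / (n : ℝ)) * ∑ k ∈ Finset.range n, y k x i) ^ 2) ∧
    ∀ x, f x = false → ∑ i, ((1 / (n : ℝ)) * ∑ k ∈ Finset.range n, y k x i) ^ 2 ≤ 1 / 8

/-- **WKB** (from `St_Wta`, `St_Wtb`, `St_Adv`, `St_Wka`).  Constant error.  PROOF.  If `F.size = 0` the value
of `F` is constant and `r` is a constant. Otherwise use `St_Adv` and `St_Wka` for `X = X`,
`z' x i = z x (lab i)`, `w' x = w (z x)`, `f x = F.eval (z x)`, `W = sqrt N`, `n = 9 * Nat.sqrt N + 20` or any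
`n` with `8 (1 + 8 N) ≤ n ^ 2`, `n ≤ 40 * (sqrt N + 1)`, and
`r x = ∑ i, ((1/n) ∑ k<n, y k x i)^2`. By induction `Wt S ((3 * (2 * N + 1)) ^ k) (fun x => y k x i)`: the
sign `if z = b then 1 else -1` is `2 ind z - 1` or `1 - 2 ind z`, of weight 3. So
`Wt S ((2 * N + 1) * (3 * (2 * N + 1)) ^ (2 * n)) r`, and this is at most the bound. -/
def St_Wkb : Prop := ∃ C : ℕ, 1 ≤ C ∧ ∀ (X V : Type) (S : Submonoid (X → ℝ)) (z : X → V → Bool),
  (∀ v, (fun x => ind (z x v)) ∈ S) → ∀ F : BF V, ∃ r : X → ℝ,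
    Wt (S : Set (X → ℝ)) (Real.exp (C * (Real.sqrt F.size + 1) * Real.log (F.size + 2))) r ∧
    (∀ x, 0 ≤ r x ∧ r x ≤ 1) ∧ ∀ x, |r x - ind (F.eval (z x))| ≤ 1 / 8

/-- **SEP.**  A separator.  PROOF.  Induction on `F`. `tt`, `var`: impossible. `not F'`: by induction for `F'`, with
`not F_1`, `not F_0`. `and A B`: if `τ < A.size`, by induction for `A`, with `and F_1 B`, `and F_0 B`;
similarly if `τ < B.size`; otherwise `C` is the larger one of `A` and `B`, say `A` (`2 * A.size ≥ F.size > τ`,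
`A.size ≤ τ`), `F_1 = B` (size `F.size - A.size`), `F_0 = and (not tt) B`. -/
def St_Sep : Prop := ∀ (V : Type) (F : BF V) (τ : ℕ), 1 ≤ τ → τ < F.size → ∃ C F1 F0 : BF V,
  τ < 2 * C.size ∧ C.size ≤ τ ∧ F1.size + C.size = F.size ∧ F0.size + C.size = F.size ∧
    ∀ z, F.eval z = if C.eval z then F1.eval z else F0.eval z

/-- products of at most `M` formulas of size at most `μ` -/
def PP (V : Type) (μ M : ℕ) : Set ((V → Bool) → ℝ) :=
  {g | ∃ l : List (BF V), l.length ≤ M ∧ (∀ P ∈ l, P.size ≤ μ) ∧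
    ∀ z, g z = (l.map fun P => ind (P.eval z)).prod}

/-- **PCS** (from `St_Wta`, `St_Sep`).  Pieces.  PROOF.  Claim: if `μ ≤ 3 * F.size` then for some `M` with
`M * μ ≤ 3 * F.size`, `1 ≤ M`, `Wt (PP V μ M) (3 ^ (M - 1)) (ind F)`. Strong induction on the size `s` of `F`.
If `s ≤ μ`: `M = 1`. If `μ < s`: `St_Sep` with `τ = 2 * s / 3` (`s ≥ 2`): `s ≤ 3 * C.size` and `3 * C.size ≤ 2 * s`, so
the sizes of `C`, `F_1`, `F_0` are smaller than `s` and at least `s / 3 ≥ μ / 3`. With the numbers `M_C`, `M_1`,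
`M_0` take `M = M_C + max M_1 M_0`; `ind F = ind C * ind F_1 + ind F_0 - ind C * ind F_0`, products of elements of
`PP V μ M_C` and `PP V μ M_1` are in `PP V μ (M_C + M_1)`, weight
`3 ^ (M_C - 1) * 3 ^ (M_1 - 1) + 3 ^ (M_0 - 1) + 3 ^ (M_C - 1) * 3 ^ (M_0 - 1) ≤ 3 ^ (M - 1)`.
If `3 * F.size < μ` take `M = 1` for the theorem. -/
def St_Pcs : Prop := ∀ (V : Type) (F : BF V) (μ : ℕ), 1 ≤ μ →
  Wt (PP V μ (3 * F.size / μ + 1)) (3 ^ (3 * F.size / μ + 1)) (fun z => ind (F.eval z))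

/-- the majority of `2 * k + 1` independent bits which are true with probability `r` -/
noncomputable def maj (k : ℕ) (r : ℝ) : ℝ :=
  ∑ j ∈ Finset.Ioc k (2 * k + 1), ((2 * k + 1).choose j : ℝ) * r ^ j * (1 - r) ^ (2 * k + 1 - j)

/-- **MAJ** (from `St_Wta`, `St_Wtb`).  PROOF.  (1) `maj 0 r = r`. (2) For `0 ≤ r ≤ 1/8` every term is at most
`choose * r ^ (k + 1)`, so `maj k r ≤ 2 ^ (2k+1) * 8⁻¹ ^ (k+1) = (1/4) * (1/2)^k`; for `7/8 ≤ r ≤ 1` the same for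
`1 - maj k r = ∑_{j ≤ k} choose * r^j * (1-r)^(2k+1-j)` (binomial theorem). (3) the weight is at most
`∑ j, choose * B^j * (1+B)^(2k+1-j) ≤ (1 + 2B)^(2k+1) ≤ (3B)^(2k+1)`. -/
def St_Maj : Prop := (∀ r, maj 0 r = r) ∧
  (∀ (k : ℕ) (r : ℝ) (b : Bool), 0 ≤ r → r ≤ 1 → |r - ind b| ≤ 1 / 8 →
    |maj k r - ind b| ≤ 1 / 4 * (1 / 2) ^ k) ∧
  ∀ (X : Type) (S : Submonoid (X → ℝ)) (B : ℝ) (f : X → ℝ) (k : ℕ), 1 ≤ B →
    Wt (S : Set (X → ℝ)) B f →
    Wt (S : Set (X → ℝ)) ((3 * B) ^ (2 * k + 1)) (fun x => maj k (f x))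

/-- **SGN** (from `St_Wta`, `St_Wtb`, `St_Maj`).  A product of `m` bits known with error `1 / 8`.  PROOF.  For one
bit `ρ` with approximation `r`: `a 0 = r`, `a (i + 1) = maj (i + 1) r - maj i r`; `|a i| ≤ (1/2)^i`,
`|ρ - ∑_{i ≤ J} a i| = |ρ - maj J r| ≤ (1/4) (1/2)^J`, weight of `a i` at most `U ^ (i + 1)`, `U = 18 * B ^ 2`. Put
`Q 0 J = 1`, `Q (m + 1) J = ∑ i ≤ J, a_m i * Q m (J - i)`. Weight of `Q m J` at most `(2 * U) ^ (m + J)`:
`∑_{i ≤ J} U^(i+1) (2U)^(m+J-i) = U^(m+J+1) ∑_{i ≤ J} 2^(m+J-i) ≤ (2U)^(m+1+J)`. Error: with `π_m` the product of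
the first `m` bits, `π_(m+1) - Q (m+1) J = ∑_{i ≤ J} a_m i * (π_m - Q m (J - i)) + (ρ_m - ∑_{i ≤ J} a_m i) * π_m`, so by
induction `|π_m - Q m J| ≤ (3^m - 1) * (3/4)^J`:
`∑_{i ≤ J} (1/2)^i (3^m-1) (3/4)^(J-i) + (1/4)(1/2)^J ≤ (3 (3^m - 1) + 1) (3/4)^J ≤ (3^(m+1) - 1) (3/4)^J`. -/
def St_Sgn : Prop := ∀ (X : Type) (S : Submonoid (X → ℝ)) (m : ℕ) (ρ : Fin m → X → Bool)
  (r : Fin m → X → ℝ) (B : ℝ), 1 ≤ B → (∀ i, Wt (S : Set (X → ℝ)) B (r i)) →
  (∀ i x, 0 ≤ r i x ∧ r i x ≤ 1) → (∀ i x, |r i x - ind (ρ i x)| ≤ 1 / 8) → ∀ J : ℕ,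
  ∃ q : X → ℝ, Wt (S : Set (X → ℝ)) ((36 * B ^ 2) ^ (m + J)) q ∧
    ∀ x, |q x - ∏ i, ind (ρ i x)| ≤ 3 ^ m * (3 / 4) ^ J

/-- **APX** (from `St_Wta`, `St_Wtb`, `St_Wkb`, `St_Pcs`, `St_Sgn`).  The theorem.  PROOF.  `N = F.size`. For `L = 0`
use `L = 1`. Let `L ≥ 1`, `μ = N / L + 1` (so `1 ≤ μ ≤ N / L + 1` and `N < μ * L`), `M = 3 * N / μ + 1 ≤ 3 * L + 1`. By
`St_Pcs` `ind F = ∑ j, c_j g_j`, `∑ |c_j| ≤ 3 ^ M`, `g_j` a product of at most `M` pieces `P` of size `≤ μ`. For each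
piece `St_Wkb` gives `r_P` with weight at most `B = exp (C₀ * (sqrt μ + 1) * log (μ + 2))`. With `J = 100 * L`
(`3 ^ M * 3 ^ M * (3/4) ^ J ≤ 2 ^ (-L)`: `9 ^ (3 L + 1) ≤ 9 ^ (4 L) = 6561 ^ L`, `(3/4) ^ 100 ≤ 1 / 13122`) `St_Sgn` gives
`q_j` with `|q_j - g_j| ≤ 3 ^ M * (3/4) ^ J` (pull back along `z`), `q = ∑ c_j q_j`. Weight at most
`3 ^ M * (36 * B ^ 2) ^ (M + J)`; `sqrt μ ≤ sqrt (N / L) + 1` and `L * sqrt (N / L) = sqrt (N * L)`. -/
def St_Apx : Prop := ∃ C : ℕ, 1 ≤ C ∧ ∀ (X V : Type) (S : Submonoid (X → ℝ)) (z : X → V → Bool),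
  (∀ v, (fun x => ind (z x v)) ∈ S) → ∀ (F : BF V) (L : ℕ), ∃ q : X → ℝ,
    Wt (S : Set (X → ℝ))
      (Real.exp (C * (Real.sqrt (F.size * L) + L + 1) * Real.log (F.size + 2))) q ∧
    ∀ x, |q x - ind (F.eval (z x))| ≤ (1 / 2) ^ L

end Pool.Agent.FRM
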